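import Pool.Agent.K4H66.KG.Fill

set_option autoImplicit false

/-! Localisation of a family of tubes. -/

open MeasureTheory Set Filter Topology ENNReal NNReal Metric
open scoped Classical

namespace Pool.Agent.K4H66.KG

open Pool.Agent.H810R3.Tub

variable {d : ℕ}

theorem norm_le_parts (y : Space d) : ‖y‖ ≤ ‖y.fst‖ + |y.snd| := by
  apply le_of_sq_le_sq _ (by positivity)
  rw [norm_space_sq]
  nlinarith [mul_nonneg (norm_nonneg y.fst) (abs_nonneg y.snd), sq_abs y.snd]

theorem fst_le (y : Space d) : ‖y.fst‖ ≤ ‖y‖ := by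
  apply le_of_sq_le_sq _ (norm_nonneg _)
  rw [norm_space_sq y]
  nlinarith [sq_nonneg y.snd]

theorem snd_le (y : Space d) : |y.snd| ≤ ‖y‖ := by
  apply le_of_sq_le_sq _ (norm_nonneg _)
  rw [norm_space_sq y, sq_abs]
  nlinarith [sq_nonneg ‖y.fst‖]

/-- The diameter of a slanted tube. -/
theorem sl_near {c N R : ℝ} (hN : 1 ≤ N) (hc : 0 ≤ c) {ω : Vec d} (hω : ‖ω‖ ≤ R) {a y : Space d}
    (hy : y ∈ sl c N ω a) : ‖y - a‖ ≤ (2 + 2 * R) * c * N ^ 2 := by
  obtain ⟨h1, h2⟩ := hy
  have hR : 0 ≤ R := (norm_nonneg _).trans hω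
  have h3 : ‖y.fst - a.fst‖ ≤ c * N + 2 * (c * N ^ 2) * R := by
    have e : y.fst - a.fst = ((y.fst - a.fst) + (2 * (y.snd - a.snd)) • ω) - (2 * (y.snd - a.snd)) • ω := by
      abel
    rw [e]
    refine (norm_sub_le _ _).trans (add_le_add h2 ?_)
    rw [norm_smul, Real.norm_eq_abs, abs_mul, abs_of_pos (by norm_num : (0 : ℝ) < 2)]
    exact mul_le_mul (by linarith) hω (norm_nonneg _) (by positivity)
  have h4 := norm_le_parts (y - a)
  rw [WithLp.sub_fst, WithLp.sub_snd] at h4
  have h5 : c * N ≤ c * N ^ 2 := mul_le_mul_of_nonneg_left (by nlinarith) hc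
  nlinarith [mul_nonneg hc (sq_nonneg N)]

/-- The subfamily with the centres near `z`. -/
noncomputable def near (r : ℝ) (P : Finset (Vec d × Space d)) (z : Space d) : Finset (Vec d × Space d) :=
  P.filter (fun p => p.2 ∈ ball z r)

theorem localize {q c N : ℝ} (hq : 0 ≤ q) (hN : 1 ≤ N) (hc : 0 ≤ c) (P : Finset (Vec d × Space d))
    (hP : ∀ p ∈ P, ‖p.1‖ ≤ 1) (Λ : ℝ≥0∞) (hΛ : Λ ≠ ∞)
    (h : Λ * ENNReal.ofReal ((4 * c + 1) ^ (d + 1)) * P.card < ∫⁻ y, SF c N P y ^ q) :
    ∃ z : Space d, Λ * (near ((4 * c + 1) * N ^ 2) P z).card <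
      ∫⁻ y, SF c N (near ((4 * c + 1) * N ^ 2) P z) y ^ q := by
  by_contra hcon
  push Not at hcon
  have hN0 : 0 < N := by linarith
  set r : ℝ := N ^ 2 with hr
  have hr0 : 0 < r := by positivity
  set R : ℝ := (4 * c + 1) * N ^ 2 with hR
  have hR0 : 0 < R := by positivity
  set g : Space d → ℝ≥0∞ := fun y => SF c N P y ^ q with hg
  have hgm : Measurable g := (SF_meas c N P).pow_const _
  set v : ℝ≥0∞ := volume (ball (0 : Space d) r) with hv
  have hnt : Nontrivial (Space d) := by
    apply Module.nontrivial_of_finrank_pos (R := ℝ)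
    rw [finrank_space]
    omega
  have hv0 : v ≠ 0 := (measure_ball_pos _ _ hr0).ne'
  have hvt : v ≠ ∞ := measure_ball_lt_top.ne
  -- the left side
  have hA : ∫⁻ z : Space d, ∫⁻ y in ball z r, g y = v * ∫⁻ y, g y := by
    have h1 : ∀ z : Space d, ∫⁻ y in ball z r, g y = ∫⁻ y, (ball z r).indicator g y := fun z =>
      (lintegral_indicator measurableSet_ball g).symm
    simp_rw [h1]
    rw [lintegral_lintegral_swap]
    · have h2 : ∀ y : Space d, ∫⁻ z : Space d, (ball z r).indicator g y = g y * v := by
        intro y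
        have h3 : ∀ z : Space d, (ball z r).indicator g y = (ball y r).indicator (fun _ => g y) z := by
          intro z
          by_cases hz : z ∈ ball y r
          · rw [indicator_of_mem hz, indicator_of_mem (by rwa [mem_ball_comm])]
          · rw [indicator_of_notMem hz, indicator_of_notMem (by rwa [mem_ball_comm])]
        simp_rw [h3]
        rw [lintegral_indicator measurableSet_ball, setLIntegral_const]
        congr 1
        rw [hv, Measure.addHaar_ball_center]
      simp_rw [h2]
      rw [lintegral_mul_const _ hgm, mul_comm]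
    · apply Measurable.aemeasurable
      have h4 : (Function.uncurry fun (z y : Space d) => (ball z r).indicator g y) =
          {p : Space d × Space d | dist p.2 p.1 < r}.indicator (fun p => g p.2) := by
        funext p
        show (ball p.1 r).indicator g p.2 = _
        by_cases hz : p.2 ∈ ball p.1 r
        · rw [indicator_of_mem hz, indicator_of_mem (show p ∈ {p : Space d × Space d | dist p.2 p.1 < r} from hz)]
        · rw [indicator_of_notMem hz, indicator_of_notMem (show p ∉ {p : Space d × Space d | dist p.2 p.1 < r} from hz)]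
      rw [h4]
      exact (hgm.comp measurable_snd).indicator
        (isOpen_lt (continuous_snd.dist continuous_fst) continuous_const).measurableSet
  -- the right side
  have hB : ∀ z : Space d, ∫⁻ y in ball z r, g y ≤
      Λ * ∑ p ∈ P, (ball p.2 R).indicator (fun _ => (1 : ℝ≥0∞)) z := by
    intro z
    have h1 : ∀ y ∈ ball z r, g y = SF c N (near R P z) y ^ q := by
      intro y hy
      rw [hg]
      simp only
      congr 1
      unfold SF near
      rw [Finset.sum_filter]
      refine Finset.sum_congr rfl fun p hp => ?_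
      split_ifs with hh
      · rfl
      · apply indicator_of_notMem
        intro hmem
        apply hh
        have h2 := sl_near hN hc (hP p hp) hmem
        rw [mem_ball] at hy ⊢
        calc dist p.2 z ≤ dist p.2 y + dist y z := dist_triangle _ _ _
          _ < 4 * c * N ^ 2 + r := by
              refine add_lt_add_of_le_of_lt ?_ hy
              rw [dist_comm, dist_eq_norm]
              refine h2.trans (le_of_eq ?_)
              ring
          _ = R := by rw [hR, hr]; ring
    rw [setLIntegral_congr_fun measurableSet_ball h1]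
    refine (setLIntegral_le_lintegral _ _).trans ((hcon z).trans (le_of_eq ?_))
    congr 1
    unfold near
    rw [Finset.card_filter]
    push_cast
    refine Finset.sum_congr rfl fun p _ => ?_
    by_cases hz : p.2 ∈ ball z R
    · rw [if_pos hz, indicator_of_mem (by rwa [mem_ball_comm])]
    · rw [if_neg hz, indicator_of_notMem (by rwa [mem_ball_comm])]
  have hC : ∫⁻ z : Space d, Λ * ∑ p ∈ P, (ball p.2 R).indicator (fun _ => (1 : ℝ≥0∞)) z =
      Λ * (P.card * (ENNReal.ofReal ((4 * c + 1) ^ (d + 1)) * v)) := by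
    rw [lintegral_const_mul' _ _ hΛ, lintegral_finsetSum _
      (fun p _ => measurable_const.indicator measurableSet_ball)]
    congr 1
    have h1 : ∀ p ∈ P, ∫⁻ z : Space d, (ball p.2 R).indicator (fun _ => (1 : ℝ≥0∞)) z =
        ENNReal.ofReal ((4 * c + 1) ^ (d + 1)) * v := by
      intro p _
      rw [lintegral_indicator measurableSet_ball, setLIntegral_const, one_mul, hv,
        Measure.addHaar_ball_center, Measure.addHaar_ball_of_pos _ _ hR0, Measure.addHaar_ball_of_pos _ _ hr0,
        finrank_space, ← mul_assoc, ← ENNReal.ofReal_mul (by positivity), ← mul_pow]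
    rw [Finset.sum_congr rfl h1, Finset.sum_const, nsmul_eq_mul]
  have hD : v * (∫⁻ y, g y) ≤ v * (Λ * ENNReal.ofReal ((4 * c + 1) ^ (d + 1)) * P.card) := by
    rw [← hA]
    refine (lintegral_mono hB).trans (le_of_eq ?_)
    rw [hC]
    ring
  have hE := (ENNReal.mul_le_mul_iff_right hv0 hvt).1 hD
  exact absurd h (not_lt.2 hE)

/-- the translated family -/
noncomputable def tr (z : Space d) (P : Finset (Vec d × Space d)) : Finset (Vec d × Space d) :=
  P.image (fun p => (p.1, p.2 - z))

theorem tr_inj (z : Space d) : Function.Injective (fun p : Vec d × Space d => (p.1, p.2 - z)) := by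
  intro p p' h
  simp only [Prod.mk.injEq] at h
  exact Prod.ext h.1 (sub_left_injective h.2)

theorem tr_card (z : Space d) (P : Finset (Vec d × Space d)) : (tr z P).card = P.card :=
  Finset.card_image_of_injective _ (tr_inj z)

theorem int_tr (c N q : ℝ) (z : Space d) (P : Finset (Vec d × Space d)) :
    ∫⁻ y, SF c N (tr z P) y ^ q = ∫⁻ y, SF c N P y ^ q := by
  rw [← lintegral_add_right_eq_self (fun y : Space d => SF c N P y ^ q) z]
  refine lintegral_congr fun y => ?_
  congr 1
  unfold SF tr
  rw [Finset.sum_image ((tr_inj z).injOn)]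
  refine Finset.sum_congr rfl fun p _ => ?_
  have h1 : y ∈ sl c N p.1 (p.2 - z) ↔ y + z ∈ sl c N p.1 p.2 := by
    unfold sl
    simp only [mem_ofPred_eq, WithLp.sub_fst, WithLp.sub_snd, WithLp.add_fst, WithLp.add_snd]
    have e1 : y.snd - (p.2.snd - z.snd) = y.snd + z.snd - p.2.snd := by ring
    have e2 : y.fst - (p.2.fst - z.fst) = y.fst + z.fst - p.2.fst := by abel
    rw [e1, e2]
  by_cases h : y + z ∈ sl c N p.1 p.2
  · rw [indicator_of_mem (h1.2 h), indicator_of_mem h]
  · rw [indicator_of_notMem (fun h' => h (h1.1 h')), indicator_of_notMem h]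

end Pool.Agent.K4H66.KG
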