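import Pool.Agent.K4H66.KG.Large
import Pool.Agent.K4H66.KG.Local

set_option autoImplicit false

/-! A failure of the global inequality yields bad families in every small cap of directions. -/

open MeasureTheory Set Filter Topology ENNReal NNReal Metric
open scoped Classical

namespace Pool.Agent.K4H66.KG

open Pool.Agent.H810R3.Tub

/-- The points of a grid. -/
noncomputable def gp {d L : ℕ} (s : ℝ) (k : Fin d → Fin L) : Vec d :=
  WithLp.toLp 2 (fun i => s * ((k i : ℕ) : ℝ))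

theorem gp_sep {d L : ℕ} {s : ℝ} (hs : 0 ≤ s) {k k' : Fin d → Fin L} (h : k ≠ k') :
    s ≤ ‖gp s k - gp s k'‖ := by
  obtain ⟨i, hi⟩ := Function.ne_iff.1 h
  have h1 := PiLp.norm_apply_le (p := 2) (gp s k - gp s k') i
  refine le_trans ?_ h1
  have e : (gp s k - gp s k') i = s * (((k i : ℕ) : ℝ) - ((k' i : ℕ) : ℝ)) := by
    show s * ((k i : ℕ) : ℝ) - s * ((k' i : ℕ) : ℝ) = _
    ring
  rw [e, norm_mul, Real.norm_of_nonneg hs]
  have h2 : (1 : ℝ) ≤ ‖(((k i : ℕ) : ℝ) - ((k' i : ℕ) : ℝ))‖ := by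
    rw [Real.norm_eq_abs]
    have h3 : ((k i : ℕ) : ℤ) - ((k' i : ℕ) : ℤ) ≠ 0 := by
      intro h4
      apply hi
      apply Fin.ext
      omega
    have h5 : (1 : ℤ) ≤ |((k i : ℕ) : ℤ) - ((k' i : ℕ) : ℤ)| := Int.one_le_abs h3
    have h6 : ((1 : ℤ) : ℝ) ≤ ((|((k i : ℕ) : ℤ) - ((k' i : ℕ) : ℤ)| : ℤ) : ℝ) := by exact_mod_cast h5
    push_cast at h6
    exact h6
  nlinarith

theorem gp_norm {d L : ℕ} {s : ℝ} (hs : 0 ≤ s) (k : Fin d → Fin L) : ‖gp s k‖ ≤ s * (d * L) := by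
  apply le_of_sq_le_sq _ (by positivity)
  rw [EuclideanSpace.real_norm_sq_eq]
  have h1 : ∀ i : Fin d, (gp s k).ofLp i ^ 2 ≤ (s * L) ^ 2 := by
    intro i
    show (s * ((k i : ℕ) : ℝ)) ^ 2 ≤ _
    have h2 : ((k i : ℕ) : ℝ) ≤ L := by exact_mod_cast (k i).2.le
    gcongr
  refine (Finset.sum_le_sum fun i _ => h1 i).trans ?_
  rw [Finset.sum_const, Finset.card_univ, Fintype.card_fin, nsmul_eq_mul]
  have h3 : (d : ℝ) ≤ (d : ℝ) ^ 2 := by
    have : d ≤ d ^ 2 := by nlinarith [Nat.zero_le d, Nat.lt_or_ge d 1]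
    exact_mod_cast this
  nlinarith [sq_nonneg (s * L)]

theorem gp_inj {d L : ℕ} {s : ℝ} (hs : 0 < s) : Function.Injective (gp (d := d) (L := L) s) := by
  intro k k' h
  by_contra hne
  have := gp_sep hs.le hne
  rw [h, sub_self, norm_zero] at this
  linarith

/-- the filled and translated family -/
theorem fill_up {d : ℕ} {q c N σ Λ : ℝ} (hq : 1 ≤ q) (hN : 1 ≤ N) (hc : 0 ≤ c) (hσ : 0 < σ) (hσ1 : σ ≤ 1)
    (hΛ : 0 < Λ) (P : Finset (Vec d × Space d)) (hP : ∀ p ∈ P, ‖p.1‖ ≤ 1) (hs : Sep (σ / N) P)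
    (h : ENNReal.ofReal (Λ * (4 * c + 1) ^ (d + 1) * P.card) < ∫⁻ y, SF c N P y ^ q) :
    ∃ U : Finset (Vec d × Space d), Sep (σ / N) U ∧
      Bd (1 + 4 * d) ((1 + 8 * d) * ((4 * c + 1) * N ^ 2)) U ∧
      ENNReal.ofReal (Λ * N ^ d / 2) ≤ 2 ^ q * ∫⁻ y, SF c N U y ^ q := by
  have hN0 : 0 < N := by linarith
  have hq0 : 0 < q := by linarith
  obtain ⟨z, hz⟩ := localize (d := d) (q := q) hq0.le hN hc P hP (ENNReal.ofReal Λ) ENNReal.ofReal_ne_top (by
    refine lt_of_le_of_lt (le_of_eq ?_) h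
    rw [ENNReal.ofReal_mul (by positivity), ENNReal.ofReal_mul hΛ.le, ENNReal.ofReal_natCast])
  set Q : Finset (Vec d × Space d) := near ((4 * c + 1) * N ^ 2) P z with hQ
  have hQP : ∀ p ∈ Q, p ∈ P ∧ p.2 ∈ ball z ((4 * c + 1) * N ^ 2) := by
    intro p hp
    rw [hQ] at hp
    unfold near at hp
    exact Finset.mem_filter.1 hp
  set P1 : Finset (Vec d × Space d) := tr z Q with hP1
  have hcard : P1.card = Q.card := tr_card z Q
  have hn : 0 < Q.card := by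
    rcases Nat.eq_zero_or_pos Q.card with h0 | h0
    · exfalso
      rw [Finset.card_eq_zero] at h0
      rw [h0] at hz
      have : ∫⁻ y, SF c N (∅ : Finset (Vec d × Space d)) y ^ q = 0 := by
        unfold SF
        simp [hq0]
      rw [this] at hz
      simp at hz
    · exact h0
  have hmem : ∀ p ∈ P1, ∃ p' ∈ Q, p = (p'.1, p'.2 - z) := by
    intro p hp
    rw [hP1] at hp
    unfold tr at hp
    rw [Finset.mem_image] at hp
    obtain ⟨p', h1, h2⟩ := hp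
    exact ⟨p', h1, h2.symm⟩
  have hsep : Sep (σ / N) P1 := by
    intro p hp p' hp' hne
    obtain ⟨r, hr, rfl⟩ := hmem p hp
    obtain ⟨r', hr', rfl⟩ := hmem p' hp'
    refine hs r (hQP r hr).1 r' (hQP r' hr').1 ?_
    rintro rfl
    exact hne rfl
  have hbd : Bd 1 ((4 * c + 1) * N ^ 2) P1 := by
    intro p hp
    obtain ⟨r, hr, rfl⟩ := hmem p hp
    refine ⟨hP r (hQP r hr).1, ?_⟩
    have := (hQP r hr).2
    rw [mem_ball, dist_eq_norm] at this
    exact this.le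
  set δ : ℝ := σ / N with hδ
  have hδ0 : 0 < δ := by positivity
  set L : ℕ := ⌈N⌉₊ with hL
  have hNL : N ≤ L := Nat.le_ceil N
  have hL2 : (L : ℝ) ≤ 2 * N := by
    have := Nat.ceil_lt_add_one hN0.le
    linarith
  have hL0 : 0 < L := by
    have : (0 : ℝ) < L := lt_of_lt_of_le hN0 hNL
    exact_mod_cast this
  have : NeZero L := ⟨hL0.ne'⟩
  set B : Finset (Vec d) := Finset.univ.image (gp (d := d) (L := L) (2 * δ)) with hB
  have hBc : B.card = L ^ d := by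
    rw [hB, Finset.card_image_of_injective _ (gp_inj (by positivity)), Finset.card_univ, Fintype.card_fun,
      Fintype.card_fin, Fintype.card_fin]
  have hBne : B.Nonempty := Finset.image_nonempty.2 Finset.univ_nonempty
  have hBb : ∀ τ ∈ B, ‖τ‖ ≤ 4 * d := by
    intro τ hτ
    rw [hB, Finset.mem_image] at hτ
    obtain ⟨k, _, rfl⟩ := hτ
    refine (gp_norm (by positivity) k).trans ?_
    have h1 : δ * L ≤ 2 := by
      calc δ * L ≤ (1 / N) * (2 * N) := by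
            apply mul_le_mul _ hL2 (by positivity) (by positivity)
            rw [hδ]
            gcongr
        _ = 2 := by field_simp
    have hd0 : (0 : ℝ) ≤ d := Nat.cast_nonneg d
    nlinarith
  have hC1 : ∀ x : Vec d, (B.filter (fun τ => ‖τ - x‖ < δ)).card ≤ 1 := by
    intro x
    rw [Finset.card_le_one]
    intro τ hτ τ' hτ'
    rw [Finset.mem_filter] at hτ hτ'
    by_contra hne
    obtain ⟨h1, h2⟩ := hτ
    obtain ⟨h3, h4⟩ := hτ'
    rw [hB, Finset.mem_image] at h1 h3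
    obtain ⟨k, _, rfl⟩ := h1
    obtain ⟨k', _, rfl⟩ := h3
    have h5 := gp_sep (s := 2 * δ) (by positivity) (k := k) (k' := k') (fun h => hne (by rw [h]))
    have h6 : ‖gp (2 * δ) k - gp (2 * δ) k'‖ ≤ ‖gp (2 * δ) k - x‖ + ‖gp (2 * δ) k' - x‖ := by
      rw [← norm_neg (gp (2 * δ) k' - x)]
      have e : gp (2 * δ) k - gp (2 * δ) k' = (gp (2 * δ) k - x) + -(gp (2 * δ) k' - x) := by abel
      rw [e]
      exact norm_add_le _ _
    linarith
  set n : ℕ := Q.card with hnn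
  set k : ℕ := B.card / (2 * n) + 1 with hk
  have hk1 : 2 * (1 * (k * P1.card)) ≤ B.card + 2 * (1 * P1.card) := by
    rw [hcard, hk]
    have h1 := Nat.div_mul_le_self B.card (2 * n)
    nlinarith
  have hk2 : B.card ≤ 2 * (k * n) := by
    have h1 := Nat.lt_div_mul_add (a := B.card) (b := 2 * n) (by omega)
    rw [hk]
    nlinarith
  obtain ⟨U, hU1, hU2, _, hU4⟩ := fill (q := q) (δ := δ) (c := c) (N := N) (R := 1 + 4 * d)
    (A := (1 + 8 * d) * ((4 * c + 1) * N ^ 2)) (R1 := 1) (R2 := 4 * d) (A1 := (4 * c + 1) * N ^ 2)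
    hq hδ0 (by positivity) P1 hsep hbd B hBne hBb le_rfl (le_of_eq (by ring)) 1 hC1 k hk1
  refine ⟨U, hU1, hU2, le_trans ?_ hU4⟩
  rw [hP1, int_tr]
  have h1 : ENNReal.ofReal (Λ * N ^ d / 2) ≤ (k : ℝ≥0∞) * (ENNReal.ofReal Λ * (n : ℝ≥0∞)) := by
    rw [← ENNReal.ofReal_natCast k, ← ENNReal.ofReal_natCast n, ← ENNReal.ofReal_mul hΛ.le,
      ← ENNReal.ofReal_mul (by positivity)]
    apply ENNReal.ofReal_le_ofReal
    have h2 : N ^ d ≤ 2 * ((k : ℝ) * n) := by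
      calc N ^ d ≤ (L : ℝ) ^ d := by gcongr
        _ = ((B.card : ℕ) : ℝ) := by rw [hBc]; push_cast; rfl
        _ ≤ ((2 * (k * n) : ℕ) : ℝ) := by exact_mod_cast hk2
        _ = _ := by push_cast; ring
    nlinarith
  refine h1.trans ?_
  gcongr

/-- the scaled family -/
noncomputable def sc {d : ℕ} (ρ : ℝ) (v : Vec d) (P : Finset (Vec d × Space d)) : Finset (Vec d × Space d) :=
  P.image (fun p => (ρ • p.1, Z ρ v p.2))

theorem Z_inj {d : ℕ} {ρ : ℝ} (hρ : 0 < ρ) (v : Vec d) {a b : Space d} (h : Z ρ v a = Z ρ v b) : a = b := by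
  have h1 : (Z ρ v a).fst = (Z ρ v b).fst := by rw [h]
  have h2 : (Z ρ v a).snd = (Z ρ v b).snd := by rw [h]
  simp only [Z_fst, Z_snd] at h1 h2
  have h3 : a.fst = b.fst := smul_right_injective _ (inv_pos.2 hρ).ne' (add_right_cancel h1)
  have h4 : a.snd = b.snd := mul_left_cancel₀ (inv_pos.2 (by positivity : 0 < ρ ^ 2)).ne' h2
  apply WithLp.ofLp_injective
  exact Prod.ext h3 h4

theorem sc_inj {d : ℕ} {ρ : ℝ} (hρ : 0 < ρ) (v : Vec d) :
    Function.Injective (fun p : Vec d × Space d => (ρ • p.1, Z ρ v p.2)) := by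
  intro p p' h
  simp only [Prod.mk.injEq] at h
  exact Prod.ext (smul_right_injective _ hρ.ne' h.1) (Z_inj hρ v h.2)

theorem int_sc {d : ℕ} {c N q ρ : ℝ} (hρ : 0 < ρ) (v : Vec d) (P : Finset (Vec d × Space d)) :
    ∫⁻ y, SF c N P y ^ q = ENNReal.ofReal (ρ ^ (d + 2)) * ∫⁻ y, SF c (N / ρ) (sc ρ v P) y ^ q := by
  have h := lint_Z hρ v (g := fun y => SF c (N / ρ) (sc ρ v P) y ^ q) ((SF_meas _ _ _).pow_const _)
  rw [← h]
  refine lintegral_congr fun y => ?_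
  congr 1
  unfold SF sc
  rw [Finset.sum_image ((sc_inj hρ v).injOn)]
  refine Finset.sum_congr rfl fun p _ => ?_
  have h1 := mem_Z (c := c) (N := N) hρ (ω := p.1) (v := v) (a := p.2) (y := y)
  by_cases h : y ∈ sl c N p.1 p.2
  · rw [indicator_of_mem h, indicator_of_mem (h1.2 h)]
  · rw [indicator_of_notMem h, indicator_of_notMem (fun h' => h (h1.1 h'))]

/-- A failure of the global inequality gives bad families of tubes in every small cap of directions, with the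
axes through the neighbourhood of any given point. -/
theorem bad {d : ℕ} (hd : 1 ≤ d) {β : ℝ} (hβ : 0 ≤ β) (hneg : ¬ LossAll d β) :
    ∃ ε σ A : ℝ, 0 < ε ∧ 0 < σ ∧ σ ≤ 1 ∧ 0 < A ∧ ∀ m ρ : ℝ, 0 < m → 0 < ρ → ρ ≤ 1 → ∀ v₀ : Vec d,
      ∃ M : ℝ, 1 ≤ M ∧ ∃ P : Finset (Vec d × Space d), Sep (σ / M) P ∧
        (∀ p ∈ P, ‖p.1‖ ≤ A * ρ ∧ ‖p.2.fst + (2 * p.2.snd) • p.1 - M ^ 2 • v₀‖ ≤ A * ρ * M ^ 2 ∧
          |p.2.snd| ≤ A * M ^ 2) ∧
        ENNReal.ofReal (m * M ^ ((β + ε) * (1 + 1 / (d : ℝ))) * M ^ (2 * d + 2)) ≤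
          ∫⁻ y, SF (2 * d + 1) M P y ^ (1 + 1 / (d : ℝ)) := by
  unfold LossAll at hneg
  push Not at hneg
  obtain ⟨ε, σ₀, κ, hε, hσ₀, hκ, hneg⟩ := hneg
  obtain ⟨c₀, hc₀, hlarge⟩ := large_of_not d hd
  have hd0 : (0 : ℝ) < d := by exact_mod_cast hd
  set q : ℝ := 1 + 1 / (d : ℝ) with hq
  have hq1 : 1 ≤ q := by
    have : 0 < 1 / (d : ℝ) := by positivity
    linarith
  set c : ℝ := 2 * d + 1 with hc
  have hc0 : 0 < c := by positivity
  set σ : ℝ := min σ₀ 1 with hσ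
  have hσ0 : 0 < σ := lt_min hσ₀ one_pos
  have hκd : 0 < κ ^ (1 / (d : ℝ)) := Real.rpow_pos_of_pos hκ _
  set c₁ : ℝ := c₀ * κ ^ (1 / (d : ℝ)) / (4 * c + 1) ^ (d + 1) with hc₁
  have hc10 : 0 < c₁ := by positivity
  refine ⟨ε, σ, (3 + 8 * d) * (1 + 8 * d) * (4 * c + 1), hε, hσ0, min_le_right _ _, by positivity, ?_⟩
  intro m ρ hm hρ hρ1 v₀
  have hρe : 0 < ρ ^ ((β + ε) * q) := Real.rpow_pos_of_pos hρ _
  set T : ℝ := m * (2 * 2 ^ q * ρ ^ (d + 2)) / (c₁ * ρ ^ ((β + ε) * q) * ρ ^ (2 * d + 2)) with hT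
  have hT0 : 0 < T := by positivity
  set C : ℝ := max 1 T with hC
  have hC1 : 1 ≤ C := le_max_left _ _
  have hCT : T ≤ C ^ q := by
    calc T ≤ C := le_max_right _ _
      _ = C ^ (1 : ℝ) := (Real.rpow_one C).symm
      _ ≤ C ^ q := Real.rpow_le_rpow_of_exponent_le hC1 hq1
  obtain ⟨N, hN, ι, _, ω, f, a, hcaps, hnot⟩ := hneg C
  obtain ⟨hω, hsep, hcard, hf⟩ := hcaps
  have hN0 : 0 < N := by linarith
  have hNd : 0 < κ * N ^ d := by positivity
  have hne : Nonempty ι := by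
    rw [← Fintype.card_pos_iff]
    have : (0 : ℝ) < (Fintype.card ι : ℝ) := lt_of_lt_of_le hNd hcard
    exact_mod_cast this
  have hn0 : (0 : ℝ) < (Fintype.card ι : ℝ) := lt_of_lt_of_le hNd hcard
  set D : ℝ := C * N ^ (β + ε) with hD
  have hD1 : 1 ≤ D := one_le_mul_of_one_le_of_one_le hC1 (Real.one_le_rpow hN (by linarith))
  have hD0 : 0 < D := by linarith
  have hDq : 0 < D ^ q := Real.rpow_pos_of_pos hD0 _
  have hL := hlarge N D hN hD1 ι ω f a hf hnot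
  obtain ⟨hS1, hS2, hS3, hS4⟩ := Fb_le_SF hd (σ := σ) hN hσ0 ω f a hω (fun i j hij =>
    le_trans (by gcongr; exact min_le_left _ _) (hsep i j hij)) hf
  -- the critical moment
  have hkey : c₁ * D ^ q * N ^ (d + 2) * (4 * c + 1) ^ (d + 1) * (Fintype.card ι : ℝ) ≤
      c₀ * D ^ q * (Fintype.card ι : ℝ) ^ q * N ^ (d + 1) := by
    have h1 : (Fintype.card ι : ℝ) ^ q = (Fintype.card ι : ℝ) * (Fintype.card ι : ℝ) ^ (1 / (d : ℝ)) := by
      rw [hq, Real.rpow_add hn0, Real.rpow_one]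
    have h2 : κ ^ (1 / (d : ℝ)) * N ≤ (Fintype.card ι : ℝ) ^ (1 / (d : ℝ)) := by
      have h3 : κ ^ (1 / (d : ℝ)) * N = (κ * N ^ d) ^ (1 / (d : ℝ)) := by
        rw [Real.mul_rpow hκ.le (by positivity), ← Real.rpow_natCast N d, ← Real.rpow_mul hN0.le,
          mul_one_div_cancel hd0.ne', Real.rpow_one]
      rw [h3]
      exact Real.rpow_le_rpow hNd.le hcard (by positivity)
    have h4 : c₁ * D ^ q * N ^ (d + 2) * (4 * c + 1) ^ (d + 1) * (Fintype.card ι : ℝ) =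
        c₀ * D ^ q * ((Fintype.card ι : ℝ) * (κ ^ (1 / (d : ℝ)) * N)) * N ^ (d + 1) := by
      rw [hc₁]
      field_simp
      ring
    rw [h4, h1]
    gcongr
  obtain ⟨U, hU1, hU2, hU3⟩ := fill_up (d := d) (q := q) (c := c) (N := N) (σ := σ)
    (Λ := c₁ * D ^ q * N ^ (d + 2)) hq1 hN hc0.le hσ0 (min_le_right _ _) (by positivity) (fam ω a) hS4 hS3 (by
      rw [hS2]
      refine lt_of_le_of_lt (ENNReal.ofReal_le_ofReal hkey) (lt_of_lt_of_le hL ?_)
      exact lintegral_mono fun y => ENNReal.rpow_le_rpow (hS1 y) (by linarith))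
  set M : ℝ := N / ρ with hM
  have hM1 : 1 ≤ M := by
    rw [hM, le_div_iff₀ hρ]
    linarith
  have hM0 : 0 < M := by linarith
  have hMN : N = ρ * M := by rw [hM]; field_simp
  refine ⟨M, hM1, sc ρ (M ^ 2 • v₀) U, ?_, ?_, ?_⟩
  · intro p hp p' hp' hne
    unfold sc at hp hp'
    rw [Finset.mem_image] at hp hp'
    obtain ⟨r, hr, rfl⟩ := hp
    obtain ⟨r', hr', rfl⟩ := hp'
    have h1 := hU1 r hr r' hr' (fun h => hne (by rw [h]))
    simp only
    rw [← smul_sub, norm_smul, Real.norm_of_nonneg hρ.le]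
    calc σ / M = ρ * (σ / N) := by rw [hM]; field_simp
      _ ≤ _ := by gcongr
  · intro p hp
    unfold sc at hp
    rw [Finset.mem_image] at hp
    obtain ⟨r, hr, rfl⟩ := hp
    obtain ⟨h1, h2⟩ := hU2 r hr
    simp only [Z_fst, Z_snd]
    have hx : (1 : ℝ) ≤ 1 + 8 * d := by linarith
    have hy : (1 : ℝ) ≤ 4 * c + 1 := by linarith
    refine ⟨?_, ?_, ?_⟩
    · rw [norm_smul, Real.norm_of_nonneg hρ.le]
      calc ρ * ‖r.1‖ ≤ ρ * (1 + 4 * d) := by gcongr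
        _ ≤ ρ * ((3 + 8 * d) * (1 + 8 * d) * (4 * c + 1)) := by
            gcongr
            nlinarith [mul_le_mul hx hy (by positivity) (by positivity), mul_nonneg hd0.le hc0.le,
              mul_nonneg (mul_nonneg hd0.le hd0.le) hc0.le, mul_nonneg hd0.le hd0.le]
        _ = _ := by ring
    · have e : ρ⁻¹ • r.2.fst + M ^ 2 • v₀ + (2 * ((ρ ^ 2)⁻¹ * r.2.snd)) • ρ • r.1 - M ^ 2 • v₀ =
          ρ⁻¹ • (r.2.fst + (2 * r.2.snd) • r.1) := by
        rw [smul_smul, show 2 * ((ρ ^ 2)⁻¹ * r.2.snd) * ρ = ρ⁻¹ * (2 * r.2.snd) by field_simp]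
        module
      rw [e, norm_smul, norm_inv, Real.norm_of_nonneg hρ.le]
      have h3 : ‖r.2.fst + (2 * r.2.snd) • r.1‖ ≤
          (3 + 8 * d) * ((1 + 8 * d) * ((4 * c + 1) * N ^ 2)) := by
        refine (norm_add_le _ _).trans ?_
        rw [norm_smul, Real.norm_eq_abs, abs_mul, abs_of_pos (by norm_num : (0 : ℝ) < 2)]
        have h4 := (fst_le r.2).trans h2
        have h5 := (snd_le r.2).trans h2
        have h6 : 2 * |r.2.snd| * ‖r.1‖ ≤ 2 * ((1 + 8 * d) * ((4 * c + 1) * N ^ 2)) * (1 + 4 * d) := by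
          gcongr
        nlinarith
      calc ρ⁻¹ * ‖r.2.fst + (2 * r.2.snd) • r.1‖
          ≤ ρ⁻¹ * ((3 + 8 * d) * ((1 + 8 * d) * ((4 * c + 1) * N ^ 2))) := by gcongr
        _ = _ := by
            rw [hMN]
            field_simp
    · rw [abs_mul, abs_of_pos (by positivity : 0 < (ρ ^ 2)⁻¹)]
      have h5 := (snd_le r.2).trans h2
      calc (ρ ^ 2)⁻¹ * |r.2.snd| ≤ (ρ ^ 2)⁻¹ * ((1 + 8 * d) * ((4 * c + 1) * N ^ 2)) := by gcongr
        _ = (1 + 8 * d) * (4 * c + 1) * M ^ 2 := by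
            rw [hMN]
            field_simp
        _ ≤ (3 + 8 * d) * ((1 + 8 * d) * (4 * c + 1)) * M ^ 2 := by
            have h7 : (0 : ℝ) ≤ (1 + 8 * d) * (4 * c + 1) := by positivity
            apply mul_le_mul_of_nonneg_right _ (by positivity)
            nlinarith
        _ = _ := by ring
  · rw [int_sc (ρ := ρ) hρ (M ^ 2 • v₀)] at hU3
    rw [← hM] at hU3
    set I : ℝ≥0∞ := ∫⁻ y, SF c M (sc ρ (M ^ 2 • v₀) U) y ^ q with hI
    have h2q : (2 : ℝ≥0∞) ^ q = ENNReal.ofReal ((2 : ℝ) ^ q) := by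
      rw [← ENNReal.ofReal_rpow_of_pos (by norm_num)]
      norm_num
    rw [h2q, ← mul_assoc, ← ENNReal.ofReal_mul (by positivity)] at hU3
    have h2 : 0 < (2 : ℝ) ^ q * ρ ^ (d + 2) := by positivity
    have h3 : m * M ^ ((β + ε) * q) * M ^ (2 * d + 2) * ((2 : ℝ) ^ q * ρ ^ (d + 2)) ≤
        c₁ * D ^ q * N ^ (d + 2) * N ^ d / 2 := by
      have e1 : D ^ q = C ^ q * (ρ ^ ((β + ε) * q) * M ^ ((β + ε) * q)) := by
        rw [hD, Real.mul_rpow (by linarith) (by positivity), ← Real.rpow_mul hN0.le, hMN,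
          Real.mul_rpow hρ.le hM0.le]
      have e2 : N ^ (d + 2) * N ^ d = ρ ^ (2 * d + 2) * M ^ (2 * d + 2) := by
        rw [← pow_add, show d + 2 + d = 2 * d + 2 by ring, hMN, mul_pow]
      have e3 : c₁ * D ^ q * N ^ (d + 2) * N ^ d / 2 =
          (c₁ * ρ ^ ((β + ε) * q) * ρ ^ (2 * d + 2) / 2) * C ^ q * (M ^ ((β + ε) * q) * M ^ (2 * d + 2)) := by
        rw [mul_assoc (c₁ * D ^ q), e2, e1]
        ring
      rw [e3]
      have e4 : m * ((2 : ℝ) ^ q * ρ ^ (d + 2)) = (c₁ * ρ ^ ((β + ε) * q) * ρ ^ (2 * d + 2) / 2) * T := by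
        rw [hT]
        field_simp
      calc m * M ^ ((β + ε) * q) * M ^ (2 * d + 2) * ((2 : ℝ) ^ q * ρ ^ (d + 2))
          = (m * ((2 : ℝ) ^ q * ρ ^ (d + 2))) * (M ^ ((β + ε) * q) * M ^ (2 * d + 2)) := by ring
        _ = (c₁ * ρ ^ ((β + ε) * q) * ρ ^ (2 * d + 2) / 2) * T * (M ^ ((β + ε) * q) * M ^ (2 * d + 2)) := by
            rw [e4]
        _ ≤ _ := by
            have : 0 < M ^ ((β + ε) * q) := Real.rpow_pos_of_pos hM0 _
            gcongr
    have h4 := (ENNReal.ofReal_le_ofReal h3).trans hU3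
    rw [ENNReal.ofReal_mul (by positivity), mul_comm (ENNReal.ofReal (m * M ^ ((β + ε) * q) * M ^ (2 * d + 2)))] at h4
    exact (ENNReal.mul_le_mul_iff_right (ENNReal.ofReal_pos.2 h2).ne' ENNReal.ofReal_ne_top).1 h4

end Pool.Agent.K4H66.KG
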