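import Pool.Agent.K4H66.KG.Defs
import Pool.Agent.H810R3.Tub.Compare
import Pool.Agent.H810R3.Tub.Push
import Pool.Agent.H810R3.Tub.Bounds

set_option autoImplicit false

/-! The moments of the centred family above the critical exponent. -/

open MeasureTheory Set Topology ENNReal NNReal Metric
open scoped Classical

namespace Pool.Agent.K4H66.KG

open Pool.Agent.H810R3.Tub

theorem pmap_zero {d : ℕ} (v : Vec d) : pmap (fun _ : Fin d => (0 : MvPolynomial (Fin d) ℝ)) v = 0 := by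
  unfold pmap
  ext i
  simp

theorem card_sep {d : ℕ} (hd : 1 ≤ d) {N σ : ℝ} (hN : 1 ≤ N) (hσ : 0 < σ) (hσ1 : σ ≤ 1) {ι : Type} [Fintype ι]
    (ω : ι → Vec d) (hω : ∀ i, ‖ω i‖ ≤ 1) (hsep : ∀ i j, i ≠ j → σ / N ≤ ‖ω i - ω j‖) :
    (Fintype.card ι : ℝ) ≤ (10 * d / σ) ^ d * N ^ d := by
  have hd0 : (1 : ℝ) ≤ d := by exact_mod_cast hd
  have hN0 : 0 < N := by linarith
  set ρ : ℝ := σ / (2 * d * N) with hρ
  have hρ0 : 0 < ρ := by positivity
  have hρ1 : ρ ≤ 1 := by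
    rw [hρ, div_le_one (by positivity)]
    nlinarith
  have h := cell_card hρ0 hρ1 ω hω
  rw [Finset.card_image_of_injective, Finset.card_univ] at h
  · refine h.trans (le_of_eq ?_)
    rw [← mul_pow, hρ]
    congr 1
    field_simp
    norm_num
  · intro i j hij
    by_contra hne
    have h1 := hsep i j hne
    have h2 := cell_close hρ0 hij
    have h3 : (d : ℝ) * ρ = σ / N / 2 := by
      rw [hρ]
      field_simp
    rw [h3] at h2
    have : 0 < σ / N := by positivity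
    linarith

/-- The moments of the centred family. -/
theorem cen (d : ℕ) (hd : 1 ≤ d) (q σ : ℝ) (hq : ((d : ℝ) + 1) / d < q) (hσ : 0 < σ) (hσ1 : σ ≤ 1) :
    ∃ E : ℝ, 0 < E ∧ ∀ N : ℝ, 1 ≤ N → ∀ (ι : Type) [Fintype ι] [Nonempty ι] (ω : ι → Vec d)
      (f : ι → Fin d → Space d), (∀ i, ‖ω i‖ ≤ 1) → (∀ i j, i ≠ j → σ / N ≤ ‖ω i - ω j‖) →
      (∀ i, Orthonormal ℝ (Fin.cons (nor (ω i)) (f i) : Fin (d + 1) → Space d)) →
      ∫⁻ y, Fb N ω f (fun _ => 0) y ^ q ≤ ENNReal.ofReal (E * N ^ ((d : ℝ) * q + d + 1)) := by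
  obtain ⟨E, hE0, hE⟩ := push d hd q hq 0 σ hσ hσ1
  have hd0 : (0 : ℝ) < d := by exact_mod_cast hd
  have hd1 : (1 : ℝ) ≤ d := by exact_mod_cast hd
  have hdq : (d : ℝ) + 1 < q * d := by rwa [div_lt_iff₀ hd0] at hq
  have he : 0 < q - 1 / d := by
    have : 1 / (d : ℝ) < q := by
      rw [div_lt_iff₀ hd0]
      linarith
    linarith
  set B : ℝ := (10 * d / σ) ^ d with hB
  have hB0 : 0 < B := by positivity
  refine ⟨E * B ^ (q - 1 / d), by positivity, ?_⟩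
  intro N hN ι _ _ ω f hω hsep hf
  have hN0 : 0 < N := by linarith
  have h1 := hE 0 0 0 (fun _ => 0) (fun j => by simp) (by
    apply LipschitzWith.lipschitzOnWith
    intro x y
    rw [pmap_zero, pmap_zero]
    simp) N hN ι ω (fun _ => 0) (fun _ => 0) f hω hsep hf (fun i => by simp) (fun i => by
      rw [pmap_zero]
      simp)
  have e : (fun i : ι => (WithLp.toLp 2 ((0 : Vec d) + (0 : ℝ) • (-(2 : ℝ) • ω i), (0 : ℝ)) : Space d)) =
      fun _ => 0 := by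
    funext i
    apply WithLp.ofLp_injective
    refine Prod.ext ?_ rfl
    show (0 : Vec d) + (0 : ℝ) • (-(2 : ℝ) • ω i) = 0
    simp
  rw [e] at h1
  refine h1.trans (ENNReal.ofReal_le_ofReal ?_)
  have h2 := card_sep hd hN hσ hσ1 ω hω hsep
  have h3 : (Fintype.card ι : ℝ) ^ (q - 1 / d) ≤ B ^ (q - 1 / d) * N ^ ((d : ℝ) * q - 1) := by
    calc (Fintype.card ι : ℝ) ^ (q - 1 / d) ≤ (B * N ^ d) ^ (q - 1 / d) :=
          Real.rpow_le_rpow (Nat.cast_nonneg _) h2 he.le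
      _ = _ := by
          rw [Real.mul_rpow hB0.le (by positivity), ← Real.rpow_natCast N d, ← Real.rpow_mul hN0.le]
          congr 2
          field_simp
  have h4 : N ^ (d + 2) * N ^ ((d : ℝ) * q - 1) = N ^ ((d : ℝ) * q + d + 1) := by
    rw [← Real.rpow_natCast N (d + 2), ← Real.rpow_add hN0]
    congr 1
    push_cast
    ring
  calc E * ((1 + ((0 : ℝ≥0) : ℝ) + ((0 : ℝ≥0) : ℝ) + ((0 : ℝ≥0) : ℝ)) ^ d) ^ q * N ^ (d + 2) *
        (Fintype.card ι : ℝ) ^ (q - 1 / d)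
      = E * N ^ (d + 2) * (Fintype.card ι : ℝ) ^ (q - 1 / d) := by simp
    _ ≤ E * N ^ (d + 2) * (B ^ (q - 1 / d) * N ^ ((d : ℝ) * q - 1)) := by gcongr
    _ = E * B ^ (q - 1 / d) * (N ^ (d + 2) * N ^ ((d : ℝ) * q - 1)) := by ring
    _ = _ := by rw [h4]

/-- The inequality at one exponent in terms of moments. -/
theorem ineq_moment {d : ℕ} {N D q : ℝ} (hD : 0 < D) (hq : 1 ≤ q) {ι : Type} [Fintype ι] {ω : ι → Vec d}
    {f : ι → Fin d → Space d} {a : ι → Space d} (h : Ineq N D ω f a) :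
    ∫⁻ y, Fb N ω f a y ^ q ≤ ENNReal.ofReal (D ^ q) * ∫⁻ y, Fb N ω f (fun _ => 0) y ^ q := by
  have hq0 : 0 < q := by linarith
  have h1 := h (ENNReal.ofReal q) (by
    rw [← ENNReal.ofReal_one]
    exact ENNReal.ofReal_le_ofReal hq)
  have hp0 : ENNReal.ofReal q ≠ 0 := (ENNReal.ofReal_pos.2 hq0).ne'
  rw [eLpNorm_eq_lintegral_rpow_enorm_toReal hp0 ENNReal.ofReal_ne_top,
    eLpNorm_eq_lintegral_rpow_enorm_toReal hp0 ENNReal.ofReal_ne_top, ENNReal.toReal_ofReal hq0.le] at h1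
  have e1 : ∫⁻ y : Space d, ‖∑ i, (box N (nor (ω i)) (f i) (a i)).indicator (fun _ => (1 : ℝ)) y‖ₑ ^ q =
      ∫⁻ y, Fb N ω f a y ^ q := by
    refine lintegral_congr fun y => ?_
    rw [enorm_sum_box]
  have e2 : ∫⁻ y : Space d, ‖∑ i, (box N (nor (ω i)) (f i) 0).indicator (fun _ => (1 : ℝ)) y‖ₑ ^ q =
      ∫⁻ y, Fb N ω f (fun _ => 0) y ^ q := by
    refine lintegral_congr fun y => ?_
    rw [← enorm_sum_box]
  rw [e1, e2] at h1
  have h2 := ENNReal.rpow_le_rpow h1 hq0.le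
  rw [ENNReal.mul_rpow_of_nonneg _ _ hq0.le, ← ENNReal.rpow_mul, ← ENNReal.rpow_mul, one_div_mul_cancel hq0.ne',
    ENNReal.rpow_one, ENNReal.rpow_one, ENNReal.ofReal_rpow_of_pos hD] at h2
  exact h2

/-- The multiplicity is an integer. -/
theorem Fb_nat {d : ℕ} {ι : Type} [Fintype ι] (N : ℝ) (ω : ι → Vec d) (f : ι → Fin d → Space d)
    (a : ι → Space d) (y : Space d) : Fb N ω f a y = 0 ∨ 1 ≤ Fb N ω f a y := by
  by_cases h : ∃ i, y ∈ box N (nor (ω i)) (f i) (a i)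
  · right
    obtain ⟨i, hi⟩ := h
    unfold Fb
    refine le_trans ?_ (Finset.single_le_sum (fun _ _ => zero_le) (Finset.mem_univ i))
    rw [indicator_of_mem hi]
  · left
    push Not at h
    unfold Fb
    exact Finset.sum_eq_zero fun i _ => indicator_of_notMem (h i) _

theorem Fb_pow_le {d : ℕ} {ι : Type} [Fintype ι] (N : ℝ) (ω : ι → Vec d) (f : ι → Fin d → Space d)
    (a : ι → Space d) {q q' : ℝ} (hq : 0 < q) (hqq : q ≤ q') (y : Space d) :
    Fb N ω f a y ^ q ≤ Fb N ω f a y ^ q' := by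
  rcases Fb_nat N ω f a y with h | h
  · rw [h, ENNReal.zero_rpow_of_pos hq]
    exact zero_le
  · exact ENNReal.rpow_le_rpow_of_exponent_le h hqq

/-- **The critical moment of a family with the inequality.** -/
theorem crit (d : ℕ) (hd : 1 ≤ d) (σ β ε ε' : ℝ) (hβ : 0 ≤ β) (hε' : 0 < ε') (hεε : ε' < ε) (hσ : 0 < σ)
    (hσ1 : σ ≤ 1) (m : ℝ) (hm : 0 < m) :
    ∃ E : ℝ, 0 < E ∧ ∀ N : ℝ, 1 ≤ N → ∀ (ι : Type) [Fintype ι] [Nonempty ι] (ω : ι → Vec d)
      (f : ι → Fin d → Space d) (a : ι → Space d), (∀ i, ‖ω i‖ ≤ 1) →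
      (∀ i j, i ≠ j → σ / N ≤ ‖ω i - ω j‖) →
      (∀ i, Orthonormal ℝ (Fin.cons (nor (ω i)) (f i) : Fin (d + 1) → Space d)) →
      Ineq N (m * N ^ (β + ε')) ω f a →
      ∫⁻ y, Fb N ω f a y ^ (1 + 1 / (d : ℝ)) ≤
        ENNReal.ofReal (E * N ^ ((β + ε) * (1 + 1 / (d : ℝ))) * N ^ (2 * d + 2)) := by
  have hd0 : (0 : ℝ) < d := by exact_mod_cast hd
  set q : ℝ := 1 + 1 / (d : ℝ) with hq
  have hq1 : 1 < q := by
    have : 0 < 1 / (d : ℝ) := by positivity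
    linarith
  have hdq : (d : ℝ) * q = d + 1 := by
    rw [hq]
    field_simp
  have hs : 0 < β + ε' + d := by linarith
  set η : ℝ := (ε - ε') * q / (β + ε' + d) with hη
  have hη0 : 0 < η := div_pos (mul_pos (by linarith) (by linarith)) hs
  have hηs : η * (β + ε' + d) = (ε - ε') * q := div_mul_cancel₀ _ hs.ne'
  set q' : ℝ := q + η with hq'
  have hq'c : ((d : ℝ) + 1) / d < q' := by
    rw [div_lt_iff₀ hd0]
    nlinarith
  obtain ⟨E, hE0, hE⟩ := cen d hd q' σ hq'c hσ hσ1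
  refine ⟨m ^ q' * E, by positivity, ?_⟩
  intro N hN ι _ _ ω f a hω hsep hf hI
  have hN0 : 0 < N := by linarith
  have hD0 : 0 < m * N ^ (β + ε') := by positivity
  have h1 := ineq_moment (q := q') hD0 (by linarith) hI
  have h2 := hE N hN ι ω f hω hsep hf
  have h3 : ∫⁻ y, Fb N ω f a y ^ q ≤ ∫⁻ y, Fb N ω f a y ^ q' :=
    lintegral_mono fun y => Fb_pow_le N ω f a (by linarith) (by linarith) y
  calc ∫⁻ y, Fb N ω f a y ^ q ≤ ∫⁻ y, Fb N ω f a y ^ q' := h3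
    _ ≤ ENNReal.ofReal ((m * N ^ (β + ε')) ^ q') * ENNReal.ofReal (E * N ^ ((d : ℝ) * q' + d + 1)) :=
        h1.trans (by gcongr)
    _ = ENNReal.ofReal ((m * N ^ (β + ε')) ^ q' * (E * N ^ ((d : ℝ) * q' + d + 1))) :=
        (ENNReal.ofReal_mul (by positivity)).symm
    _ ≤ _ := by
        apply ENNReal.ofReal_le_ofReal
        apply le_of_eq
        rw [Real.mul_rpow hm.le (by positivity), ← Real.rpow_mul hN0.le, ← Real.rpow_natCast N (2 * d + 2)]
        have e1 : m ^ q' * N ^ ((β + ε') * q') * (E * N ^ ((d : ℝ) * q' + d + 1)) =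
            m ^ q' * E * (N ^ ((β + ε') * q') * N ^ ((d : ℝ) * q' + d + 1)) := by ring
        have e2 : m ^ q' * E * N ^ ((β + ε) * q) * N ^ (((2 * d + 2 : ℕ) : ℝ)) =
            m ^ q' * E * (N ^ ((β + ε) * q) * N ^ (((2 * d + 2 : ℕ) : ℝ))) := by ring
        rw [e1, e2, ← Real.rpow_add hN0, ← Real.rpow_add hN0]
        congr 2
        push_cast
        rw [hq']
        linarith

end Pool.Agent.K4H66.KG
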