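import Pool.Agent.K4H66.KG.Local

set_option autoImplicit false

/-! Slanted tubes are covered by finitely many translates of boxes. -/

open MeasureTheory Set Filter Topology ENNReal NNReal Metric
open scoped Classical

namespace Pool.Agent.K4H66.KG

open Pool.Agent.H810R3.Tub

variable {d : ℕ}

/-- A unit vector is the first vector of an orthonormal frame. -/
theorem exists_frame (e : Space d) (he : ‖e‖ = 1) :
    ∃ f : Fin d → Space d, Orthonormal ℝ (Fin.cons e f : Fin (d + 1) → Space d) := by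
  have h1 : Orthonormal ℝ (({0} : Set (Fin (d + 1))).domRestrict (fun _ => e)) := by
    constructor
    · intro i
      exact he
    · intro i j hij
      exact absurd (Subsingleton.elim i j) hij
  obtain ⟨b, hb⟩ := h1.exists_orthonormalBasis_extension_of_card_eq (ι := Fin (d + 1))
    (by rw [finrank_space, Fintype.card_fin])
  refine ⟨fun j => b j.succ, ?_⟩
  have h2 : (Fin.cons e (fun j => b j.succ) : Fin (d + 1) → Space d) = b := by
    funext i
    refine Fin.cases ?_ (fun j => ?_) i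
    · rw [Fin.cons_zero]
      exact (hb 0 rfl).symm
    · rw [Fin.cons_succ]
  rw [h2]
  exact b.orthonormal

/-- an orthonormal frame of the orthogonal complement of the normal -/
noncomputable def fr (ω : Vec d) : Fin d → Space d := (exists_frame (nor ω) (norm_dir _)).choose

theorem fr_spec (ω : Vec d) : Orthonormal ℝ (Fin.cons (nor ω) (fr ω) : Fin (d + 1) → Space d) :=
  (exists_frame (nor ω) (norm_dir _)).choose_spec

/-- the displacement -/
noncomputable def dsp (N : ℝ) (ω : Vec d) (v : ℤ × (Fin d → ℤ)) : Space d :=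
  ((v.1 : ℝ) * N ^ 2) • nor ω + ∑ l, ((v.2 l : ℝ) * N) • fr ω l

/-- the index set of the displacements -/
noncomputable def VJ (d J : ℕ) : Finset (ℤ × (Fin d → ℤ)) :=
  Finset.Icc (-(J : ℤ)) J ×ˢ Fintype.piFinset (fun _ => Finset.Icc (-(J : ℤ)) J)

theorem VJ_ne (d J : ℕ) : (VJ d J).Nonempty := by
  refine ⟨(0, fun _ => 0), ?_⟩
  unfold VJ
  rw [Finset.mem_product, Fintype.mem_piFinset]
  simp

theorem mem_VJ {J : ℕ} {v : ℤ × (Fin d → ℤ)} : v ∈ VJ d J ↔ |v.1| ≤ J ∧ ∀ l, |v.2 l| ≤ J := by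
  unfold VJ
  rw [Finset.mem_product, Fintype.mem_piFinset, Finset.mem_Icc, abs_le]
  simp only [Finset.mem_Icc, abs_le]

theorem nor_smul (ω : Vec d) : ∃ r : ℝ, 1 ≤ r ∧ (WithLp.toLp 2 (-(2 : ℝ) • ω, (1 : ℝ)) : Space d) = r • nor ω := by
  refine ⟨√(1 + ‖-(2 : ℝ) • ω‖ ^ 2), Real.one_le_sqrt.2 (by nlinarith [sq_nonneg ‖-(2 : ℝ) • ω‖]), ?_⟩
  unfold nor dir
  rw [smul_smul, mul_inv_cancel₀ (by positivity), one_smul]

/-- inner products with the frame -/
theorem inner_fr (ω : Vec d) (l : Fin d) (z : Space d) :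
    |inner ℝ (fr ω l) z| ≤ ‖z.fst + (2 * z.snd) • ω‖ := by
  have hf := fr_spec ω
  obtain ⟨r, _, hr2⟩ := nor_smul ω
  have h0 : inner ℝ (fr ω l) (nor ω) = (0 : ℝ) := by
    have := hf.2 (i := l.succ) (j := 0) (Fin.succ_ne_zero l)
    simpa using this
  have h1 : ‖fr ω l‖ = 1 := by
    have := hf.1 l.succ
    simpa using this
  have e : z = z.snd • (WithLp.toLp 2 (-(2 : ℝ) • ω, (1 : ℝ)) : Space d) +
      WithLp.toLp 2 (z.fst + (2 * z.snd) • ω, (0 : ℝ)) := by
    apply WithLp.ofLp_injective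
    refine Prod.ext ?_ ?_
    · show z.fst = z.snd • (-(2 : ℝ) • ω) + (z.fst + (2 * z.snd) • ω)
      module
    · show z.snd = z.snd • (1 : ℝ) + 0
      simp
  have h2 : ‖(WithLp.toLp 2 (z.fst + (2 * z.snd) • ω, (0 : ℝ)) : Space d)‖ = ‖z.fst + (2 * z.snd) • ω‖ := by
    have h3 := norm_space_sq (WithLp.toLp 2 (z.fst + (2 * z.snd) • ω, (0 : ℝ)) : Space d)
    have h4 : ‖(WithLp.toLp 2 (z.fst + (2 * z.snd) • ω, (0 : ℝ)) : Space d)‖ ^ 2 =
        ‖z.fst + (2 * z.snd) • ω‖ ^ 2 := by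
      rw [h3]
      show ‖z.fst + (2 * z.snd) • ω‖ ^ 2 + (0 : ℝ) ^ 2 = _
      ring
    exact (sq_eq_sq₀ (norm_nonneg _) (norm_nonneg _)).1 h4
  have h5 : (inner ℝ (fr ω l) z : ℝ) = inner ℝ (fr ω l) (WithLp.toLp 2 (z.fst + (2 * z.snd) • ω, (0 : ℝ)) : Space d) := by
    conv_lhs => rw [e]
    rw [inner_add_right, hr2, smul_smul, inner_smul_right, h0, mul_zero, zero_add]
  rw [h5]
  refine (abs_real_inner_le_norm _ _).trans ?_
  rw [h1, one_mul, h2]

theorem abs_sub_round_mul {x s : ℝ} (hs : 0 < s) : |x - (round (x / s) : ℝ) * s| ≤ s / 2 := by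
  have h := abs_sub_round (x / s)
  have e : x - (round (x / s) : ℝ) * s = (x / s - round (x / s)) * s := by
    field_simp
  rw [e, abs_mul, abs_of_pos hs]
  nlinarith

theorem round_le {x s B : ℝ} {J : ℕ} (hs : 0 < s) (hx : |x| ≤ B * s) (hJ : B + 1 ≤ J) :
    |round (x / s)| ≤ (J : ℤ) := by
  have h := abs_sub_round (x / s)
  have h1 : |x / s| ≤ B := by
    rw [abs_div, abs_of_pos hs, div_le_iff₀ hs]
    exact hx
  have h2 : |(round (x / s) : ℝ)| ≤ B + 1 / 2 := by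
    have h3 : |(round (x / s) : ℝ)| ≤ |x / s| + |x / s - round (x / s)| := by
      have e : (round (x / s) : ℝ) = x / s - (x / s - round (x / s)) := by ring
      conv_lhs => rw [e]
      exact abs_sub _ _
    linarith
  have h4 : |(round (x / s) : ℝ)| ≤ J := by linarith
  exact_mod_cast h4

theorem cover_pt {c N : ℝ} {J : ℕ} (hN : 1 ≤ N) (hc : 0 ≤ c) (hJ : 4 * c + 1 ≤ J) {ω : Vec d} (hω : ‖ω‖ ≤ 1)
    {a y : Space d} (hy : y ∈ sl c N ω a) :
    ∃ v ∈ VJ d J, y ∈ box N (nor ω) (fr ω) (a + dsp N ω v) := by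
  have hN0 : 0 < N := by linarith
  have hf := fr_spec ω
  set z := y - a with hz
  have hzn : ‖z‖ ≤ 4 * c * N ^ 2 := by
    have := sl_near hN hc hω hy
    refine this.trans (le_of_eq ?_)
    ring
  have he : ‖nor ω‖ = 1 := norm_e hf
  have h1 : ‖z.fst + (2 * z.snd) • ω‖ ≤ c * N := hy.2
  refine ⟨(round (inner ℝ (nor ω) z / N ^ 2), fun l => round (inner ℝ (fr ω l) z / N)), ?_, ?_⟩
  · rw [mem_VJ]
    constructor
    · apply round_le (B := 4 * c) (by positivity) _ hJ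
      refine (abs_real_inner_le_norm _ _).trans ?_
      rw [he, one_mul]
      exact hzn
    · intro l
      apply round_le (B := c) hN0 ((inner_fr ω l z).trans h1)
      linarith
  · have hon := hf
    have e0 : ∀ l, inner ℝ (nor ω) (fr ω l) = (0 : ℝ) := by
      intro l
      have := hf.2 (i := 0) (j := l.succ) (Fin.succ_ne_zero l).symm
      simpa using this
    have e1 : ∀ l m, inner ℝ (fr ω l) (fr ω m) = (if l = m then (1 : ℝ) else 0) := by
      intro l m
      have := (orthonormal_iff_ite.1 hf) l.succ m.succ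
      simpa [Fin.succ_inj] using this
    have e2 : inner ℝ (nor ω) (nor ω) = (1 : ℝ) := by
      rw [real_inner_self_eq_norm_sq, he, one_pow]
    have hsub : y - (a + dsp N ω (round (inner ℝ (nor ω) z / N ^ 2), fun l => round (inner ℝ (fr ω l) z / N))) =
        z - dsp N ω (round (inner ℝ (nor ω) z / N ^ 2), fun l => round (inner ℝ (fr ω l) z / N)) := by
      rw [hz]; abel
    constructor
    · rw [hsub, inner_sub_right]
      unfold dsp
      rw [inner_add_right, inner_smul_right, e2, inner_sum]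
      simp only [inner_smul_right, e0, mul_zero, Finset.sum_const_zero, add_zero, mul_one]
      exact abs_sub_round_mul (by positivity)
    · intro j
      rw [hsub, inner_sub_right]
      unfold dsp
      rw [inner_add_right, inner_smul_right, inner_sum]
      have e3 : inner ℝ (fr ω j) (nor ω) = (0 : ℝ) := by rw [real_inner_comm, e0]
      simp only [inner_smul_right, e1, e3, mul_zero, zero_add, mul_ite, mul_one]
      rw [Finset.sum_ite_eq Finset.univ j, if_pos (Finset.mem_univ j)]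
      exact abs_sub_round_mul hN0

/-- The number of the boxes of the displaced family through a point. -/
noncomputable def BF (N : ℝ) (P : Finset (Vec d × Space d)) (v : ℤ × (Fin d → ℤ)) (y : Space d) : ℝ≥0∞ :=
  ∑ p ∈ P, (box N (nor p.1) (fr p.1) (p.2 + dsp N p.1 v)).indicator (fun _ => (1 : ℝ≥0∞)) y

theorem BF_meas (N : ℝ) (P : Finset (Vec d × Space d)) (v : ℤ × (Fin d → ℤ)) : Measurable (BF N P v) := by
  unfold BF
  apply Finset.measurable_fun_sum
  intro p _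
  exact measurable_const.indicator (box_closed _ _ _ _).measurableSet

theorem SF_le_BF {c N : ℝ} {J : ℕ} (hN : 1 ≤ N) (hc : 0 ≤ c) (hJ : 4 * c + 1 ≤ J)
    (P : Finset (Vec d × Space d)) (hP : ∀ p ∈ P, ‖p.1‖ ≤ 1) (y : Space d) :
    SF c N P y ≤ ∑ v ∈ VJ d J, BF N P v y := by
  unfold SF BF
  rw [Finset.sum_comm]
  refine Finset.sum_le_sum fun p hp => ?_
  by_cases hy : y ∈ sl c N p.1 p.2
  · rw [indicator_of_mem hy]
    obtain ⟨v, hv, hv2⟩ := cover_pt hN hc hJ (hP p hp) hy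
    refine le_trans ?_ (Finset.single_le_sum (fun _ _ => zero_le) hv)
    rw [indicator_of_mem hv2]
  · rw [indicator_of_notMem hy]
    exact zero_le

theorem exists_disp {c N q : ℝ} {J : ℕ} (hq : 1 ≤ q) (hN : 1 ≤ N) (hc : 0 ≤ c) (hJ : 4 * c + 1 ≤ J)
    (P : Finset (Vec d × Space d)) (hP : ∀ p ∈ P, ‖p.1‖ ≤ 1) :
    ∃ v ∈ VJ d J, ∫⁻ y, SF c N P y ^ q ≤ ((VJ d J).card : ℝ≥0∞) ^ q * ∫⁻ y, BF N P v y ^ q := by
  have hq0 : 0 < q := by linarith
  set n : ℝ≥0∞ := ((VJ d J).card : ℝ≥0∞) with hn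
  have hn0 : n ≠ 0 := by
    rw [hn, Nat.cast_ne_zero]
    exact (VJ_ne d J).card_pos.ne'
  have hnt : n ≠ ∞ := ENNReal.natCast_ne_top _
  have h1 : ∫⁻ y, SF c N P y ^ q ≤ n ^ (q - 1) * ∑ v ∈ VJ d J, ∫⁻ y, BF N P v y ^ q := by
    rw [← lintegral_finsetSum _ (fun v _ => (BF_meas N P v).pow_const _),
      ← lintegral_const_mul' _ _ (ENNReal.rpow_ne_top_of_nonneg (by linarith) hnt)]
    refine lintegral_mono fun y => ?_
    simp only
    exact (ENNReal.rpow_le_rpow (SF_le_BF hN hc hJ P hP y) hq0.le).trans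
      (ENNReal.rpow_sum_le_const_mul_sum_rpow _ _ hq)
  have h2 : ∑ _v ∈ VJ d J, ∫⁻ y, SF c N P y ^ q ≤ ∑ v ∈ VJ d J, n ^ q * ∫⁻ y, BF N P v y ^ q := by
    rw [Finset.sum_const, nsmul_eq_mul, ← Finset.mul_sum]
    have h3 : n ^ q = n * n ^ (q - 1) := by
      conv_lhs => rw [show q = 1 + (q - 1) by ring]
      rw [ENNReal.rpow_add _ _ hn0 hnt, ENNReal.rpow_one]
    rw [h3, mul_assoc]
    exact mul_le_mul' le_rfl h1
  exact ENNReal.exists_le_of_sum_le (VJ_ne d J) h2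

/-- The axis of a displaced tube. -/
theorem dsp_axis {N : ℝ} {J : ℕ} (hN : 1 ≤ N) {ω : Vec d} (hω : ‖ω‖ ≤ 1) {v : ℤ × (Fin d → ℤ)}
    (hv : v ∈ VJ d J) :
    ‖(dsp N ω v).fst + (2 * (dsp N ω v).snd) • ω‖ ≤ 3 * d * J * N ∧ |(dsp N ω v).snd| ≤ (1 + d) * J * N ^ 2 := by
  have hN0 : 0 < N := by linarith
  have hf := fr_spec ω
  rw [mem_VJ] at hv
  obtain ⟨r, hr1, hr2⟩ := nor_smul ω
  have hr0 : r ≠ 0 := by linarith
  have hn1 : (nor ω).fst + (2 * (nor ω).snd) • ω = 0 := by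
    have e : nor ω = r⁻¹ • (WithLp.toLp 2 (-(2 : ℝ) • ω, (1 : ℝ)) : Space d) := by
      rw [hr2, smul_smul, inv_mul_cancel₀ hr0, one_smul]
    rw [e]
    show r⁻¹ • (-(2 : ℝ) • ω) + (2 * (r⁻¹ • (1 : ℝ))) • ω = 0
    rw [smul_eq_mul, mul_one]
    module
  have hfn : ∀ l, ‖fr ω l‖ = 1 := by
    intro l
    have := hf.1 l.succ
    simpa using this
  have hne : ‖nor ω‖ = 1 := norm_e hf
  set w : Space d := ∑ l, ((v.2 l : ℝ) * N) • fr ω l with hw
  have hwn : ‖w‖ ≤ d * J * N := by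
    rw [hw]
    refine (norm_sum_le _ _).trans ?_
    calc ∑ l : Fin d, ‖((v.2 l : ℝ) * N) • fr ω l‖ ≤ ∑ _l : Fin d, (J : ℝ) * N := by
          refine Finset.sum_le_sum fun l _ => ?_
          rw [norm_smul, hfn, mul_one, Real.norm_eq_abs, abs_mul, abs_of_pos hN0]
          apply mul_le_mul_of_nonneg_right _ hN0.le
          have := hv.2 l
          exact_mod_cast this
      _ = d * J * N := by
          rw [Finset.sum_const, Finset.card_univ, Fintype.card_fin, nsmul_eq_mul]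
          ring
  have hv1 : |(v.1 : ℝ)| ≤ J := by exact_mod_cast hv.1
  have e1 : (dsp N ω v).fst + (2 * (dsp N ω v).snd) • ω = w.fst + (2 * w.snd) • ω := by
    unfold dsp
    rw [WithLp.add_fst, WithLp.add_snd, WithLp.smul_fst, WithLp.smul_snd, smul_eq_mul]
    have : ((v.1 : ℝ) * N ^ 2) • (nor ω).fst + w.fst + (2 * ((v.1 : ℝ) * N ^ 2 * (nor ω).snd + w.snd)) • ω =
        ((v.1 : ℝ) * N ^ 2) • ((nor ω).fst + (2 * (nor ω).snd) • ω) + (w.fst + (2 * w.snd) • ω) := by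
      module
    rw [this, hn1, smul_zero, zero_add]
  constructor
  · rw [e1]
    refine (norm_add_le _ _).trans ?_
    rw [norm_smul, Real.norm_eq_abs, abs_mul, abs_of_pos (by norm_num : (0 : ℝ) < 2)]
    have h1 := fst_le w
    have h2 := snd_le w
    have h3 : 2 * |w.snd| * ‖ω‖ ≤ 2 * ‖w‖ * 1 := by gcongr
    linarith
  · have e2 : (dsp N ω v).snd = (v.1 : ℝ) * N ^ 2 * (nor ω).snd + w.snd := by
      unfold dsp
      rw [WithLp.add_snd, WithLp.smul_snd, smul_eq_mul]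
    rw [e2]
    have h1 := snd_le w
    have h2 := snd_le (nor ω)
    rw [hne] at h2
    have h3 : |(v.1 : ℝ) * N ^ 2 * (nor ω).snd| ≤ J * N ^ 2 := by
      rw [abs_mul, abs_mul, abs_of_pos (by positivity : 0 < N ^ 2)]
      calc |(v.1 : ℝ)| * N ^ 2 * |(nor ω).snd| ≤ J * N ^ 2 * 1 := by gcongr
        _ = _ := mul_one _
    have h4 : (d : ℝ) * J * N ≤ d * J * N ^ 2 := by
      apply mul_le_mul_of_nonneg_left _ (by positivity)
      nlinarith
    calc |(v.1 : ℝ) * N ^ 2 * (nor ω).snd + w.snd| ≤ |(v.1 : ℝ) * N ^ 2 * (nor ω).snd| + |w.snd| := abs_add_le _ _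
      _ ≤ J * N ^ 2 + d * J * N ^ 2 := by linarith
      _ = _ := by ring

end Pool.Agent.K4H66.KG
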