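import Pool.Agent.H810R3.Tub.Box

set_option autoImplicit false

/-! Definitions: the inequality of Q1, families of caps, translates which follow a map. -/

open MeasureTheory Set Filter Topology ENNReal NNReal Metric

namespace Pool.Agent.K4H66.KG

open Pool.Agent.H810R3.Tub

/-- The inequality of Q1, with the factor `D` and for all exponents `p` in `[1, ∞]`: the norm of the
sum of the indicators of the boxes with the centres `a i` is at most `D` times the norm for the centred
boxes. -/
def Ineq {d : ℕ} (N D : ℝ) {ι : Type} [Fintype ι] (ω : ι → Vec d) (f : ι → Fin d → Space d)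
    (a : ι → Space d) : Prop :=
  ∀ p : ℝ≥0∞, 1 ≤ p →
    eLpNorm (fun y : Space d => ∑ i, (box N (nor (ω i)) (f i) (a i)).indicator (fun _ => (1 : ℝ)) y) p volume
      ≤ ENNReal.ofReal D * eLpNorm (fun y : Space d => ∑ i,
          (box N (nor (ω i)) (f i) 0).indicator (fun _ => (1 : ℝ)) y) p volume

/-- The `ω i` are the centres of at least `κ N ^ d` caps of the paraboloid over the unit ball, with
mutual distances at least `σ / N`; `f i` is an orthonormal frame of the orthogonal complement of the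
normal `nor (ω i)`. -/
def Caps {d : ℕ} (σ κ N : ℝ) {ι : Type} [Fintype ι] (ω : ι → Vec d) (f : ι → Fin d → Space d) : Prop :=
  (∀ i, ‖ω i‖ ≤ 1) ∧ (∀ i j, i ≠ j → σ / N ≤ ‖ω i - ω j‖) ∧ κ * N ^ d ≤ (Fintype.card ι : ℝ) ∧
    ∀ i, Orthonormal ℝ (Fin.cons (nor (ω i)) (f i) : Fin (d + 1) → Space d)

/-- The inequality holds for ALL translates with the factor `C N ^ (β + ε)`, for every `ε > 0`. For
`β = 0` this is the statement of Q1 in dimension `n = d + 1`. -/
def LossAll (d : ℕ) (β : ℝ) : Prop :=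
  ∀ ε σ κ : ℝ, 0 < ε → 0 < σ → 0 < κ → ∃ C : ℝ, ∀ N : ℝ, 1 ≤ N → ∀ (ι : Type) [Fintype ι]
    (ω : ι → Vec d) (f : ι → Fin d → Space d) (a : ι → Space d), Caps σ κ N ω f →
      Ineq N (C * N ^ (β + ε)) ω f a

/-- The continuous maps from the closed unit ball of directions to the positions, with the uniform
metric. -/
abbrev Maps (d : ℕ) : Type := C(closedBall (0 : Vec d) 1, Vec d)

/-- The translates follow `b`: the axis of the box with the centre `a i` meets the hyperplane of height
`0` within `K N` of `N ^ 2 b (ω i)`, and the height of the centre is at most `S N ^ 2`. -/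
def Follows {d : ℕ} (b : Maps d) (K S N : ℝ) {ι : Type} (ω : ι → Vec d) (a : ι → Space d) : Prop :=
  ∀ i, ∃ h : ω i ∈ closedBall (0 : Vec d) 1,
    ‖(a i).fst + (2 * (a i).snd) • ω i - N ^ 2 • b ⟨ω i, h⟩‖ ≤ K * N ∧ |(a i).snd| ≤ S * N ^ 2

/-- The inequality holds for all translates which follow `b`, with the factor `C N ^ (β + ε)`, for
every `ε > 0`. -/
def LossOn {d : ℕ} (b : Maps d) (β : ℝ) : Prop :=
  ∀ ε σ κ K S : ℝ, 0 < ε → 0 < σ → 0 < κ → ∃ C : ℝ, ∀ N : ℝ, 1 ≤ N → ∀ (ι : Type) [Fintype ι]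
    (ω : ι → Vec d) (f : ι → Fin d → Space d) (a : ι → Space d), Caps σ κ N ω f →
      Follows b K S N ω a → Ineq N (C * N ^ (β + ε)) ω f a

end Pool.Agent.K4H66.KG
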