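import Pool.Agent.K4H66.KG.Slant

set_option autoImplicit false

/-! Filling the set of directions by sheared copies of a family. -/

open MeasureTheory Set Filter Topology ENNReal NNReal Metric
open scoped Classical

namespace Pool.Agent.K4H66.KG

open Pool.Agent.H810R3.Tub

variable {d : ℕ}

/-- the directions are separated -/
def Sep (δ : ℝ) (P : Finset (Vec d × Space d)) : Prop :=
  ∀ p ∈ P, ∀ p' ∈ P, p ≠ p' → δ ≤ ‖p.1 - p'.1‖

/-- the directions and the centres are bounded -/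
def Bd (R A : ℝ) (P : Finset (Vec d × Space d)) : Prop := ∀ p ∈ P, ‖p.1‖ ≤ R ∧ ‖p.2‖ ≤ A

/-- the sheared family -/
noncomputable def sh (τ : Vec d) (P : Finset (Vec d × Space d)) : Finset (Vec d × Space d) :=
  P.image (fun p => (p.1 + τ, G τ p.2))

theorem G_inj (τ : Vec d) {a b : Space d} (h : G τ a = G τ b) : a = b := by
  have h1 : ∀ a : Space d, G (-τ) (G τ a) = a := by
    intro a
    have := G_neg (-τ) a
    rwa [neg_neg] at this
  rw [← h1 a, h, h1 b]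

theorem SF_sh (c N : ℝ) (τ : Vec d) (P : Finset (Vec d × Space d)) (y : Space d) :
    SF c N (sh τ P) y = SF c N P (G (-τ) y) := by
  unfold SF sh
  rw [Finset.sum_image]
  · refine Finset.sum_congr rfl fun p _ => ?_
    have h1 : y ∈ sl c N (p.1 + τ) (G τ p.2) ↔ G (-τ) y ∈ sl c N p.1 p.2 := by
      have := mem_G (c := c) (N := N) (ω := p.1) (τ := τ) (a := p.2) (y := G (-τ) y)
      rwa [G_neg] at this
    by_cases h : G (-τ) y ∈ sl c N p.1 p.2
    · rw [indicator_of_mem (h1.2 h), indicator_of_mem h]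
    · rw [indicator_of_notMem (fun h' => h (h1.1 h')), indicator_of_notMem h]
  · intro p _ p' _ hpp
    simp only [Prod.mk.injEq] at hpp
    refine Prod.ext ?_ ?_
    · exact add_right_cancel hpp.1
    · exact G_inj τ hpp.2

theorem int_sh (c N q : ℝ) (τ : Vec d) (P : Finset (Vec d × Space d)) :
    ∫⁻ y, SF c N (sh τ P) y ^ q = ∫⁻ y, SF c N P y ^ q := by
  have h := lint_G (-τ) (g := fun y => SF c N P y ^ q) ((SF_meas c N P).pow_const _)
  rw [← h]
  exact lintegral_congr fun y => by rw [SF_sh]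

theorem norm_G (τ : Vec d) (a : Space d) : ‖G τ a‖ ≤ (1 + 2 * ‖τ‖) * ‖a‖ := by
  have e : G τ a = a + WithLp.toLp 2 (-((2 * a.snd) • τ), (0 : ℝ)) := by
    apply WithLp.ofLp_injective
    refine Prod.ext ?_ ?_
    · show a.fst - (2 * a.snd) • τ = a.fst + -((2 * a.snd) • τ)
      rw [sub_eq_add_neg]
    · show a.snd = a.snd + 0
      rw [add_zero]
  have h1 : ‖(WithLp.toLp 2 (-((2 * a.snd) • τ), (0 : ℝ)) : Space d)‖ = 2 * |a.snd| * ‖τ‖ := by
    have h2 := norm_space_sq (WithLp.toLp 2 (-((2 * a.snd) • τ), (0 : ℝ)) : Space d)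
    have h3 : ‖(WithLp.toLp 2 (-((2 * a.snd) • τ), (0 : ℝ)) : Space d)‖ ^ 2 = (2 * |a.snd| * ‖τ‖) ^ 2 := by
      rw [h2]
      show ‖-((2 * a.snd) • τ)‖ ^ 2 + (0 : ℝ) ^ 2 = _
      rw [norm_neg, norm_smul, Real.norm_eq_abs, abs_mul, abs_of_pos (by norm_num : (0 : ℝ) < 2)]
      ring
    exact (sq_eq_sq₀ (norm_nonneg _) (by positivity)).1 h3
  have h4 : |a.snd| ≤ ‖a‖ := by
    apply le_of_sq_le_sq _ (norm_nonneg _)
    rw [norm_space_sq a, sq_abs]
    nlinarith [sq_nonneg ‖a.fst‖]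
  calc ‖G τ a‖ = ‖a + WithLp.toLp 2 (-((2 * a.snd) • τ), (0 : ℝ))‖ := by rw [e]
    _ ≤ ‖a‖ + 2 * |a.snd| * ‖τ‖ := by rw [← h1]; exact norm_add_le _ _
    _ ≤ (1 + 2 * ‖τ‖) * ‖a‖ := by nlinarith [norm_nonneg τ, mul_le_mul_of_nonneg_right h4 (norm_nonneg τ)]

/-- One step of the filling. -/
theorem step {q δ c N R A R1 R2 A1 : ℝ} (hq : 1 ≤ q) (hδ : 0 < δ) (hA : 0 ≤ A1)
    (P U : Finset (Vec d × Space d)) (hP : Sep δ P) (hPb : Bd R1 A1 P)
    (B : Finset (Vec d)) (hB : B.Nonempty) (hBb : ∀ τ ∈ B, ‖τ‖ ≤ R2) (hR : R1 + R2 ≤ R)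
    (hAA : (1 + 2 * R2) * A1 ≤ A) (C1 : ℕ)
    (hC1 : ∀ x : Vec d, (B.filter (fun τ => ‖τ - x‖ < δ)).card ≤ C1)
    (hU : Sep δ U) (hUb : Bd R A U) (hk : 2 * (C1 * U.card) ≤ B.card) :
    ∃ V : Finset (Vec d × Space d), Sep δ V ∧ Bd R A V ∧ V.card ≤ U.card + P.card ∧
      2 ^ q * (∫⁻ y, SF c N U y ^ q) + (∫⁻ y, SF c N P y ^ q) ≤ 2 ^ q * ∫⁻ y, SF c N V y ^ q := by
  have hq0 : 0 < q := by linarith
  set Q : Vec d → Finset (Vec d × Space d) := fun τ => P.filter (fun p => ∀ u ∈ U, δ ≤ ‖p.1 + τ - u.1‖) with hQ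
  set nB : ℝ≥0∞ := (B.card : ℝ≥0∞) with hnB
  have hnB0 : nB ≠ 0 := by
    rw [hnB, Nat.cast_ne_zero]
    exact hB.card_pos.ne'
  have hnBt : nB ≠ ∞ := ENNReal.natCast_ne_top _
  -- counting
  have hcount : ∀ p ∈ P, B.card ≤ 2 * (B.filter (fun τ => ∀ u ∈ U, δ ≤ ‖p.1 + τ - u.1‖)).card := by
    intro p _
    have h1 : (B.filter (fun τ => ¬ ∀ u ∈ U, δ ≤ ‖p.1 + τ - u.1‖)).card ≤ C1 * U.card := by
      have h2 : B.filter (fun τ => ¬ ∀ u ∈ U, δ ≤ ‖p.1 + τ - u.1‖) ⊆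
          U.biUnion (fun u => B.filter (fun τ => ‖τ - (u.1 - p.1)‖ < δ)) := by
        intro τ hτ
        rw [Finset.mem_filter] at hτ
        obtain ⟨hτB, h3⟩ := hτ
        push Not at h3
        obtain ⟨u, hu, h4⟩ := h3
        rw [Finset.mem_biUnion]
        refine ⟨u, hu, ?_⟩
        rw [Finset.mem_filter]
        refine ⟨hτB, ?_⟩
        have e : τ - (u.1 - p.1) = p.1 + τ - u.1 := by abel
        rwa [e]
      refine (Finset.card_le_card h2).trans ?_
      refine (Finset.card_biUnion_le).trans ?_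
      calc ∑ u ∈ U, (B.filter (fun τ => ‖τ - (u.1 - p.1)‖ < δ)).card ≤ ∑ _u ∈ U, C1 :=
            Finset.sum_le_sum fun u _ => hC1 _
        _ = C1 * U.card := by rw [Finset.sum_const, smul_eq_mul, mul_comm]
    have h5 := Finset.card_filter_add_card_filter_not (s := B) (fun τ => ∀ u ∈ U, δ ≤ ‖p.1 + τ - u.1‖)
    omega
  -- pointwise
  have hpt : ∀ y, nB * SF c N P y ≤ 2 * ∑ τ ∈ B, SF c N (Q τ) y := by
    intro y
    have h1 : ∑ τ ∈ B, SF c N (Q τ) y = ∑ p ∈ P,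
        ((B.filter (fun τ => ∀ u ∈ U, δ ≤ ‖p.1 + τ - u.1‖)).card : ℝ≥0∞) *
          (sl c N p.1 p.2).indicator (fun _ => (1 : ℝ≥0∞)) y := by
      unfold SF
      simp only [hQ, Finset.sum_filter]
      rw [Finset.sum_comm]
      refine Finset.sum_congr rfl fun p _ => ?_
      rw [← Finset.sum_filter, Finset.sum_const, nsmul_eq_mul]
    rw [h1, Finset.mul_sum]
    unfold SF
    rw [Finset.mul_sum]
    refine Finset.sum_le_sum fun p hp => ?_
    rw [← mul_assoc]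
    refine mul_le_mul' ?_ le_rfl
    have := hcount p hp
    rw [hnB]
    exact_mod_cast this
  have hpt2 : ∀ y, nB * SF c N P y ^ q ≤ 2 ^ q * ∑ τ ∈ B, SF c N (Q τ) y ^ q := by
    intro y
    have h1 := ENNReal.rpow_le_rpow (hpt y) hq0.le
    rw [ENNReal.mul_rpow_of_nonneg _ _ hq0.le, ENNReal.mul_rpow_of_nonneg _ _ hq0.le] at h1
    have h2 := ENNReal.rpow_sum_le_const_mul_sum_rpow B (fun τ => SF c N (Q τ) y) hq
    have h3 : nB ^ q * SF c N P y ^ q ≤ nB ^ (q - 1) * (2 ^ q * ∑ τ ∈ B, SF c N (Q τ) y ^ q) := by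
      calc nB ^ q * SF c N P y ^ q ≤ 2 ^ q * (∑ τ ∈ B, SF c N (Q τ) y) ^ q := h1
        _ ≤ 2 ^ q * (nB ^ (q - 1) * ∑ τ ∈ B, SF c N (Q τ) y ^ q) := mul_le_mul' le_rfl h2
        _ = _ := by ring
    have h4 : nB ^ q = nB ^ (q - 1) * nB := by
      conv_lhs => rw [show q = (q - 1) + 1 by ring]
      rw [ENNReal.rpow_add _ _ hnB0 hnBt, ENNReal.rpow_one]
    rw [h4, mul_assoc] at h3
    have h5 : nB ^ (q - 1) ≠ 0 := by
      intro h
      rcases ENNReal.rpow_eq_zero_iff.1 h with h | h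
      · exact hnB0 h.1
      · exact hnBt h.1
    have h6 : nB ^ (q - 1) ≠ ∞ := ENNReal.rpow_ne_top_of_nonneg (by linarith) hnBt
    exact (ENNReal.mul_le_mul_iff_right h5 h6).1 h3
  have hsum : ∑ τ ∈ B, ∫⁻ y, SF c N P y ^ q ≤ ∑ τ ∈ B, 2 ^ q * ∫⁻ y, SF c N (Q τ) y ^ q := by
    rw [Finset.sum_const, nsmul_eq_mul, ← lintegral_const_mul' _ _ hnBt]
    have h2t : (2 : ℝ≥0∞) ^ q ≠ ∞ := ENNReal.rpow_ne_top_of_nonneg hq0.le (by norm_num)
    rw [← Finset.mul_sum, ← lintegral_finsetSum _ (fun τ _ => (SF_meas c N (Q τ)).pow_const _),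
      ← lintegral_const_mul' _ _ h2t]
    exact lintegral_mono fun y => hpt2 y
  obtain ⟨τ, hτ, hτ2⟩ := ENNReal.exists_le_of_sum_le hB hsum
  have hdisj : Disjoint U (sh τ (Q τ)) := by
    rw [Finset.disjoint_left]
    intro u hu hu'
    unfold sh at hu'
    rw [Finset.mem_image] at hu'
    obtain ⟨p, hp, he⟩ := hu'
    rw [hQ] at hp
    simp only [Finset.mem_filter] at hp
    have h1 := hp.2 u hu
    have h2 : p.1 + τ = u.1 := by rw [← he]
    rw [h2, sub_self, norm_zero] at h1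
    linarith
  refine ⟨U ∪ sh τ (Q τ), ?_, ?_, ?_, ?_⟩
  · intro p hp p' hp' hne
    rw [Finset.mem_union] at hp hp'
    rcases hp with hp | hp <;> rcases hp' with hp' | hp'
    · exact hU p hp p' hp' hne
    · unfold sh at hp'
      rw [Finset.mem_image] at hp'
      obtain ⟨r, hr, he⟩ := hp'
      simp only [hQ, Finset.mem_filter] at hr
      have h1 := hr.2 p hp
      rw [← he, norm_sub_rev]
      exact h1
    · unfold sh at hp
      rw [Finset.mem_image] at hp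
      obtain ⟨r, hr, he⟩ := hp
      simp only [hQ, Finset.mem_filter] at hr
      have h1 := hr.2 p' hp'
      rw [← he]
      exact h1
    · unfold sh at hp hp'
      rw [Finset.mem_image] at hp hp'
      obtain ⟨r, hr, he⟩ := hp
      obtain ⟨r', hr', he'⟩ := hp'
      simp only [hQ, Finset.mem_filter] at hr hr'
      have hrr : r ≠ r' := by
        intro h
        apply hne
        rw [← he, ← he', h]
      have h1 := hP r hr.1 r' hr'.1 hrr
      rw [← he, ← he']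
      have e : r.1 + τ - (r'.1 + τ) = r.1 - r'.1 := by abel
      show δ ≤ ‖r.1 + τ - (r'.1 + τ)‖
      rw [e]
      exact h1
  · intro p hp
    rw [Finset.mem_union] at hp
    rcases hp with hp | hp
    · exact hUb p hp
    · unfold sh at hp
      rw [Finset.mem_image] at hp
      obtain ⟨r, hr, he⟩ := hp
      simp only [hQ, Finset.mem_filter] at hr
      have h1 := hPb r hr.1
      have h2 := hBb τ hτ
      rw [← he]
      constructor
      · exact (norm_add_le _ _).trans (by linarith [h1.1])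
      · refine (norm_G τ r.2).trans (le_trans ?_ hAA)
        apply mul_le_mul (by linarith) h1.2 (norm_nonneg _)
        have := norm_nonneg τ
        linarith
  · refine (Finset.card_union_le _ _).trans ?_
    refine Nat.add_le_add_left ?_ _
    unfold sh
    exact Finset.card_image_le.trans (Finset.card_filter_le _ _)
  · have h1 : ∀ y, SF c N (U ∪ sh τ (Q τ)) y = SF c N U y + SF c N (sh τ (Q τ)) y := by
      intro y
      unfold SF
      exact Finset.sum_union hdisj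
    have h2 : (∫⁻ y, SF c N U y ^ q) + (∫⁻ y, SF c N (sh τ (Q τ)) y ^ q) ≤
        ∫⁻ y, SF c N (U ∪ sh τ (Q τ)) y ^ q := by
      rw [← lintegral_add_left ((SF_meas c N U).pow_const _)]
      refine lintegral_mono fun y => ?_
      simp only
      rw [h1 y]
      exact ENNReal.add_rpow_le_rpow_add _ _ hq
    rw [int_sh] at h2
    calc 2 ^ q * (∫⁻ y, SF c N U y ^ q) + (∫⁻ y, SF c N P y ^ q)
        ≤ 2 ^ q * (∫⁻ y, SF c N U y ^ q) + 2 ^ q * (∫⁻ y, SF c N (Q τ) y ^ q) := by gcongr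
      _ = 2 ^ q * ((∫⁻ y, SF c N U y ^ q) + (∫⁻ y, SF c N (Q τ) y ^ q)) := by rw [mul_add]
      _ ≤ _ := by gcongr

/-- The filling. -/
theorem fill {q δ c N R A R1 R2 A1 : ℝ} (hq : 1 ≤ q) (hδ : 0 < δ) (hA : 0 ≤ A1)
    (P : Finset (Vec d × Space d)) (hP : Sep δ P) (hPb : Bd R1 A1 P)
    (B : Finset (Vec d)) (hB : B.Nonempty) (hBb : ∀ τ ∈ B, ‖τ‖ ≤ R2) (hR : R1 + R2 ≤ R)
    (hAA : (1 + 2 * R2) * A1 ≤ A) (C1 : ℕ)
    (hC1 : ∀ x : Vec d, (B.filter (fun τ => ‖τ - x‖ < δ)).card ≤ C1) :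
    ∀ k : ℕ, 2 * (C1 * (k * P.card)) ≤ B.card + 2 * (C1 * P.card) →
      ∃ U : Finset (Vec d × Space d), Sep δ U ∧ Bd R A U ∧ U.card ≤ k * P.card ∧
        k * ∫⁻ y, SF c N P y ^ q ≤ 2 ^ q * ∫⁻ y, SF c N U y ^ q := by
  intro k
  induction k with
  | zero =>
    intro _
    refine ⟨∅, ?_, ?_, ?_, ?_⟩
    · intro p hp
      simp at hp
    · intro p hp
      simp at hp
    · simp
    · simp
  | succ k ih =>
    intro hk
    obtain ⟨U, hU, hUb, hUc, hUi⟩ := ih (by nlinarith)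
    have hk2 : 2 * (C1 * U.card) ≤ B.card := by
      have h1 : C1 * U.card ≤ C1 * (k * P.card) := Nat.mul_le_mul_left _ hUc
      have h2 : 2 * (C1 * ((k + 1) * P.card)) = 2 * (C1 * (k * P.card)) + 2 * (C1 * P.card) := by ring
      omega
    obtain ⟨V, hV, hVb, hVc, hVi⟩ := step (N := N) (c := c) hq hδ hA P U hP hPb B hB hBb hR hAA C1 hC1 hU hUb hk2
    refine ⟨V, hV, hVb, ?_, ?_⟩
    · calc V.card ≤ U.card + P.card := hVc
        _ ≤ k * P.card + P.card := Nat.add_le_add_right hUc _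
        _ = (k + 1) * P.card := by ring
    · refine le_trans ?_ hVi
      push_cast
      rw [add_mul, one_mul]
      gcongr

end Pool.Agent.K4H66.KG
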