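import Pool.Agent.K4H66.KG.Bad
import Pool.Agent.K4H66.KG.Cen

set_option autoImplicit false

/-! Bad families which follow a given continuous map, up to a small perturbation. -/

open MeasureTheory Set Filter Topology ENNReal NNReal Metric
open scoped Classical

namespace Pool.Agent.K4H66.KG

open Pool.Agent.H810R3.Tub

variable {d : ℕ}

/-- a bump -/
noncomputable def bump (s : ℝ) (c x : Vec d) : ℝ := max 0 (1 - ‖x - c‖ / s)

theorem bump_cont (s : ℝ) (c : Vec d) : Continuous (bump s c) := by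
  unfold bump
  fun_prop

theorem bump_le {s : ℝ} (hs : 0 < s) (c x : Vec d) : |bump s c x| ≤ 1 := by
  unfold bump
  rw [abs_of_nonneg (le_max_left _ _)]
  refine max_le zero_le_one ?_
  have : 0 ≤ ‖x - c‖ / s := by positivity
  linarith

theorem bump_self (s : ℝ) (c : Vec d) : bump s c c = 1 := by
  unfold bump
  simp

theorem bump_far {s : ℝ} (hs : 0 < s) {c x : Vec d} (h : s ≤ ‖x - c‖) : bump s c x = 0 := by
  unfold bump
  apply max_eq_left
  have : 1 ≤ ‖x - c‖ / s := by rwa [le_div_iff₀ hs, one_mul]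
  linarith

/-- Interpolation at separated points by a small continuous map. -/
theorem pert {s η : ℝ} (hs : 0 < s) (hη : 0 ≤ η) (P : Finset (Vec d × Space d)) (hP : Sep (2 * s) P)
    (w : Vec d × Space d → Vec d) (hw : ∀ p ∈ P, ‖w p‖ ≤ η) :
    ∃ g : Vec d → Vec d, Continuous g ∧ (∀ x, ‖g x‖ ≤ η) ∧ ∀ p ∈ P, g p.1 = w p := by
  have key : ∀ x, ∀ p ∈ P, ‖x - p.1‖ < s → ∑ p' ∈ P, bump s p'.1 x • w p' = bump s p.1 x • w p := by
    intro x p hp hx
    rw [Finset.sum_eq_single_of_mem p hp]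
    intro p' hp' hne
    have h1 := hP p' hp' p hp hne
    have h2 : ‖p'.1 - p.1‖ ≤ ‖x - p.1‖ + ‖x - p'.1‖ := by
      have e : p'.1 - p.1 = (x - p.1) + -(x - p'.1) := by abel
      rw [e, ← norm_neg (x - p'.1)]
      exact norm_add_le _ _
    rw [bump_far hs (by linarith), zero_smul]
  refine ⟨fun x => ∑ p ∈ P, bump s p.1 x • w p, ?_, ?_, ?_⟩
  · apply continuous_finsetSum
    intro p _
    exact (bump_cont s p.1).smul continuous_const
  · intro x
    by_cases h : ∃ p ∈ P, ‖x - p.1‖ < s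
    · obtain ⟨p, hp, hx⟩ := h
      show ‖∑ p ∈ P, bump s p.1 x • w p‖ ≤ η
      rw [key x p hp hx, norm_smul, Real.norm_eq_abs]
      calc |bump s p.1 x| * ‖w p‖ ≤ 1 * η :=
            mul_le_mul (bump_le hs _ _) (hw p hp) (norm_nonneg _) zero_le_one
        _ = η := one_mul η
    · push Not at h
      show ‖∑ p ∈ P, bump s p.1 x • w p‖ ≤ η
      rw [Finset.sum_eq_zero (fun p hp => by rw [bump_far hs (h p hp), zero_smul]), norm_zero]
      exact hη
  · intro p hp
    show ∑ p' ∈ P, bump s p'.1 p.1 • w p' = w p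
    rw [key p.1 p hp (by rw [sub_self, norm_zero]; exact hs), bump_self, one_smul]

/-- the first basis vector, halved -/
noncomputable def hv (d : ℕ) (hd : 1 ≤ d) : Vec d := EuclideanSpace.single (⟨0, hd⟩ : Fin d) (1 / 2 : ℝ)

theorem hv_norm (hd : 1 ≤ d) : ‖hv d hd‖ = 1 / 2 := by
  unfold hv
  rw [PiLp.norm_single]
  norm_num

theorem le_norm_hv (hd : 1 ≤ d) {L : ℕ} {s : ℝ} (hs : 0 ≤ s) (k : Fin d → Fin L) :
    1 / 2 ≤ ‖hv d hd + gp s k‖ := by
  have h1 := PiLp.norm_apply_le (p := 2) (hv d hd + gp s k) (⟨0, hd⟩ : Fin d)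
  refine le_trans ?_ h1
  have e : (hv d hd + gp s k) (⟨0, hd⟩ : Fin d) = 1 / 2 + s * ((k ⟨0, hd⟩ : ℕ) : ℝ) := by
    show (hv d hd) (⟨0, hd⟩ : Fin d) + s * ((k ⟨0, hd⟩ : ℕ) : ℝ) = _
    unfold hv
    simp
  rw [e, Real.norm_of_nonneg (by positivity)]
  have : 0 ≤ s * ((k ⟨0, hd⟩ : ℕ) : ℝ) := by positivity
  linarith

/-- The violation of the inequality, with the factor `m N ^ (β + ε)`, by translates which follow `b`. -/
def Viol (b : Maps d) (σ K S β ε m : ℝ) : Prop :=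
  ∃ N : ℝ, 1 ≤ N ∧ ∃ (ι : Type) (_ : Fintype ι) (ω : ι → Vec d) (f : ι → Fin d → Space d)
    (a : ι → Space d), Caps σ 1 N ω f ∧ Follows b K S N ω a ∧ ¬ Ineq N (m * N ^ (β + ε)) ω f a

/-- **Bad families near every continuous map.** -/
theorem full (hd : 1 ≤ d) {β : ℝ} (hβ : 0 ≤ β) (hneg : ¬ LossAll d β) :
    ∃ ε σ K S : ℝ, 0 < ε ∧ 0 < σ ∧ ∀ m : ℝ, 0 < m → ∀ (b₀ : Maps d) (η : ℝ), 0 < η →
      ∃ b₁ : Maps d, dist b₁ b₀ < η ∧ ∃ r : ℝ, 0 < r ∧ ∀ b : Maps d, dist b b₁ < r →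
        Viol b σ K S β ε m := by
  obtain ⟨ε, σ, A, hε, hσ, hσ1, hA, hbad⟩ := bad hd hβ hneg
  have hd0 : (0 : ℝ) < d := by exact_mod_cast hd
  have hd1 : (1 : ℝ) ≤ d := by exact_mod_cast hd
  set q : ℝ := 1 + 1 / (d : ℝ) with hq
  have hq1 : 1 ≤ q := by
    have : 0 < 1 / (d : ℝ) := by positivity
    linarith
  set c : ℝ := 2 * d + 1 with hc
  have hc0 : 0 < c := by positivity
  set J : ℕ := ⌈4 * c + 1⌉₊ with hJ
  have hJc : 4 * c + 1 ≤ J := Nat.le_ceil _
  set σ' : ℝ := min σ (1 / (8 * d)) with hσ'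
  have hσ'0 : 0 < σ' := lt_min hσ (by positivity)
  have hσ'1 : σ' ≤ 1 := (min_le_left _ _).trans hσ1
  have hσ'2 : σ' ≤ 1 / (8 * d) := min_le_right _ _
  refine ⟨ε / 2, σ', 3 * d * J + 1, A + (1 + d) * J, by positivity, hσ'0, ?_⟩
  intro m hm b₀ η hη
  obtain ⟨E, hE0, hE⟩ := crit d hd σ' β ε (ε / 2) hβ (by positivity) (by linarith) hσ'0 hσ'1 m hm
  set n : ℝ := ((VJ d J).card : ℝ) with hn
  have hn0 : 0 < n := by
    have := (VJ_ne d J).card_pos
    rw [hn]
    exact_mod_cast this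
  have hnq : 0 < n ^ q := Real.rpow_pos_of_pos hn0 _
  -- the size of the cap
  have h0mem : (0 : Vec d) ∈ closedBall (0 : Vec d) 1 := by
    rw [mem_closedBall, dist_self]
    exact zero_le_one
  obtain ⟨ρ₁, hρ₁, hcont⟩ := Metric.continuousAt_iff.1 (b₀.continuous.continuousAt (x := ⟨0, h0mem⟩))
    (η / 4) (by positivity)
  set ρ : ℝ := min 1 (min (1 / (4 * A)) (min (η / (4 * A)) (ρ₁ / (2 * A)))) with hρ
  have hρ0 : 0 < ρ := lt_min one_pos (lt_min (by positivity) (lt_min (by positivity) (by positivity)))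
  have hr1 : ρ ≤ 1 := min_le_left _ _
  have hr2 : A * ρ ≤ 1 / 4 := by
    have h1 : ρ ≤ 1 / (4 * A) := (min_le_right _ _).trans (min_le_left _ _)
    calc A * ρ ≤ A * (1 / (4 * A)) := by gcongr
      _ = 1 / 4 := by field_simp
  have hr3 : A * ρ ≤ η / 4 := by
    have h1 : ρ ≤ η / (4 * A) := (min_le_right _ _).trans ((min_le_right _ _).trans (min_le_left _ _))
    calc A * ρ ≤ A * (η / (4 * A)) := by gcongr
      _ = η / 4 := by field_simp
  have hr4 : A * ρ < ρ₁ := by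
    have h1 : ρ ≤ ρ₁ / (2 * A) := (min_le_right _ _).trans ((min_le_right _ _).trans (min_le_right _ _))
    calc A * ρ ≤ A * (ρ₁ / (2 * A)) := by gcongr
      _ = ρ₁ / 2 := by field_simp
      _ < ρ₁ := by linarith
  obtain ⟨M, hM, P, hsep, hP, hint⟩ := hbad (n ^ q * E + 1) ρ (by positivity) hρ0 hr1 (b₀ ⟨0, h0mem⟩)
  have hM0 : 0 < M := by linarith
  have hP1 : ∀ p ∈ P, p.1 ∈ closedBall (0 : Vec d) 1 := by
    intro p hp
    rw [mem_closedBall, dist_zero_right]
    exact (hP p hp).1.trans (by linarith)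
  -- the perturbed map
  set w : Vec d × Space d → Vec d := fun p =>
    if h : p.1 ∈ closedBall (0 : Vec d) 1 then (M ^ 2)⁻¹ • (p.2.fst + (2 * p.2.snd) • p.1) - b₀ ⟨p.1, h⟩ else 0
    with hw
  have hwle : ∀ p ∈ P, ‖w p‖ ≤ η / 2 := by
    intro p hp
    obtain ⟨h1, h2, h3⟩ := hP p hp
    rw [hw]
    simp only
    rw [dif_pos (hP1 p hp)]
    have e : (M ^ 2)⁻¹ • (p.2.fst + (2 * p.2.snd) • p.1) - b₀ ⟨p.1, hP1 p hp⟩ =
        (M ^ 2)⁻¹ • (p.2.fst + (2 * p.2.snd) • p.1 - M ^ 2 • b₀ ⟨0, h0mem⟩) +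
          (b₀ ⟨0, h0mem⟩ - b₀ ⟨p.1, hP1 p hp⟩) := by
      rw [smul_sub, smul_smul, inv_mul_cancel₀ (by positivity), one_smul]
      abel
    rw [e]
    have h4 : ‖b₀ ⟨0, h0mem⟩ - b₀ ⟨p.1, hP1 p hp⟩‖ ≤ η / 4 := by
      have h5 : dist (b₀ ⟨p.1, hP1 p hp⟩) (b₀ ⟨0, h0mem⟩) < η / 4 := by
        apply hcont
        rw [Subtype.dist_eq, dist_zero_right]
        exact lt_of_le_of_lt h1 hr4
      rw [dist_comm, dist_eq_norm] at h5
      exact h5.le
    refine (norm_add_le _ _).trans ?_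
    have h6 : ‖(M ^ 2)⁻¹ • (p.2.fst + (2 * p.2.snd) • p.1 - M ^ 2 • b₀ ⟨0, h0mem⟩)‖ ≤ η / 4 := by
      rw [norm_smul, norm_inv, Real.norm_of_nonneg (by positivity)]
      calc (M ^ 2)⁻¹ * ‖p.2.fst + (2 * p.2.snd) • p.1 - M ^ 2 • b₀ ⟨0, h0mem⟩‖
          ≤ (M ^ 2)⁻¹ * (A * ρ * M ^ 2) := by gcongr
        _ = A * ρ := by field_simp
        _ ≤ η / 4 := hr3
    linarith
  obtain ⟨g, hg1, hg2, hg3⟩ := pert (s := σ / M / 2) (by positivity) (by positivity : 0 ≤ η / 2) P (by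
    have e : 2 * (σ / M / 2) = σ / M := by ring
    rw [e]
    exact hsep) w hwle
  set b₁ : Maps d := b₀ + ⟨fun x => g x.1, hg1.comp continuous_subtype_val⟩ with hb₁
  have hb₁v : ∀ x, b₁ x = b₀ x + g x.1 := fun x => rfl
  refine ⟨b₁, ?_, 1 / M, by positivity, ?_⟩
  · refine lt_of_le_of_lt ((ContinuousMap.dist_le (by positivity : 0 ≤ η / 2)).2 fun x => ?_) (by linarith)
    rw [hb₁v, dist_eq_norm, add_sub_cancel_left]
    exact hg2 _
  intro b hb
  -- the displacement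
  obtain ⟨v, hv1, hv2⟩ := exists_disp (c := c) (N := M) (q := q) (J := J) hq1 hM hc0.le hJc P
    (fun p hp => (hP p hp).1.trans (by linarith))
  set L : ℕ := ⌈M⌉₊ with hL
  have hML : M ≤ L := Nat.le_ceil M
  have hL2 : (L : ℝ) ≤ 2 * M := by
    have := Nat.ceil_lt_add_one hM0.le
    linarith
  have hL0 : (0 : ℝ) < L := lt_of_lt_of_le hM0 hML
  set s : ℝ := 1 / (4 * d * L) with hs
  have hs0 : 0 < s := by positivity
  have hs1 : s * (d * L) = 1 / 4 := by
    rw [hs]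
    field_simp
  have hs2 : 1 / (8 * d) / M ≤ s := by
    rw [hs, div_div, div_le_div_iff₀ (by positivity) (by positivity)]
    nlinarith
  set ι : Type := ↥P ⊕ (Fin d → Fin L) with hι
  set ω : ι → Vec d := Sum.elim (fun p => p.1.1) (fun k => hv d hd + gp s k) with hω
  have hx : ∀ k : Fin d → Fin L, ‖hv d hd + gp s k‖ ≤ 3 / 4 := by
    intro k
    have h1 := gp_norm hs0.le k
    rw [hs1] at h1
    refine (norm_add_le _ _).trans ?_
    rw [hv_norm]
    linarith
  have hωm : ∀ i, ω i ∈ closedBall (0 : Vec d) 1 := by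
    intro i
    rcases i with p | k
    · exact hP1 p.1 p.2
    · rw [mem_closedBall, dist_zero_right]
      exact (hx k).trans (by norm_num)
  set a : ι → Space d := Sum.elim (fun p => p.1.2 + dsp M p.1.1 v)
    (fun k => WithLp.toLp 2 (if h : hv d hd + gp s k ∈ closedBall (0 : Vec d) 1 then
      M ^ 2 • b₁ ⟨hv d hd + gp s k, h⟩ else 0, (0 : ℝ))) with ha
  have hcaps : Caps σ' 1 M ω (fun i => fr (ω i)) := by
    refine ⟨fun i => ?_, ?_, ?_, fun i => fr_spec _⟩
    · have := hωm i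
      rwa [mem_closedBall, dist_zero_right] at this
    · have hfar : ∀ (p : ↥P) (k : Fin d → Fin L), σ' / M ≤ ‖p.1.1 - (hv d hd + gp s k)‖ := by
        intro p k
        have h1 := le_norm_hv hd hs0.le k
        have h2 : ‖p.1.1‖ ≤ 1 / 4 := (hP p.1 p.2).1.trans hr2
        have h3 := norm_sub_norm_le (hv d hd + gp s k) p.1.1
        rw [norm_sub_rev] at h3
        have h4 : σ' / M ≤ 1 / 4 := by
          rw [div_le_iff₀ hM0]
          have h5 : 1 / (8 * (d : ℝ)) ≤ 1 / 4 := by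
            apply div_le_div_of_nonneg_left (by norm_num) (by norm_num)
            linarith
          nlinarith
        linarith
      intro i j hij
      rcases i with p | k <;> rcases j with p' | k'
      · have h1 : p.1 ≠ p'.1 := fun h => hij (by rw [Subtype.ext h])
        refine le_trans ?_ (hsep p.1 p.2 p'.1 p'.2 h1)
        gcongr
        exact min_le_left _ _
      · exact hfar p k'
      · show σ' / M ≤ ‖(hv d hd + gp s k) - p'.1.1‖
        rw [norm_sub_rev]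
        exact hfar p' k
      · have h1 : k ≠ k' := fun h => hij (by rw [h])
        show σ' / M ≤ ‖(hv d hd + gp s k) - (hv d hd + gp s k')‖
        rw [add_sub_add_left_eq_sub]
        refine le_trans ?_ (gp_sep hs0.le h1)
        refine le_trans ?_ hs2
        gcongr
    · rw [one_mul]
      have h1 : Fintype.card ι = P.card + L ^ d := by
        show Fintype.card (↥P ⊕ (Fin d → Fin L)) = _
        rw [Fintype.card_sum, Fintype.card_coe, Fintype.card_fun, Fintype.card_fin, Fintype.card_fin]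
      rw [h1]
      push_cast
      have h2 : M ^ d ≤ (L : ℝ) ^ d := by gcongr
      have h3 : (0 : ℝ) ≤ P.card := Nat.cast_nonneg _
      linarith
  have hbb : ∀ x, ‖M ^ 2 • b₁ x - M ^ 2 • b x‖ ≤ M := by
    intro x
    have h1 : dist (b x) (b₁ x) ≤ dist b b₁ := ContinuousMap.dist_apply_le_dist x
    rw [dist_comm, dist_eq_norm] at h1
    rw [← smul_sub, norm_smul, Real.norm_of_nonneg (by positivity)]
    calc M ^ 2 * ‖b₁ x - b x‖ ≤ M ^ 2 * (1 / M) := by
          gcongr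
          exact h1.trans hb.le
      _ = M := by field_simp
  refine ⟨M, hM, ι, inferInstance, ω, fun i => fr (ω i), a, hcaps, ?_, ?_⟩
  · intro i
    refine ⟨hωm i, ?_, ?_⟩
    · have hgoal : ‖(a i).fst + (2 * (a i).snd) • ω i - M ^ 2 • b₁ ⟨ω i, hωm i⟩‖ ≤ 3 * d * J * M := by
        rcases i with p | k
        · have h1 : b₁ ⟨p.1.1, hP1 p.1 p.2⟩ = (M ^ 2)⁻¹ • (p.1.2.fst + (2 * p.1.2.snd) • p.1.1) := by
            rw [hb₁v]
            show b₀ ⟨p.1.1, hP1 p.1 p.2⟩ + g p.1.1 = _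
            rw [hg3 p.1 p.2, hw]
            simp only
            rw [dif_pos (hP1 p.1 p.2)]
            abel
          have h2 : M ^ 2 • b₁ ⟨p.1.1, hP1 p.1 p.2⟩ = p.1.2.fst + (2 * p.1.2.snd) • p.1.1 := by
            rw [h1, smul_smul, mul_inv_cancel₀ (by positivity), one_smul]
          have h3 := (dsp_axis (d := d) hM (ω := p.1.1) ((hP p.1 p.2).1.trans (by linarith)) hv1).1
          show ‖(p.1.2 + dsp M p.1.1 v).fst + (2 * (p.1.2 + dsp M p.1.1 v).snd) • p.1.1 -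
            M ^ 2 • b₁ ⟨p.1.1, hP1 p.1 p.2⟩‖ ≤ _
          rw [h2, WithLp.add_fst, WithLp.add_snd]
          refine le_trans (le_of_eq ?_) h3
          congr 1
          module
        · have hk : hv d hd + gp s k ∈ closedBall (0 : Vec d) 1 := hωm (Sum.inr k)
          show ‖(if h : hv d hd + gp s k ∈ closedBall (0 : Vec d) 1 then
              M ^ 2 • b₁ ⟨hv d hd + gp s k, h⟩ else 0) + (2 * (0 : ℝ)) • (hv d hd + gp s k) -
              M ^ 2 • b₁ ⟨hv d hd + gp s k, hk⟩‖ ≤ _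
          rw [dif_pos hk, mul_zero, zero_smul, add_zero, sub_self, norm_zero]
          positivity
      have e : (a i).fst + (2 * (a i).snd) • ω i - M ^ 2 • b ⟨ω i, hωm i⟩ =
          ((a i).fst + (2 * (a i).snd) • ω i - M ^ 2 • b₁ ⟨ω i, hωm i⟩) +
            (M ^ 2 • b₁ ⟨ω i, hωm i⟩ - M ^ 2 • b ⟨ω i, hωm i⟩) := by abel
      rw [e]
      refine (norm_add_le _ _).trans ?_
      have := hbb ⟨ω i, hωm i⟩
      nlinarith
    · rcases i with p | k
      · show |(p.1.2 + dsp M p.1.1 v).snd| ≤ _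
        rw [WithLp.add_snd]
        refine (abs_add_le _ _).trans ?_
        have h3 := (dsp_axis (d := d) hM (ω := p.1.1) ((hP p.1 p.2).1.trans (by linarith)) hv1).2
        have h4 := (hP p.1 p.2).2.2
        calc |p.1.2.snd| + |(dsp M p.1.1 v).snd| ≤ A * M ^ 2 + (1 + d) * J * M ^ 2 := add_le_add h4 h3
          _ = _ := by ring
      · show |(0 : ℝ)| ≤ _
        rw [abs_zero]
        positivity
  · intro hI
    have hne : Nonempty ι := by
      have : 0 < L := by exact_mod_cast hL0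
      exact ⟨Sum.inr fun _ => ⟨0, this⟩⟩
    have h1 := hE M hM ι ω (fun i => fr (ω i)) a hcaps.1 hcaps.2.1 hcaps.2.2.2 hI
    have h2 : ∫⁻ y, BF M P v y ^ q ≤ ∫⁻ y, Fb M ω (fun i => fr (ω i)) a y ^ q := by
      refine lintegral_mono fun y => ENNReal.rpow_le_rpow ?_ (by linarith)
      have h5 : Fb M ω (fun i => fr (ω i)) a y =
          ∑ p : ↥P, (box M (nor (ω (Sum.inl p))) (fr (ω (Sum.inl p))) (a (Sum.inl p))).indicator
            (fun _ => (1 : ℝ≥0∞)) y +
          ∑ k : Fin d → Fin L, (box M (nor (ω (Sum.inr k))) (fr (ω (Sum.inr k))) (a (Sum.inr k))).indicator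
            (fun _ => (1 : ℝ≥0∞)) y := Fintype.sum_sum_type _
      have h6 : BF M P v y = ∑ p : ↥P, (box M (nor (ω (Sum.inl p))) (fr (ω (Sum.inl p)))
          (a (Sum.inl p))).indicator (fun _ => (1 : ℝ≥0∞)) y := by
        unfold BF
        exact (Finset.sum_coe_sort P (fun p => (box M (nor p.1) (fr p.1) (p.2 + dsp M p.1 v)).indicator
          (fun _ => (1 : ℝ≥0∞)) y)).symm
      rw [h5, h6]
      exact le_self_add
    set X : ℝ := M ^ ((β + ε) * q) * M ^ (2 * d + 2) with hX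
    have hX0 : 0 < X := by positivity
    have h3 : ENNReal.ofReal ((n ^ q * E + 1) * X) ≤ ENNReal.ofReal (n ^ q * E * X) := by
      calc ENNReal.ofReal ((n ^ q * E + 1) * X)
          = ENNReal.ofReal ((n ^ q * E + 1) * M ^ ((β + ε) * q) * M ^ (2 * d + 2)) := by
            rw [hX, mul_assoc]
        _ ≤ ∫⁻ y, SF c M P y ^ q := hint
        _ ≤ ((VJ d J).card : ℝ≥0∞) ^ q * ∫⁻ y, BF M P v y ^ q := hv2
        _ ≤ ENNReal.ofReal (n ^ q) * ENNReal.ofReal (E * M ^ ((β + ε) * q) * M ^ (2 * d + 2)) := by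
            have e : ((VJ d J).card : ℝ≥0∞) ^ q = ENNReal.ofReal (n ^ q) := by
              rw [← ENNReal.ofReal_rpow_of_pos hn0, hn, ENNReal.ofReal_natCast]
            rw [e]
            exact mul_le_mul' le_rfl (h2.trans h1)
        _ = _ := by
            rw [← ENNReal.ofReal_mul hnq.le, hX]
            congr 1
            ring
    rw [ENNReal.ofReal_le_ofReal_iff (by positivity)] at h3
    linarith

end Pool.Agent.K4H66.KG
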