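import Pool.Agent.K4H66.KG.Full
import Pool.Agent.Results.MP_ac5134_an.SmoothTranslates
import Mathlib.Analysis.Calculus.BumpFunction.SmoothApprox
import Mathlib.Analysis.Complex.Tietze

set_option autoImplicit false

/-! The zero-one law for generic continuous maps. -/

open MeasureTheory Set Filter Topology ENNReal NNReal Metric
open scoped Classical

namespace Pool.Agent.K4H66.KG

open Pool.Agent.H810R3.Tub

variable {d : ℕ}

theorem ineq_mono {N D D' : ℝ} {ι : Type} [Fintype ι] {ω : ι → Vec d} {f : ι → Fin d → Space d}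
    {a : ι → Space d} (h : Ineq N D ω f a) (hD : D ≤ D') : Ineq N D' ω f a := by
  intro p hp
  refine (h p hp).trans ?_
  gcongr

theorem rpow_abs_le {C N s t : ℝ} (hN : 1 ≤ N) (hst : s ≤ t) : C * N ^ s ≤ |C| * N ^ t := by
  have h1 : 0 < N ^ s := Real.rpow_pos_of_pos (by linarith) _
  have h2 : N ^ s ≤ N ^ t := Real.rpow_le_rpow_of_exponent_le hN hst
  calc C * N ^ s ≤ |C| * N ^ s := by
        gcongr
        exact le_abs_self C
    _ ≤ |C| * N ^ t := by gcongr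

theorem lossOn_of_all {β : ℝ} (h : LossAll d β) (b : Maps d) : LossOn b β := by
  intro ε σ κ K S hε hσ hκ
  obtain ⟨C, hC⟩ := h ε σ κ hε hσ hκ
  exact ⟨C, fun N hN ι _ ω f a hc _ => hC N hN ι ω f a hc⟩

theorem lossOn_mono {β β' : ℝ} (hβ : β ≤ β') {b : Maps d} (h : LossOn b β) : LossOn b β' := by
  intro ε σ κ K S hε hσ hκ
  obtain ⟨C, hC⟩ := h ε σ κ K S hε hσ hκ
  exact ⟨|C|, fun N hN ι _ ω f a hc hf => ineq_mono (hC N hN ι ω f a hc hf) (rpow_abs_le hN (by linarith))⟩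

/-- If the inequality with loss `β` fails then it fails with a larger rational loss. -/
theorem exists_rat {β : ℝ} (hβ : 0 ≤ β) (h : ¬ LossAll d β) : ∃ r : ℚ, β ≤ r ∧ (0 : ℝ) ≤ r ∧ ¬ LossAll d r := by
  unfold LossAll at h
  push Not at h
  obtain ⟨ε, σ, κ, hε, hσ, hκ, h⟩ := h
  obtain ⟨r, hr1, hr2⟩ := exists_rat_btwn (show β < β + ε / 2 by linarith)
  refine ⟨r, hr1.le, by linarith, ?_⟩
  intro hall
  obtain ⟨C, hC⟩ := hall (ε / 2) σ κ (by linarith) hσ hκ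
  obtain ⟨N, hN, ι, _, ω, f, a, hc, hn⟩ := h |C|
  exact hn (ineq_mono (hC N hN ι ω f a hc) (rpow_abs_le hN (by linarith)))

/-- the maps with violations form a residual set -/
theorem residual_of_near {X : Type*} [PseudoMetricSpace X] (V : Set X)
    (h : ∀ (x₀ : X) (η : ℝ), 0 < η → ∃ x₁, dist x₁ x₀ < η ∧ ∃ r : ℝ, 0 < r ∧ ∀ x, dist x x₁ < r → x ∈ V) :
    ∀ᶠ x in residual X, x ∈ V := by
  have h1 : interior V ∈ residual X := by
    apply residual_of_dense_open isOpen_interior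
    intro x₀
    rw [Metric.mem_closure_iff]
    intro η hη
    obtain ⟨x₁, h1, r, hr, h2⟩ := h x₀ η hη
    refine ⟨x₁, ?_, ?_⟩
    · rw [mem_interior_iff_mem_nhds, Metric.mem_nhds_iff]
      exact ⟨r, hr, fun x hx => h2 x hx⟩
    · rw [dist_comm]
      exact h1
  exact mem_of_superset h1 interior_subset

theorem not_lossOn (hd : 1 ≤ d) {β : ℝ} (hβ : 0 ≤ β) (h : ¬ LossAll d β) :
    ∀ᶠ b in residual (Maps d), ¬ LossOn b β := by
  obtain ⟨ε, σ, K, S, hε, hσ, hfull⟩ := full hd hβ h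
  have h1 : ∀ m : ℕ, ∀ᶠ b in residual (Maps d), Viol b σ K S β ε ((m : ℝ) + 1) := by
    intro m
    exact residual_of_near {b | Viol b σ K S β ε ((m : ℝ) + 1)} (hfull ((m : ℝ) + 1) (by positivity))
  have h2 : ∀ᶠ b in residual (Maps d), ∀ m : ℕ, Viol b σ K S β ε ((m : ℝ) + 1) := eventually_countable_forall.2 h1
  filter_upwards [h2] with b hb hL
  obtain ⟨C, hC⟩ := hL ε σ 1 K S hε hσ one_pos
  obtain ⟨m, hm⟩ := exists_nat_ge C
  obtain ⟨N, hN, ι, _, ω, f, a, hc, hf, hn⟩ := hb m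
  apply hn
  refine ineq_mono (hC N hN ι ω f a hc hf) ?_
  have h3 : 0 < N ^ (β + ε) := Real.rpow_pos_of_pos (by linarith) _
  gcongr
  linarith

/-- **The zero-one law.** -/
theorem zero_one (hd : 1 ≤ d) :
    ∀ᶠ b in residual (Maps d), ∀ β : ℝ, 0 ≤ β → (LossOn b β ↔ LossAll d β) := by
  have h1 : ∀ᶠ b in residual (Maps d), ∀ r : ℚ, (0 : ℝ) ≤ r → ¬ LossAll d r → ¬ LossOn b r := by
    apply eventually_countable_forall.2
    intro r
    by_cases h : (0 : ℝ) ≤ r ∧ ¬ LossAll d r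
    · filter_upwards [not_lossOn hd h.1 h.2] with b hb _ _
      exact hb
    · filter_upwards with b h2 h3
      exact absurd ⟨h2, h3⟩ h
  filter_upwards [h1] with b hb β hβ
  refine ⟨fun hL => ?_, fun h => lossOn_of_all h b⟩
  by_contra hn
  obtain ⟨r, hr1, hr2, hr3⟩ := exists_rat hβ hn
  exact hb r hr2 hr3 (lossOn_mono hr1 hL)

/-- Smooth maps are dense. -/
theorem exists_smooth (b₀ : Maps d) {η : ℝ} (hη : 0 < η) :
    ∃ B : Vec d → Vec d, ContDiff ℝ ((⊤ : ℕ∞) : WithTop ℕ∞) B ∧ ∃ b₁ : Maps d, (∀ x, b₁ x = B x.1) ∧ dist b₁ b₀ < η := by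
  obtain ⟨G, hG⟩ := ContinuousMap.exists_restrict_eq (isClosed_closedBall (x := (0 : Vec d)) (ε := 1)) b₀
  have hU : IsOpen {F : C(Vec d, Vec d) | dist (F.restrict (closedBall (0 : Vec d) 1)) b₀ < η} :=
    isOpen_lt ((ContinuousMap.continuous_restrict _).dist continuous_const) continuous_const
  obtain ⟨F, hF1, hF2⟩ := (ContinuousMap.dense_setOfPred_contDiff (E := Vec d) (F := Vec d)).exists_mem_open hU
    ⟨G, by
      show dist (G.restrict (closedBall (0 : Vec d) 1)) b₀ < η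
      rw [hG, dist_self]
      exact hη⟩
  exact ⟨F, hF1, F.restrict (closedBall (0 : Vec d) 1), fun x => rfl, hF2⟩

/-- The inequality for translates which follow a smooth map, at all large scales. -/
theorem smooth_scale (hd : 1 ≤ d) (B : Vec d → Vec d) (hB : ContDiff ℝ ((⊤ : ℕ∞) : WithTop ℕ∞) B) (b₁ : Maps d)
    (hb : ∀ x, b₁ x = B x.1) (ε σ κ K S : ℝ) (hε : 0 < ε) (hσ : 0 < σ) (hσ1 : σ ≤ 1) (hκ : 0 < κ) :
    ∃ N₁ : ℝ, 1 ≤ N₁ ∧ ∀ N : ℝ, N₁ ≤ N → ∀ (ι : Type) [Fintype ι] (ω : ι → Vec d) (f : ι → Fin d → Space d)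
      (a : ι → Space d), Caps σ κ N ω f → Follows b₁ K S N ω a → Ineq N (N ^ ε) ω f a := by
  obtain ⟨k, hk⟩ := exists_nat_ge (4 / (ε / 2))
  obtain ⟨C, hC0, hC⟩ := Pool.Agent.Results.MP_ac5134_an.SmoothTranslates.result d hd k (ε / 2) σ κ
    (by linarith) (by linarith) hσ hσ1 hκ
  -- the bound for the derivatives
  obtain ⟨A, hA⟩ : ∃ A : ℝ≥0, ∀ j ≤ k + 1, ∀ v, ‖v‖ ≤ 1 → ‖iteratedFDeriv ℝ j B v‖ ≤ A := by
    have h1 : ∀ j : ℕ, ∃ A : ℝ≥0, ∀ v, ‖v‖ ≤ 1 → ‖iteratedFDeriv ℝ j B v‖ ≤ A := by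
      intro j
      have h2 : Continuous (fun v => iteratedFDeriv ℝ j B v) := hB.continuous_iteratedFDeriv (m := j) (by
        exact_mod_cast le_top)
      obtain ⟨A, hA⟩ := (isCompact_closedBall (0 : Vec d) 1).exists_bound_of_continuousOn h2.continuousOn
      refine ⟨⟨max A 0, le_max_right _ _⟩, fun v hv => ?_⟩
      refine (hA v ?_).trans (le_max_left _ _)
      rwa [mem_closedBall, dist_zero_right]
    choose A hA using h1
    refine ⟨∑ j ∈ Finset.range (k + 2), A j, fun j hj v hv => (hA j v hv).trans ?_⟩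
    rw [NNReal.coe_le_coe]
    exact Finset.single_le_sum (f := A) (fun _ _ => zero_le) (Finset.mem_range.2 (by omega))
  set K' : ℝ≥0 := ⟨max K 0, le_max_right _ _⟩ with hK'
  set S' : ℝ≥0 := ⟨max S 0, le_max_right _ _⟩ with hS'
  set X : ℝ := C * (1 + K' + A + S' : ℝ) ^ d with hX
  have hX0 : 0 < X := by positivity
  refine ⟨max 1 (X ^ (2 / ε)), le_max_left _ _, ?_⟩
  intro N hN ι _ ω f a hcaps hfol
  obtain ⟨h1, h2, h3, h4⟩ := hcaps
  have hN1 : 1 ≤ N := (le_max_left _ _).trans hN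
  have hN0 : 0 < N := by linarith
  have hXN : X * N ^ (ε / 2) ≤ N ^ ε := by
    have h5 : X ≤ N ^ (ε / 2) := by
      have h6 : X ^ (2 / ε) ≤ N := (le_max_right _ _).trans hN
      calc X = (X ^ (2 / ε)) ^ (ε / 2) := by
            rw [← Real.rpow_mul hX0.le]
            have : 2 / ε * (ε / 2) = 1 := by field_simp
            rw [this, Real.rpow_one]
        _ ≤ N ^ (ε / 2) := Real.rpow_le_rpow (by positivity) h6 (by positivity)
    calc X * N ^ (ε / 2) ≤ N ^ (ε / 2) * N ^ (ε / 2) := by gcongr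
      _ = N ^ ε := by
          rw [← Real.rpow_add hN0]
          congr 1
          ring
  set β : ι → Vec d := fun i => (a i).fst + (2 * (a i).snd) • ω i with hβ
  set s : ι → ℝ := fun i => (a i).snd with hs
  have hai : ∀ i, (WithLp.toLp 2 (β i + s i • (-(2 : ℝ) • ω i), s i) : Space d) = a i := by
    intro i
    apply WithLp.ofLp_injective
    refine Prod.ext ?_ rfl
    show (a i).fst + (2 * (a i).snd) • ω i + (a i).snd • (-(2 : ℝ) • ω i) = (a i).fst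
    module
  have key := hC A K' S' B (hB.of_le (by exact_mod_cast le_top)) hA N hN1 ι ω β s f h1 h2 h3 h4 (by
    intro i
    obtain ⟨h5, h6, h7⟩ := hfol i
    refine h7.trans ?_
    have h8 : S ≤ (S' : ℝ) := le_max_left _ _
    gcongr) (by
    intro i
    obtain ⟨h5, h6, h7⟩ := hfol i
    rw [hb] at h6
    refine h6.trans ?_
    have h8 : K ≤ (K' : ℝ) := le_max_left _ _
    gcongr)
  intro p hp
  have h9 := key p hp
  simp only [hai] at h9
  refine h9.trans ?_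
  gcongr

/-- Stability under small perturbations of the map. -/
theorem follows_near {b b₁ : Maps d} {K S N r : ℝ} (hN : 0 < N) (h : dist b b₁ ≤ r) (hr : r * N ≤ 1) {ι : Type}
    {ω : ι → Vec d} {a : ι → Space d} (hf : Follows b K S N ω a) : Follows b₁ (K + 1) S N ω a := by
  intro i
  obtain ⟨h1, h2, h3⟩ := hf i
  refine ⟨h1, ?_, h3⟩
  have e : (a i).fst + (2 * (a i).snd) • ω i - N ^ 2 • b₁ ⟨ω i, h1⟩ =
      ((a i).fst + (2 * (a i).snd) • ω i - N ^ 2 • b ⟨ω i, h1⟩) +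
        (N ^ 2 • b ⟨ω i, h1⟩ - N ^ 2 • b₁ ⟨ω i, h1⟩) := by abel
  have h4 : ‖N ^ 2 • b ⟨ω i, h1⟩ - N ^ 2 • b₁ ⟨ω i, h1⟩‖ ≤ N := by
    have h5 : dist (b ⟨ω i, h1⟩) (b₁ ⟨ω i, h1⟩) ≤ r := (ContinuousMap.dist_apply_le_dist _).trans h
    rw [dist_eq_norm] at h5
    rw [← smul_sub, norm_smul, Real.norm_of_nonneg (by positivity)]
    calc N ^ 2 * ‖b ⟨ω i, h1⟩ - b₁ ⟨ω i, h1⟩‖ ≤ N ^ 2 * r := by gcongr
      _ = N * (r * N) := by ring
      _ ≤ N * 1 := by gcongr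
      _ = N := mul_one N
  rw [e]
  refine (norm_add_le _ _).trans ?_
  linarith

theorem caps_mono {σ κ σ' κ' N : ℝ} (hN : 0 < N) (hσ : σ' ≤ σ) (hκ : κ' ≤ κ) {ι : Type} [Fintype ι]
    {ω : ι → Vec d} {f : ι → Fin d → Space d} (h : Caps σ κ N ω f) : Caps σ' κ' N ω f := by
  obtain ⟨h1, h2, h3, h4⟩ := h
  refine ⟨h1, fun i j hij => le_trans (by gcongr) (h2 i j hij), le_trans (by gcongr) h3, h4⟩

theorem follows_mono {b : Maps d} {K S K' S' N : ℝ} (hN : 0 < N) (hK : K ≤ K') (hS : S ≤ S') {ι : Type}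
    {ω : ι → Vec d} {a : ι → Space d} (hf : Follows b K S N ω a) : Follows b K' S' N ω a := by
  intro i
  obtain ⟨h1, h2, h3⟩ := hf i
  exact ⟨h1, h2.trans (by gcongr), h3.trans (by gcongr)⟩

/-- **Long windows of good scales.** -/
theorem windows (hd : 1 ≤ d) (Φ : ℝ → ℝ) :
    ∀ᶠ b in residual (Maps d), ∀ ε σ κ K S : ℝ, 0 < ε → 0 < σ → 0 < κ → ∀ R : ℝ, ∃ N₀ : ℝ, R ≤ N₀ ∧ ∀ N : ℝ,
      N₀ ≤ N → N ≤ Φ N₀ → ∀ (ι : Type) [Fintype ι] (ω : ι → Vec d) (f : ι → Fin d → Space d)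
        (a : ι → Space d), Caps σ κ N ω f → Follows b K S N ω a → Ineq N (N ^ ε) ω f a := by
  have h1 : ∀ k : ℕ, ∀ᶠ b in residual (Maps d), ∃ N₀ : ℝ, (k : ℝ) + 1 ≤ N₀ ∧ ∀ N : ℝ,
      N₀ ≤ N → N ≤ Φ N₀ → ∀ (ι : Type) [Fintype ι] (ω : ι → Vec d) (f : ι → Fin d → Space d)
        (a : ι → Space d), Caps (1 / ((k : ℝ) + 1)) (1 / ((k : ℝ) + 1)) N ω f →
          Follows b ((k : ℝ) + 1) ((k : ℝ) + 1) N ω a → Ineq N (N ^ (1 / ((k : ℝ) + 1))) ω f a := by
    intro k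
    apply residual_of_near {b : Maps d | ∃ N₀ : ℝ, (k : ℝ) + 1 ≤ N₀ ∧ ∀ N : ℝ,
      N₀ ≤ N → N ≤ Φ N₀ → ∀ (ι : Type) [Fintype ι] (ω : ι → Vec d) (f : ι → Fin d → Space d)
        (a : ι → Space d), Caps (1 / ((k : ℝ) + 1)) (1 / ((k : ℝ) + 1)) N ω f →
          Follows b ((k : ℝ) + 1) ((k : ℝ) + 1) N ω a → Ineq N (N ^ (1 / ((k : ℝ) + 1))) ω f a}
    intro b₀ η hη
    have hk0 : (0 : ℝ) < (k : ℝ) + 1 := by positivity
    have hk1 : 1 / ((k : ℝ) + 1) ≤ 1 := by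
      rw [div_le_one hk0]
      have : (0 : ℝ) ≤ k := Nat.cast_nonneg k
      linarith
    obtain ⟨B, hB, b₁, hb₁, hdist⟩ := exists_smooth b₀ hη
    obtain ⟨N₁, hN₁, hgood⟩ := smooth_scale hd B hB b₁ hb₁ (1 / ((k : ℝ) + 1)) (1 / ((k : ℝ) + 1))
      (1 / ((k : ℝ) + 1)) ((k : ℝ) + 1 + 1) ((k : ℝ) + 1) (by positivity) (by positivity) hk1 (by positivity)
    set N₀ : ℝ := max N₁ ((k : ℝ) + 1) with hN₀
    have hN₀0 : 0 < N₀ := lt_of_lt_of_le hk0 (le_max_right _ _)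
    refine ⟨b₁, hdist, 1 / max (Φ N₀) 1, by positivity, ?_⟩
    intro b hb
    refine ⟨N₀, le_max_right _ _, ?_⟩
    intro N hN1 hN2 ι _ ω f a hc hf
    have hN0 : 0 < N := lt_of_lt_of_le hN₀0 hN1
    refine hgood N ((le_max_left _ _).trans hN1) ι ω f a hc (follows_near hN0 hb.le ?_ hf)
    rw [one_div, inv_mul_le_iff₀ (by positivity), mul_one]
    exact hN2.trans (le_max_left _ _)
  have h2 := eventually_countable_forall.2 h1
  filter_upwards [h2] with b hb ε σ κ K S hε hσ hκ R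
  obtain ⟨k, hk⟩ := exists_nat_ge (max (max (1 / ε) (max (1 / σ) (1 / κ))) (max (max K S) R))
  have hk0 : (0 : ℝ) < (k : ℝ) + 1 := by positivity
  have hkε : 1 / ((k : ℝ) + 1) ≤ ε := by
    have : 1 / ε ≤ k := (le_max_left _ _).trans ((le_max_left _ _).trans hk)
    rw [div_le_iff₀ hk0]
    rw [div_le_iff₀ hε] at this
    nlinarith
  have hkσ : 1 / ((k : ℝ) + 1) ≤ σ := by
    have : 1 / σ ≤ k := (le_max_left _ _).trans ((le_max_right _ _).trans ((le_max_left _ _).trans hk))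
    rw [div_le_iff₀ hk0]
    rw [div_le_iff₀ hσ] at this
    nlinarith
  have hkκ : 1 / ((k : ℝ) + 1) ≤ κ := by
    have : 1 / κ ≤ k := (le_max_right _ _).trans ((le_max_right _ _).trans ((le_max_left _ _).trans hk))
    rw [div_le_iff₀ hk0]
    rw [div_le_iff₀ hκ] at this
    nlinarith
  have hkK : K ≤ (k : ℝ) + 1 := by
    have : K ≤ k := (le_max_left _ _).trans ((le_max_left _ _).trans ((le_max_right _ _).trans hk))
    linarith
  have hkS : S ≤ (k : ℝ) + 1 := by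
    have : S ≤ k := (le_max_right _ _).trans ((le_max_left _ _).trans ((le_max_right _ _).trans hk))
    linarith
  have hkR : R ≤ (k : ℝ) + 1 := by
    have : R ≤ k := (le_max_right _ _).trans ((le_max_right _ _).trans hk)
    linarith
  obtain ⟨N₀, hN₀, hgood⟩ := hb k
  refine ⟨N₀, hkR.trans hN₀, ?_⟩
  intro N hN1 hN2 ι _ ω f a hc hf
  have hN0 : 0 < N := lt_of_lt_of_le hk0 (hN₀.trans hN1)
  have hN11 : 1 ≤ N := by
    have : (0 : ℝ) ≤ k := Nat.cast_nonneg k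
    linarith
  refine ineq_mono (hgood N hN1 hN2 ι ω f a (caps_mono hN0 hkσ hkκ hc) (follows_mono hN0 hkK hkS hf)) ?_
  exact Real.rpow_le_rpow_of_exponent_le hN11 hkε

end Pool.Agent.K4H66.KG
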