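import Pool.Agent.K4H66.KG.Full

set_option autoImplicit false

/-! A map which is constant on small balls and almost nonexpansive; bumps with Hölder bounds. -/

open MeasureTheory Set Filter Topology ENNReal NNReal Metric
open scoped Classical

namespace Pool.Agent.K4H66.KG

open Pool.Agent.H810R3.Tub

variable {d : ℕ}

/-- the radial profile -/
noncomputable def prof (a l r : ℝ) : ℝ := max 0 (min r (l * (r - a)))

theorem prof_nonneg (a l r : ℝ) : 0 ≤ prof a l r := le_max_left _ _

theorem prof_le {a l r : ℝ} (hr : 0 ≤ r) : prof a l r ≤ r := max_le hr (min_le_left _ _)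

theorem prof_zero {a l r : ℝ} (hl : 0 ≤ l) (hr : r ≤ a) : prof a l r = 0 := by
  unfold prof
  apply max_eq_left
  refine (min_le_right _ _).trans ?_
  exact mul_nonpos_of_nonneg_of_nonpos hl (by linarith)

theorem prof_self {a l r : ℝ} (hr : 0 ≤ r) (h : r ≤ l * (r - a)) : prof a l r = r := by
  unfold prof
  rw [min_eq_left h, max_eq_right hr]

theorem prof_sub_le {a l r : ℝ} (ha : 0 ≤ a) (hl : 1 ≤ l) : r - prof a l r ≤ a := by
  unfold prof
  by_cases h : r ≤ l * (r - a)
  · rw [min_eq_left h]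
    have := le_max_right 0 r
    linarith
  · push Not at h
    rw [min_eq_right h.le]
    rcases le_total r a with h1 | h1
    · have := le_max_left 0 (l * (r - a))
      linarith
    · have h2 := le_max_right 0 (l * (r - a))
      have h3 : r - a ≤ l * (r - a) := by nlinarith
      linarith

theorem prof_lip {a l r s : ℝ} (hl : 1 ≤ l) : |prof a l r - prof a l s| ≤ l * |r - s| := by
  unfold prof
  have h1 : |max 0 (min r (l * (r - a))) - max 0 (min s (l * (s - a)))| ≤
      |min r (l * (r - a)) - min s (l * (s - a))| := by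
    have := abs_max_sub_max_le_max 0 (min r (l * (r - a))) 0 (min s (l * (s - a)))
    rw [sub_self, abs_zero] at this
    exact this.trans (max_le (abs_nonneg _) le_rfl)
  refine h1.trans ?_
  have h2 := abs_min_sub_min_le_max r (l * (r - a)) s (l * (s - a))
  refine h2.trans (max_le ?_ ?_)
  · nlinarith [abs_nonneg (r - s)]
  · have e : l * (r - a) - l * (s - a) = l * (r - s) := by ring
    rw [e, abs_mul, abs_of_pos (by linarith)]

/-- the radial map -/
noncomputable def rad (a l : ℝ) (z : Vec d) : Vec d := (prof a l ‖z‖ / ‖z‖) • z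

theorem norm_rad (a l : ℝ) (z : Vec d) : ‖rad a l z‖ = prof a l ‖z‖ := by
  unfold rad
  rw [norm_smul, norm_div, norm_norm, Real.norm_of_nonneg (prof_nonneg _ _ _)]
  rcases eq_or_ne ‖z‖ 0 with h | h
  · rw [h, mul_zero]
    have := prof_le (a := a) (l := l) (le_refl (0 : ℝ))
    exact le_antisymm (prof_nonneg _ _ _) this
  · field_simp

theorem rad_zero {a l : ℝ} (hl : 0 ≤ l) {z : Vec d} (hz : ‖z‖ ≤ a) : rad a l z = 0 := by
  unfold rad
  rw [prof_zero hl hz, zero_div, zero_smul]

theorem rad_self {a l : ℝ} {z : Vec d} (hz : ‖z‖ ≤ l * (‖z‖ - a)) : rad a l z = z := by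
  unfold rad
  rw [prof_self (norm_nonneg _) hz]
  rcases eq_or_ne z 0 with h | h
  · rw [h, smul_zero]
  · rw [div_self (norm_ne_zero_iff.2 h), one_smul]

theorem rad_sub_le {a l : ℝ} (ha : 0 ≤ a) (hl : 1 ≤ l) (z : Vec d) : ‖z - rad a l z‖ ≤ a := by
  rcases eq_or_ne z 0 with h | h
  · rw [h]
    unfold rad
    rw [smul_zero, sub_zero, norm_zero]
    exact ha
  · have hz : ‖z‖ ≠ 0 := norm_ne_zero_iff.2 h
    have hz0 : 0 < ‖z‖ := norm_pos_iff.2 h
    have e : z - rad a l z = ((‖z‖ - prof a l ‖z‖) / ‖z‖) • z := by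
      unfold rad
      rw [_root_.sub_div, div_self hz, sub_smul, one_smul]
    rw [e, norm_smul, norm_div, norm_norm, div_mul_cancel₀ _ hz,
      Real.norm_of_nonneg (sub_nonneg.2 (prof_le hz0.le))]
    exact prof_sub_le ha hl

theorem rad_lip {a l : ℝ} (hl : 1 ≤ l) (z w : Vec d) : ‖rad a l z - rad a l w‖ ≤ l * ‖z - w‖ := by
  rcases eq_or_ne z 0 with h | h
  · rw [h]
    have e : rad a l (0 : Vec d) = 0 := by
      unfold rad
      rw [smul_zero]
    rw [e, zero_sub, zero_sub, norm_neg, norm_neg, norm_rad]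
    have := prof_le (a := a) (l := l) (norm_nonneg w)
    nlinarith [norm_nonneg w]
  rcases eq_or_ne w 0 with h' | h'
  · rw [h']
    have e : rad a l (0 : Vec d) = 0 := by
      unfold rad
      rw [smul_zero]
    rw [e, sub_zero, sub_zero, norm_rad]
    have := prof_le (a := a) (l := l) (norm_nonneg z)
    nlinarith [norm_nonneg z]
  have hz0 : 0 < ‖z‖ := norm_pos_iff.2 h
  have hw0 : 0 < ‖w‖ := norm_pos_iff.2 h'
  apply le_of_sq_le_sq _ (by positivity)
  rw [mul_pow, @norm_sub_sq_real, @norm_sub_sq_real, norm_rad, norm_rad]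
  have e : inner ℝ (rad a l z) (rad a l w) = (prof a l ‖z‖ / ‖z‖) * (prof a l ‖w‖ / ‖w‖) * inner ℝ z w := by
    unfold rad
    rw [inner_smul_left, inner_smul_right]
    simp only [conj_trivial]
    ring
  rw [e]
  have h1 : inner ℝ z w ≤ ‖z‖ * ‖w‖ := real_inner_le_norm z w
  have h2 := prof_lip (a := a) (l := l) (r := ‖z‖) (s := ‖w‖) hl
  have h3 := prof_le (a := a) (l := l) (norm_nonneg z)
  have h4 := prof_le (a := a) (l := l) (norm_nonneg w)
  have h5 := prof_nonneg a l ‖z‖
  have h6 := prof_nonneg a l ‖w‖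
  set p := prof a l ‖z‖
  set q := prof a l ‖w‖
  set r := ‖z‖
  set s := ‖w‖
  set u : ℝ := inner ℝ z w
  have h7 : (p - q) ^ 2 ≤ l ^ 2 * (r - s) ^ 2 := by
    have h8 : |p - q| ^ 2 ≤ (l * |r - s|) ^ 2 := pow_le_pow_left₀ (abs_nonneg _) h2 2
    rwa [sq_abs, mul_pow, sq_abs] at h8
  have h9 : p / r * (q / s) ≤ 1 := by
    have h10 : p / r ≤ 1 := by
      rw [div_le_one hz0]
      exact h3
    have h11 : q / s ≤ 1 := by
      rw [div_le_one hw0]
      exact h4
    exact mul_le_one₀ h10 (by positivity) h11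
  have h12 : p / r * (q / s) * (r * s) = p * q := by
    field_simp
  have h13 : 0 ≤ (l ^ 2 - p / r * (q / s)) * (r * s - u) := by
    apply mul_nonneg
    · nlinarith
    · linarith
  nlinarith

/-- the map which is constant on the balls of radius `a` around the centres -/
noncomputable def Tm (a l : ℝ) (C : Finset (Vec d)) (x : Vec d) : Vec d :=
  x - ∑ c ∈ C, ((x - c) - rad a l (x - c))

section
variable {a R : ℝ} {C : Finset (Vec d)}

/-- the slope -/
noncomputable def slo (R : ℝ) : ℝ := R / (R - 1)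

theorem slo_ge (hR : 2 ≤ R) : 1 ≤ slo R := by
  unfold slo
  rw [le_div_iff₀ (by linarith)]
  linarith

theorem far_rad (ha : 0 < a) (hR : 2 ≤ R) {z : Vec d} (hz : R * a ≤ ‖z‖) : rad a (slo R) z = z := by
  apply rad_self
  unfold slo
  rw [div_mul_eq_mul_div, le_div_iff₀ (by linarith)]
  nlinarith

theorem Tm_near (ha : 0 < a) (hR : 2 ≤ R) (hC : ∀ c ∈ C, ∀ c' ∈ C, c ≠ c' → 3 * (R * a) ≤ ‖c - c'‖)
    {x c : Vec d} (hc : c ∈ C) (hx : ‖x - c‖ < R * a) : Tm a (slo R) C x = c + rad a (slo R) (x - c) := by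
  unfold Tm
  rw [Finset.sum_eq_single_of_mem c hc]
  · abel
  · intro c' hc' hne
    have h1 := hC c' hc' c hc hne
    have h2 : ‖c' - c‖ ≤ ‖x - c‖ + ‖x - c'‖ := by
      have e : c' - c = (x - c) + -(x - c') := by abel
      rw [e, ← norm_neg (x - c')]
      exact norm_add_le _ _
    have h3 : 0 < R * a := by positivity
    rw [far_rad ha hR (by linarith), sub_self]

theorem Tm_far (ha : 0 < a) (hR : 2 ≤ R) {x : Vec d} (hx : ∀ c ∈ C, R * a ≤ ‖x - c‖) :
    Tm a (slo R) C x = x := by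
  unfold Tm
  rw [Finset.sum_eq_zero (fun c hc => by rw [far_rad ha hR (hx c hc), sub_self]), sub_zero]

theorem Tm_lip (ha : 0 < a) (hR : 2 ≤ R) (hC : ∀ c ∈ C, ∀ c' ∈ C, c ≠ c' → 3 * (R * a) ≤ ‖c - c'‖)
    (x y : Vec d) : ‖Tm a (slo R) C x - Tm a (slo R) C y‖ ≤ (1 + 2 / (R - 1)) * ‖x - y‖ := by
  have hs := slo_ge hR
  have hs2 : slo R ≤ 1 + 2 / (R - 1) := by
    unfold slo
    rw [div_le_iff₀ (by linarith), add_mul, div_mul_cancel₀ _ (by linarith)]
    linarith
  have key : ∀ (x y c : Vec d), c ∈ C → ‖x - c‖ < R * a → (∀ c' ∈ C, ‖y - c'‖ < R * a → c' = c) →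
      ‖Tm a (slo R) C x - Tm a (slo R) C y‖ ≤ (1 + 2 / (R - 1)) * ‖x - y‖ := by
    intro x y c hc hx hy
    have h1 : Tm a (slo R) C y = c + rad a (slo R) (y - c) := by
      by_cases h : ‖y - c‖ < R * a
      · exact Tm_near ha hR hC hc h
      · have h2 : ∀ c' ∈ C, R * a ≤ ‖y - c'‖ := by
          intro c' hc'
          by_contra hcon
          push Not at hcon
          have := hy c' hc' hcon
          rw [this] at hcon
          exact h hcon
        rw [Tm_far ha hR h2, far_rad ha hR (not_lt.1 h)]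
        abel
    rw [Tm_near ha hR hC hc hx, h1, add_sub_add_left_eq_sub]
    refine (rad_lip hs _ _).trans ?_
    rw [sub_sub_sub_cancel_right]
    exact mul_le_mul_of_nonneg_right hs2 (norm_nonneg _)
  by_cases hx : ∃ c ∈ C, ‖x - c‖ < R * a
  · obtain ⟨c, hc, hxc⟩ := hx
    by_cases hy : ∃ c' ∈ C, ‖y - c'‖ < R * a ∧ c' ≠ c
    · obtain ⟨c', hc', hyc, hne⟩ := hy
      rw [Tm_near ha hR hC hc hxc, Tm_near ha hR hC hc' hyc]
      have h1 := rad_sub_le ha.le hs (x - c)
      have h2 := rad_sub_le ha.le hs (y - c')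
      have e : c + rad a (slo R) (x - c) - (c' + rad a (slo R) (y - c')) =
          (x - y) - ((x - c) - rad a (slo R) (x - c)) + ((y - c') - rad a (slo R) (y - c')) := by abel
      rw [e]
      have h3 : ‖(x - y) - ((x - c) - rad a (slo R) (x - c)) + ((y - c') - rad a (slo R) (y - c'))‖ ≤
          ‖x - y‖ + a + a := by
        refine (norm_add_le _ _).trans (add_le_add ((norm_sub_le _ _).trans (add_le_add le_rfl h1)) h2)
      refine h3.trans ?_
      have h4 : R * a ≤ ‖x - y‖ := by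
        have h5 := hC c hc c' hc' (fun h => hne h.symm)
        have h6 : ‖c - c'‖ ≤ ‖x - c‖ + ‖x - y‖ + ‖y - c'‖ := by
          have e2 : c - c' = -(x - c) + (x - y) + (y - c') := by abel
          rw [e2, ← norm_neg (x - c)]
          exact (norm_add_le _ _).trans (add_le_add (norm_add_le _ _) le_rfl)
        linarith
      have h5 : 2 * a ≤ 2 / (R - 1) * ‖x - y‖ := by
        rw [div_mul_eq_mul_div, le_div_iff₀ (by linarith)]
        nlinarith
      linarith
    · push Not at hy
      exact key x y c hc hxc hy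
  · by_cases hy : ∃ c' ∈ C, ‖y - c'‖ < R * a
    · obtain ⟨c', hc', hyc⟩ := hy
      rw [norm_sub_rev, norm_sub_rev x y]
      refine key y x c' hc' hyc ?_
      intro c'' hc'' h
      exact absurd ⟨c'', hc'', h⟩ hx
    · push Not at hx hy
      rw [Tm_far ha hR hx, Tm_far ha hR hy]
      have : 0 < 2 / (R - 1) := div_pos (by norm_num) (by linarith)
      nlinarith [norm_nonneg (x - y)]

theorem Tm_close (ha : 0 < a) (hR : 2 ≤ R) (hC : ∀ c ∈ C, ∀ c' ∈ C, c ≠ c' → 3 * (R * a) ≤ ‖c - c'‖)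
    (x : Vec d) : ‖Tm a (slo R) C x - x‖ ≤ a := by
  by_cases hx : ∃ c ∈ C, ‖x - c‖ < R * a
  · obtain ⟨c, hc, hxc⟩ := hx
    rw [Tm_near ha hR hC hc hxc]
    have e : c + rad a (slo R) (x - c) - x = -((x - c) - rad a (slo R) (x - c)) := by abel
    rw [e, norm_neg]
    exact rad_sub_le ha.le (slo_ge hR) _
  · push Not at hx
    rw [Tm_far ha hR hx, sub_self, norm_zero]
    exact ha.le

theorem Tm_mem (ha : 0 < a) (hR : 2 ≤ R) (hC : ∀ c ∈ C, ∀ c' ∈ C, c ≠ c' → 3 * (R * a) ≤ ‖c - c'‖)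
    (hC1 : ∀ c ∈ C, ‖c‖ + R * a ≤ 1) {x : Vec d} (hx : ‖x‖ ≤ 1) : ‖Tm a (slo R) C x‖ ≤ 1 := by
  by_cases h : ∃ c ∈ C, ‖x - c‖ < R * a
  · obtain ⟨c, hc, hxc⟩ := h
    rw [Tm_near ha hR hC hc hxc]
    refine (norm_add_le _ _).trans ?_
    rw [norm_rad]
    have := prof_le (a := a) (l := slo R) (norm_nonneg (x - c))
    have := hC1 c hc
    linarith
  · push Not at h
    rw [Tm_far ha hR h]
    exact hx

theorem Tm_center (ha : 0 < a) (hR : 2 ≤ R) (hC : ∀ c ∈ C, ∀ c' ∈ C, c ≠ c' → 3 * (R * a) ≤ ‖c - c'‖)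
    {x c : Vec d} (hc : c ∈ C) (hx : ‖x - c‖ ≤ a) : Tm a (slo R) C x = c := by
  rw [Tm_near ha hR hC hc (by nlinarith), rad_zero (by linarith [slo_ge hR]) hx, add_zero]

end

/-- Interpolation at separated points by a small Lipschitz map. -/
theorem pert_lip {s η : ℝ} (hs : 0 < s) (hη : 0 ≤ η) (P : Finset (Vec d × Space d)) (hP : Sep (2 * s) P)
    (w : Vec d × Space d → Vec d) (hw : ∀ p ∈ P, ‖w p‖ ≤ η) :
    ∃ g : Vec d → Vec d, Continuous g ∧ (∀ x, ‖g x‖ ≤ η) ∧ (∀ p ∈ P, g p.1 = w p) ∧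
      ∀ x y, ‖g x - g y‖ ≤ 2 * η / s * ‖x - y‖ := by
  have key : ∀ x, ∀ p ∈ P, ‖x - p.1‖ < s → ∑ p' ∈ P, bump s p'.1 x • w p' = bump s p.1 x • w p := by
    intro x p hp hx
    rw [Finset.sum_eq_single_of_mem p hp]
    intro p' hp' hne
    have h1 := hP p' hp' p hp hne
    have h2 : ‖p'.1 - p.1‖ ≤ ‖x - p.1‖ + ‖x - p'.1‖ := by
      have e : p'.1 - p.1 = (x - p.1) + -(x - p'.1) := by abel
      rw [e, ← norm_neg (x - p'.1)]
      exact norm_add_le _ _
    rw [bump_far hs (by linarith), zero_smul]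
  have hbl : ∀ c x y : Vec d, |bump s c x - bump s c y| ≤ 1 / s * ‖x - y‖ := by
    intro c x y
    unfold bump
    have h1 := abs_max_sub_max_le_max 0 (1 - ‖x - c‖ / s) 0 (1 - ‖y - c‖ / s)
    rw [sub_self, abs_zero] at h1
    refine (h1.trans (max_le (abs_nonneg _) le_rfl)).trans ?_
    have e : 1 - ‖x - c‖ / s - (1 - ‖y - c‖ / s) = -((‖x - c‖ - ‖y - c‖) / s) := by ring
    rw [e, abs_neg, abs_div, abs_of_pos hs, one_div, div_eq_inv_mul]
    have h2 := abs_norm_sub_norm_le (x - c) (y - c)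
    rw [sub_sub_sub_cancel_right] at h2
    gcongr
  set g : Vec d → Vec d := fun x => ∑ p ∈ P, bump s p.1 x • w p with hg
  have hval : ∀ p ∈ P, g p.1 = w p := by
    intro p hp
    show ∑ p' ∈ P, bump s p'.1 p.1 • w p' = w p
    rw [key p.1 p hp (by rw [sub_self, norm_zero]; exact hs), bump_self, one_smul]
  have hbd : ∀ x, ‖g x‖ ≤ η := by
    intro x
    by_cases h : ∃ p ∈ P, ‖x - p.1‖ < s
    · obtain ⟨p, hp, hx⟩ := h
      show ‖∑ p ∈ P, bump s p.1 x • w p‖ ≤ η
      rw [key x p hp hx, norm_smul, Real.norm_eq_abs]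
      calc |bump s p.1 x| * ‖w p‖ ≤ 1 * η :=
            mul_le_mul (bump_le hs _ _) (hw p hp) (norm_nonneg _) zero_le_one
        _ = η := one_mul η
    · push Not at h
      show ‖∑ p ∈ P, bump s p.1 x • w p‖ ≤ η
      rw [Finset.sum_eq_zero (fun p hp => by rw [bump_far hs (h p hp), zero_smul]), norm_zero]
      exact hη
  -- the part of `p` in the difference
  have hpart : ∀ p ∈ P, ∀ x y : Vec d, ‖(bump s p.1 x - bump s p.1 y) • w p‖ ≤ η / s * ‖x - y‖ := by
    intro p hp x y
    rw [norm_smul, Real.norm_eq_abs]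
    calc |bump s p.1 x - bump s p.1 y| * ‖w p‖ ≤ (1 / s * ‖x - y‖) * η :=
          mul_le_mul (hbl _ _ _) (hw p hp) (norm_nonneg _) (by positivity)
      _ = _ := by ring
  have hη2 : η / s ≤ 2 * η / s := by
    gcongr
    linarith
  have one : ∀ p ∈ P, ∀ x y : Vec d, g x = bump s p.1 x • w p → g y = bump s p.1 y • w p →
      ‖g x - g y‖ ≤ 2 * η / s * ‖x - y‖ := by
    intro p hp x y h1 h2
    rw [h1, h2, ← sub_smul]
    refine (hpart p hp x y).trans ?_
    gcongr
  refine ⟨g, ?_, hbd, hval, ?_⟩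
  · apply continuous_finsetSum
    intro p _
    exact (bump_cont s p.1).smul continuous_const
  · intro x y
    have hfar : ∀ x : Vec d, (∀ p ∈ P, s ≤ ‖x - p.1‖) → g x = 0 := by
      intro x h
      exact Finset.sum_eq_zero (fun p hp => by rw [bump_far hs (h p hp), zero_smul])
    by_cases hx : ∃ p ∈ P, ‖x - p.1‖ < s
    · obtain ⟨p, hp, hxp⟩ := hx
      by_cases hy : ∃ p' ∈ P, ‖y - p'.1‖ < s
      · obtain ⟨p', hp', hyp⟩ := hy
        by_cases hpp : p = p'
        · subst hpp
          exact one p hp x y (key x p hp hxp) (key y p hp hyp)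
        · have h1 : bump s p.1 y = 0 := by
            apply bump_far hs
            have h3 := hP p hp p' hp' hpp
            have h2 : ‖p.1 - p'.1‖ ≤ ‖y - p'.1‖ + ‖y - p.1‖ := by
              have e : p.1 - p'.1 = (y - p'.1) + -(y - p.1) := by abel
              rw [e, ← norm_neg (y - p.1)]
              exact norm_add_le _ _
            linarith
          have h1' : bump s p'.1 x = 0 := by
            apply bump_far hs
            have h3 := hP p hp p' hp' hpp
            have h2 : ‖p.1 - p'.1‖ ≤ ‖x - p'.1‖ + ‖x - p.1‖ := by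
              have e : p.1 - p'.1 = (x - p'.1) + -(x - p.1) := by abel
              rw [e, ← norm_neg (x - p.1)]
              exact norm_add_le _ _
            linarith
          have e : g x - g y = (bump s p.1 x - bump s p.1 y) • w p +
              (bump s p'.1 x - bump s p'.1 y) • w p' := by
            have e1 : g x = bump s p.1 x • w p := key x p hp hxp
            have e2 : g y = bump s p'.1 y • w p' := key y p' hp' hyp
            rw [e1, e2, h1, h1', sub_zero, zero_sub, neg_smul]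
            abel
          rw [e]
          refine (norm_add_le _ _).trans ((add_le_add (hpart p hp x y) (hpart p' hp' x y)).trans (le_of_eq ?_))
          ring
      · push Not at hy
        have h1 : g y = bump s p.1 y • w p := by rw [hfar y hy, bump_far hs (hy p hp), zero_smul]
        exact one p hp x y (key x p hp hxp) h1
    · push Not at hx
      by_cases hy : ∃ p' ∈ P, ‖y - p'.1‖ < s
      · obtain ⟨p', hp', hyp⟩ := hy
        have h1 : g x = bump s p'.1 x • w p' := by rw [hfar x hx, bump_far hs (hx p' hp'), zero_smul]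
        exact one p' hp' x y h1 (key y p' hp' hyp)
      · push Not at hy
        rw [hfar x hx, hfar y hy, sub_self, norm_zero]
        positivity

end Pool.Agent.K4H66.KG
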