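import Pool.Agent.K4H66.KG.Hol

set_option autoImplicit false

/-! Bad families which follow a given Hölder continuous map, up to a small perturbation. -/

open MeasureTheory Set Filter Topology ENNReal NNReal Metric
open scoped Classical

namespace Pool.Agent.K4H66.KG

open Pool.Agent.H810R3.Tub

variable {d : ℕ}

/-- A family of slanted tubes with a large critical moment whose axes follow `b₁` gives a violation. -/
theorem viol_of (hd : 1 ≤ d) {β ε σ A E m M : ℝ} {J : ℕ} (hσ : 0 < σ) (hσ1 : σ ≤ 1) (hA : 0 < A)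
    (hJc : 4 * (2 * d + 1) + 1 ≤ (J : ℝ)) (hM : 1 ≤ M) (hE0 : 0 < E)
    (hE : ∀ N : ℝ, 1 ≤ N → ∀ (ι : Type) [Fintype ι] [Nonempty ι] (ω : ι → Vec d)
      (f : ι → Fin d → Space d) (a : ι → Space d), (∀ i, ‖ω i‖ ≤ 1) →
      (∀ i j, i ≠ j → min σ (1 / (8 * d)) / N ≤ ‖ω i - ω j‖) →
      (∀ i, Orthonormal ℝ (Fin.cons (nor (ω i)) (f i) : Fin (d + 1) → Space d)) →
      Ineq N (m * N ^ (β + ε / 2)) ω f a →
      ∫⁻ y, Fb N ω f a y ^ (1 + 1 / (d : ℝ)) ≤
        ENNReal.ofReal (E * N ^ ((β + ε) * (1 + 1 / (d : ℝ))) * N ^ (2 * d + 2)))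
    (P : Finset (Vec d × Space d)) (hsep : Sep (σ / M) P)
    (hP : ∀ p ∈ P, ‖p.1‖ ≤ 1 / 4 ∧ |p.2.snd| ≤ A * M ^ 2) (b₁ : Maps d)
    (hb₁ : ∀ p ∈ P, ∀ h : p.1 ∈ closedBall (0 : Vec d) 1,
      M ^ 2 • b₁ ⟨p.1, h⟩ = p.2.fst + (2 * p.2.snd) • p.1)
    (hint : ENNReal.ofReal ((((VJ d J).card : ℝ) ^ (1 + 1 / (d : ℝ)) * E + 1) *
      (M ^ ((β + ε) * (1 + 1 / (d : ℝ))) * M ^ (2 * d + 2))) ≤
        ∫⁻ y, SF (2 * d + 1) M P y ^ (1 + 1 / (d : ℝ)))
    (b : Maps d) (hb : dist b b₁ < 1 / M) :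
    Viol b (min σ (1 / (8 * d))) (3 * d * J + 1) (A + (1 + d) * J) β (ε / 2) m := by
  have hd0 : (0 : ℝ) < d := by exact_mod_cast hd
  have hd1 : (1 : ℝ) ≤ d := by exact_mod_cast hd
  set q : ℝ := 1 + 1 / (d : ℝ) with hq
  have hq1 : 1 ≤ q := by
    have : 0 < 1 / (d : ℝ) := by positivity
    linarith
  set c : ℝ := 2 * d + 1 with hc
  have hc0 : 0 < c := by positivity
  set σ' : ℝ := min σ (1 / (8 * d)) with hσ'
  have hσ'0 : 0 < σ' := lt_min hσ (by positivity)
  have hσ'2 : σ' ≤ 1 / (8 * d) := min_le_right _ _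
  set n : ℝ := ((VJ d J).card : ℝ) with hn
  have hn0 : 0 < n := by
    have := (VJ_ne d J).card_pos
    rw [hn]
    exact_mod_cast this
  have hnq : 0 < n ^ q := Real.rpow_pos_of_pos hn0 _
  have hM0 : 0 < M := by linarith
  have hP1 : ∀ p ∈ P, p.1 ∈ closedBall (0 : Vec d) 1 := by
    intro p hp
    rw [mem_closedBall, dist_zero_right]
    exact (hP p hp).1.trans (by norm_num)
  obtain ⟨v, hv1, hv2⟩ := exists_disp (c := c) (N := M) (q := q) (J := J) hq1 hM hc0.le hJc P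
    (fun p hp => (hP p hp).1.trans (by norm_num))
  set L : ℕ := ⌈M⌉₊ with hL
  have hML : M ≤ L := Nat.le_ceil M
  have hL2 : (L : ℝ) ≤ 2 * M := by
    have := Nat.ceil_lt_add_one hM0.le
    linarith
  have hL0 : (0 : ℝ) < L := lt_of_lt_of_le hM0 hML
  set s : ℝ := 1 / (4 * d * L) with hs
  have hs0 : 0 < s := by positivity
  have hs1 : s * (d * L) = 1 / 4 := by
    rw [hs]
    field_simp
  have hs2 : 1 / (8 * d) / M ≤ s := by
    rw [hs, div_div, div_le_div_iff₀ (by positivity) (by positivity)]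
    nlinarith
  set ι : Type := ↥P ⊕ (Fin d → Fin L) with hι
  set ω : ι → Vec d := Sum.elim (fun p => p.1.1) (fun k => hv d hd + gp s k) with hω
  have hx : ∀ k : Fin d → Fin L, ‖hv d hd + gp s k‖ ≤ 3 / 4 := by
    intro k
    have h1 := gp_norm hs0.le k
    rw [hs1] at h1
    refine (norm_add_le _ _).trans ?_
    rw [hv_norm]
    linarith
  have hωm : ∀ i, ω i ∈ closedBall (0 : Vec d) 1 := by
    intro i
    rcases i with p | k
    · exact hP1 p.1 p.2
    · rw [mem_closedBall, dist_zero_right]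
      exact (hx k).trans (by norm_num)
  set a : ι → Space d := Sum.elim (fun p => p.1.2 + dsp M p.1.1 v)
    (fun k => WithLp.toLp 2 (if h : hv d hd + gp s k ∈ closedBall (0 : Vec d) 1 then
      M ^ 2 • b₁ ⟨hv d hd + gp s k, h⟩ else 0, (0 : ℝ))) with ha
  have hcaps : Caps σ' 1 M ω (fun i => fr (ω i)) := by
    refine ⟨fun i => ?_, ?_, ?_, fun i => fr_spec _⟩
    · have := hωm i
      rwa [mem_closedBall, dist_zero_right] at this
    · have hfar : ∀ (p : ↥P) (k : Fin d → Fin L), σ' / M ≤ ‖p.1.1 - (hv d hd + gp s k)‖ := by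
        intro p k
        have h1 := le_norm_hv hd hs0.le k
        have h2 : ‖p.1.1‖ ≤ 1 / 4 := (hP p.1 p.2).1
        have h3 := norm_sub_norm_le (hv d hd + gp s k) p.1.1
        rw [norm_sub_rev] at h3
        have h4 : σ' / M ≤ 1 / 4 := by
          rw [div_le_iff₀ hM0]
          have h5 : 1 / (8 * (d : ℝ)) ≤ 1 / 4 := by
            apply div_le_div_of_nonneg_left (by norm_num) (by norm_num)
            linarith
          nlinarith
        linarith
      intro i j hij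
      rcases i with p | k <;> rcases j with p' | k'
      · have h1 : p.1 ≠ p'.1 := fun h => hij (by rw [Subtype.ext h])
        refine le_trans ?_ (hsep p.1 p.2 p'.1 p'.2 h1)
        gcongr
        exact min_le_left _ _
      · exact hfar p k'
      · show σ' / M ≤ ‖(hv d hd + gp s k) - p'.1.1‖
        rw [norm_sub_rev]
        exact hfar p' k
      · have h1 : k ≠ k' := fun h => hij (by rw [h])
        show σ' / M ≤ ‖(hv d hd + gp s k) - (hv d hd + gp s k')‖
        rw [add_sub_add_left_eq_sub]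
        refine le_trans ?_ (gp_sep hs0.le h1)
        refine le_trans ?_ hs2
        gcongr
    · rw [one_mul]
      have h1 : Fintype.card ι = P.card + L ^ d := by
        show Fintype.card (↥P ⊕ (Fin d → Fin L)) = _
        rw [Fintype.card_sum, Fintype.card_coe, Fintype.card_fun, Fintype.card_fin, Fintype.card_fin]
      rw [h1]
      push_cast
      have h2 : M ^ d ≤ (L : ℝ) ^ d := by gcongr
      have h3 : (0 : ℝ) ≤ P.card := Nat.cast_nonneg _
      linarith
  have hbb : ∀ x, ‖M ^ 2 • b₁ x - M ^ 2 • b x‖ ≤ M := by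
    intro x
    have h1 : dist (b x) (b₁ x) ≤ dist b b₁ := ContinuousMap.dist_apply_le_dist x
    rw [dist_comm, dist_eq_norm] at h1
    rw [← smul_sub, norm_smul, Real.norm_of_nonneg (by positivity)]
    calc M ^ 2 * ‖b₁ x - b x‖ ≤ M ^ 2 * (1 / M) := by
          gcongr
          exact h1.trans hb.le
      _ = M := by field_simp
  refine ⟨M, hM, ι, inferInstance, ω, fun i => fr (ω i), a, hcaps, ?_, ?_⟩
  · intro i
    refine ⟨hωm i, ?_, ?_⟩
    · have hgoal : ‖(a i).fst + (2 * (a i).snd) • ω i - M ^ 2 • b₁ ⟨ω i, hωm i⟩‖ ≤ 3 * d * J * M := by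
        rcases i with p | k
        · have h2 : M ^ 2 • b₁ ⟨p.1.1, hP1 p.1 p.2⟩ = p.1.2.fst + (2 * p.1.2.snd) • p.1.1 :=
            hb₁ p.1 p.2 _
          have h3 := (dsp_axis (d := d) hM (ω := p.1.1) ((hP p.1 p.2).1.trans (by norm_num)) hv1).1
          show ‖(p.1.2 + dsp M p.1.1 v).fst + (2 * (p.1.2 + dsp M p.1.1 v).snd) • p.1.1 -
            M ^ 2 • b₁ ⟨p.1.1, hP1 p.1 p.2⟩‖ ≤ _
          rw [h2, WithLp.add_fst, WithLp.add_snd]
          refine le_trans (le_of_eq ?_) h3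
          congr 1
          module
        · have hk : hv d hd + gp s k ∈ closedBall (0 : Vec d) 1 := hωm (Sum.inr k)
          show ‖(if h : hv d hd + gp s k ∈ closedBall (0 : Vec d) 1 then
              M ^ 2 • b₁ ⟨hv d hd + gp s k, h⟩ else 0) + (2 * (0 : ℝ)) • (hv d hd + gp s k) -
              M ^ 2 • b₁ ⟨hv d hd + gp s k, hk⟩‖ ≤ _
          rw [dif_pos hk, mul_zero, zero_smul, add_zero, sub_self, norm_zero]
          positivity
      have e : (a i).fst + (2 * (a i).snd) • ω i - M ^ 2 • b ⟨ω i, hωm i⟩ =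
          ((a i).fst + (2 * (a i).snd) • ω i - M ^ 2 • b₁ ⟨ω i, hωm i⟩) +
            (M ^ 2 • b₁ ⟨ω i, hωm i⟩ - M ^ 2 • b ⟨ω i, hωm i⟩) := by abel
      rw [e]
      refine (norm_add_le _ _).trans ?_
      have := hbb ⟨ω i, hωm i⟩
      nlinarith
    · rcases i with p | k
      · show |(p.1.2 + dsp M p.1.1 v).snd| ≤ _
        rw [WithLp.add_snd]
        refine (abs_add_le _ _).trans ?_
        have h3 := (dsp_axis (d := d) hM (ω := p.1.1) ((hP p.1 p.2).1.trans (by norm_num)) hv1).2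
        have h4 := (hP p.1 p.2).2
        calc |p.1.2.snd| + |(dsp M p.1.1 v).snd| ≤ A * M ^ 2 + (1 + d) * J * M ^ 2 := add_le_add h4 h3
          _ = _ := by ring
      · show |(0 : ℝ)| ≤ _
        rw [abs_zero]
        positivity
  · intro hI
    have hne : Nonempty ι := by
      have : 0 < L := by exact_mod_cast hL0
      exact ⟨Sum.inr fun _ => ⟨0, this⟩⟩
    have h1 := hE M hM ι ω (fun i => fr (ω i)) a hcaps.1 hcaps.2.1 hcaps.2.2.2 hI
    have h2 : ∫⁻ y, BF M P v y ^ q ≤ ∫⁻ y, Fb M ω (fun i => fr (ω i)) a y ^ q := by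
      refine lintegral_mono fun y => ENNReal.rpow_le_rpow ?_ (by linarith)
      have h5 : Fb M ω (fun i => fr (ω i)) a y =
          ∑ p : ↥P, (box M (nor (ω (Sum.inl p))) (fr (ω (Sum.inl p))) (a (Sum.inl p))).indicator
            (fun _ => (1 : ℝ≥0∞)) y +
          ∑ k : Fin d → Fin L, (box M (nor (ω (Sum.inr k))) (fr (ω (Sum.inr k))) (a (Sum.inr k))).indicator
            (fun _ => (1 : ℝ≥0∞)) y := Fintype.sum_sum_type _
      have h6 : BF M P v y = ∑ p : ↥P, (box M (nor (ω (Sum.inl p))) (fr (ω (Sum.inl p)))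
          (a (Sum.inl p))).indicator (fun _ => (1 : ℝ≥0∞)) y := by
        unfold BF
        exact (Finset.sum_coe_sort P (fun p => (box M (nor p.1) (fr p.1) (p.2 + dsp M p.1 v)).indicator
          (fun _ => (1 : ℝ≥0∞)) y)).symm
      rw [h5, h6]
      exact le_self_add
    set X : ℝ := M ^ ((β + ε) * q) * M ^ (2 * d + 2) with hX
    have hX0 : 0 < X := by positivity
    have h3 : ENNReal.ofReal ((n ^ q * E + 1) * X) ≤ ENNReal.ofReal (n ^ q * E * X) := by
      calc ENNReal.ofReal ((n ^ q * E + 1) * X) ≤ ∫⁻ y, SF c M P y ^ q := hint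
        _ ≤ ((VJ d J).card : ℝ≥0∞) ^ q * ∫⁻ y, BF M P v y ^ q := hv2
        _ ≤ ENNReal.ofReal (n ^ q) * ENNReal.ofReal (E * M ^ ((β + ε) * q) * M ^ (2 * d + 2)) := by
            have e : ((VJ d J).card : ℝ≥0∞) ^ q = ENNReal.ofReal (n ^ q) := by
              rw [← ENNReal.ofReal_rpow_of_pos hn0, hn, ENNReal.ofReal_natCast]
            rw [e]
            exact mul_le_mul' le_rfl (h2.trans h1)
        _ = _ := by
            rw [← ENNReal.ofReal_mul hnq.le, hX]
            congr 1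
            ring
    rw [ENNReal.ofReal_le_ofReal_iff (by positivity)] at h3
    linarith

theorem sum_rpow {κ : Type} (I : Finset κ) (f : κ → ℝ≥0∞) {q : ℝ} (hq : 1 ≤ q) :
    ∑ k ∈ I, f k ^ q ≤ (∑ k ∈ I, f k) ^ q := by
  induction I using Finset.induction_on with
  | empty => simp
  | insert a s ha ih =>
    rw [Finset.sum_insert ha, Finset.sum_insert ha]
    exact (add_le_add le_rfl ih).trans (ENNReal.add_rpow_le_rpow_add _ _ hq)

/-- The copies of a family in many small caps. -/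
noncomputable def many {L : ℕ} (s ρ : ℝ) (v : (Fin d → Fin L) → Vec d) (U : Finset (Vec d × Space d)) :
    Finset (Vec d × Space d) :=
  Finset.univ.biUnion (fun k : Fin d → Fin L => sh (gp s k) (sc ρ (v k) U))

theorem mem_many {L : ℕ} {s ρ : ℝ} {v : (Fin d → Fin L) → Vec d} {U : Finset (Vec d × Space d)}
    {p : Vec d × Space d} : p ∈ many s ρ v U ↔
      ∃ k, ∃ r ∈ U, p = (ρ • r.1 + gp s k, G (gp s k) (Z ρ (v k) r.2)) := by
  unfold many sh sc
  simp only [Finset.mem_biUnion, Finset.mem_univ, true_and, Finset.mem_image, exists_exists_and_eq_and]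
  constructor
  · rintro ⟨k, r, hr, rfl⟩
    exact ⟨k, r, hr, rfl⟩
  · rintro ⟨k, r, hr, rfl⟩
    exact ⟨k, r, hr, rfl⟩

theorem int_many {L : ℕ} {s ρ c N q B : ℝ} (hq : 1 ≤ q) (hρ : 0 < ρ) (hs : 0 < s) (hB : 2 * (ρ * B) < s)
    (v : (Fin d → Fin L) → Vec d) (U : Finset (Vec d × Space d)) (hU : ∀ p ∈ U, ‖p.1‖ ≤ B) :
    ((L ^ d : ℕ) : ℝ≥0∞) * ∫⁻ y, SF c N U y ^ q ≤
      ENNReal.ofReal (ρ ^ (d + 2)) * ∫⁻ y, SF c (N / ρ) (many s ρ v U) y ^ q := by
  have hdis : (↑(Finset.univ : Finset (Fin d → Fin L)) : Set (Fin d → Fin L)).PairwiseDisjoint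
      (fun k => sh (gp s k) (sc ρ (v k) U)) := by
    intro k _ k' _ hne
    rw [Function.onFun, Finset.disjoint_left]
    intro p hp hp'
    unfold sh sc at hp hp'
    simp only [Finset.mem_image, exists_exists_and_eq_and] at hp hp'
    obtain ⟨r, hr, rfl⟩ := hp
    obtain ⟨r', hr', h⟩ := hp'
    simp only [Prod.mk.injEq] at h
    have h1 := gp_sep hs.le hne
    have h2 : gp s k - gp s k' = ρ • r'.1 - ρ • r.1 := by
      have := h.1
      rw [sub_eq_sub_iff_add_eq_add, add_comm, ← this, add_comm]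
    rw [h2, ← smul_sub, norm_smul, Real.norm_of_nonneg hρ.le] at h1
    have h3 : ‖r'.1 - r.1‖ ≤ B + B := (norm_sub_le _ _).trans (add_le_add (hU r' hr') (hU r hr))
    have h4 : ρ * ‖r'.1 - r.1‖ ≤ ρ * (B + B) := by gcongr
    linarith
  have h1 : ∀ y, SF c (N / ρ) (many s ρ v U) y =
      ∑ k : Fin d → Fin L, SF c (N / ρ) (sh (gp s k) (sc ρ (v k) U)) y := by
    intro y
    unfold many
    unfold SF
    rw [Finset.sum_biUnion hdis]
  have h2 : ∑ k : Fin d → Fin L, ∫⁻ y, SF c (N / ρ) (sh (gp s k) (sc ρ (v k) U)) y ^ q ≤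
      ∫⁻ y, SF c (N / ρ) (many s ρ v U) y ^ q := by
    rw [← lintegral_finsetSum _ (fun k _ => (SF_meas _ _ _).pow_const _)]
    refine lintegral_mono fun y => ?_
    simp only
    rw [h1]
    exact sum_rpow _ _ hq
  refine le_trans (le_of_eq ?_) (mul_le_mul' le_rfl h2)
  rw [Finset.mul_sum]
  have h3 : ∀ k : Fin d → Fin L, ENNReal.ofReal (ρ ^ (d + 2)) *
      ∫⁻ y, SF c (N / ρ) (sh (gp s k) (sc ρ (v k) U)) y ^ q = ∫⁻ y, SF c N U y ^ q := by
    intro k
    rw [int_sh, ← int_sc hρ]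
  rw [Finset.sum_congr rfl (fun k _ => h3 k), Finset.sum_const, Finset.card_univ, Fintype.card_fun,
    Fintype.card_fin, Fintype.card_fin, nsmul_eq_mul]

end Pool.Agent.K4H66.KG
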