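import Pool.Agent.K4H66.KG.HolMain
import Pool.Agent.K4H66.KG.Gen

set_option autoImplicit false

/-! The zero-one law in the Hölder classes. -/

open MeasureTheory Set Filter Topology ENNReal NNReal Metric
open scoped Classical

namespace Pool.Agent.K4H66.KG

open Pool.Agent.H810R3.Tub

variable {d : ℕ}

theorem not_lossOn_hol (hd : 1 ≤ d) {α : ℝ} (h0 : 0 ≤ α) (h1 : α < 1) {β : ℝ} (hβ : 0 ≤ β)
    (h : ¬ LossAll d β) : ∀ᶠ b in residual (Hol d α), ¬ LossOn b.1 ((1 - α) * β) := by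
  obtain ⟨ε, σ, K, S, hε, hσ, hfull⟩ := hol_full hd h0 h1 hβ h
  have h1 : ∀ m : ℕ, ∀ᶠ b in residual (Hol d α), Viol b.1 σ K S ((1 - α) * β) ε ((m : ℝ) + 1) := by
    intro m
    apply residual_of_near {b : Hol d α | Viol b.1 σ K S ((1 - α) * β) ε ((m : ℝ) + 1)}
    intro b₀ η hη
    obtain ⟨b₁, hb₁, hdist, r, hr, hv⟩ := hfull ((m : ℝ) + 1) (by positivity) b₀.1 b₀.2 η hη
    exact ⟨⟨b₁, hb₁⟩, hdist, r, hr, fun b hb => hv b.1 hb⟩
  have h2 : ∀ᶠ b in residual (Hol d α), ∀ m : ℕ, Viol b.1 σ K S ((1 - α) * β) ε ((m : ℝ) + 1) :=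
    eventually_countable_forall.2 h1
  filter_upwards [h2] with b hb hL
  obtain ⟨C, hC⟩ := hL ε σ 1 K S hε hσ one_pos
  obtain ⟨m, hm⟩ := exists_nat_ge C
  obtain ⟨N, hN, ι, _, ω, f, a, hc, hf, hn⟩ := hb m
  apply hn
  refine ineq_mono (hC N hN ι ω f a hc hf) ?_
  have h3 : 0 < N ^ ((1 - α) * β + ε) := Real.rpow_pos_of_pos (by linarith) _
  gcongr
  linarith

/-- **The zero-one law in the Hölder classes.** -/
theorem zero_one_hol (hd : 1 ≤ d) {α : ℝ} (h0 : 0 ≤ α) (h1 : α < 1) :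
    ∀ᶠ b in residual (Hol d α), ∀ β : ℝ, 0 ≤ β → LossOn b.1 ((1 - α) * β) → LossAll d β := by
  have h1' : ∀ᶠ b in residual (Hol d α), ∀ r : ℚ, (0 : ℝ) ≤ r → ¬ LossAll d r → ¬ LossOn b.1 ((1 - α) * r) := by
    apply eventually_countable_forall.2
    intro r
    by_cases h : (0 : ℝ) ≤ r ∧ ¬ LossAll d r
    · filter_upwards [not_lossOn_hol hd h0 h1 h.1 h.2] with b hb _ _
      exact hb
    · filter_upwards with b h2 h3
      exact absurd ⟨h2, h3⟩ h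
  filter_upwards [h1'] with b hb β hβ hL
  by_contra hn
  obtain ⟨r, hr1, hr2, hr3⟩ := exists_rat hβ hn
  exact hb r hr2 hr3 (lossOn_mono (mul_le_mul_of_nonneg_left hr1 (by linarith)) hL)

end Pool.Agent.K4H66.KG
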