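import Pool.Agent.K4H66.KG.HolFull

set_option autoImplicit false

/-! Violations near every Hölder continuous map. -/

open MeasureTheory Set Filter Topology ENNReal NNReal Metric
open scoped Classical

namespace Pool.Agent.K4H66.KG

open Pool.Agent.H810R3.Tub

variable {d : ℕ}

/-- The maps which are Hölder continuous with exponent `α` and constant one, with the uniform metric. -/
def Hol (d : ℕ) (α : ℝ) : Set (Maps d) := {b | ∀ x y, ‖b x - b y‖ ≤ ‖x.1 - y.1‖ ^ α}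

theorem arith_aux {K Me Md ρd2 re Ld Cd ρd : ℝ} (hMe : 0 < Me) (hre : 0 < re) (hMd : 0 < Md)
    (hρd2 : 0 < ρd2) (hK : 0 < K) (h : 1 ≤ Ld * Cd * ρd) :
    K * (Me * Md) * ρd2 ≤ Ld * (K * Cd / re * (re * Me) * (ρd * ρd2 * Md)) := by
  have h1 : 0 ≤ K * (Me * Md) * ρd2 := by positivity
  calc K * (Me * Md) * ρd2 = 1 * (K * (Me * Md) * ρd2) := (one_mul _).symm
    _ ≤ (Ld * Cd * ρd) * (K * (Me * Md) * ρd2) := mul_le_mul_of_nonneg_right h h1
    _ = _ := by field_simp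

theorem cancel_aux {a X : ℝ} (ha : 0 < a) (hX : 0 ≤ X) {I : ENNReal}
    (h : ENNReal.ofReal (X * a) ≤ ENNReal.ofReal a * I) : ENNReal.ofReal X ≤ I := by
  rw [ENNReal.ofReal_mul hX, mul_comm] at h
  exact (ENNReal.mul_le_mul_iff_right (ENNReal.ofReal_pos.2 ha).ne' ENNReal.ofReal_ne_top).1 h

theorem interp_min {x a b α : ℝ} (hx : 0 ≤ x) (h0 : 0 ≤ α) (h1 : α ≤ 1) (ha : x ≤ a) (hb : x ≤ b) :
    x ≤ a ^ (1 - α) * b ^ α := by
  have e : x = x ^ (1 - α) * x ^ α := by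
    rcases hx.eq_or_lt with h | h
    · rw [← h]
      rcases h0.eq_or_lt with h2 | h2
      · rw [← h2, sub_zero, Real.rpow_one, Real.rpow_zero, zero_mul]
      · rw [Real.zero_rpow h2.ne', mul_zero]
    · rw [← Real.rpow_add h, sub_add_cancel, Real.rpow_one]
  calc x = x ^ (1 - α) * x ^ α := e
    _ ≤ a ^ (1 - α) * b ^ α := by
        apply mul_le_mul (Real.rpow_le_rpow hx ha (by linarith)) (Real.rpow_le_rpow hx hb h0)
          (Real.rpow_nonneg hx _) (Real.rpow_nonneg (hx.trans ha) _)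

/-- **Violations near every Hölder map.** -/
theorem hol_full (hd : 1 ≤ d) {α : ℝ} (h0 : 0 ≤ α) (h1 : α < 1) {β : ℝ} (hβ : 0 ≤ β) (hneg : ¬ LossAll d β) :
    ∃ ε σ K S : ℝ, 0 < ε ∧ 0 < σ ∧ ∀ m : ℝ, 0 < m → ∀ b₀ ∈ Hol d α, ∀ η : ℝ, 0 < η →
      ∃ b₁ ∈ Hol d α, dist b₁ b₀ < η ∧ ∃ r : ℝ, 0 < r ∧ ∀ b : Maps d, dist b b₁ < r →
        Viol b σ K S ((1 - α) * β) ε m := by
  obtain ⟨ε, σ, A₀, hε, hσ, hσ1, hA₀, hbad₀⟩ := bad hd hβ hneg
  have hd0 : (0 : ℝ) < d := by exact_mod_cast hd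
  have hd1 : (1 : ℝ) ≤ d := by exact_mod_cast hd
  have hα : 0 < 1 - α := by linarith
  set q : ℝ := 1 + 1 / (d : ℝ) with hq
  have hq1 : 1 ≤ q := by
    have : 0 < 1 / (d : ℝ) := by positivity
    linarith
  set c : ℝ := 2 * d + 1 with hc
  have hc0 : 0 < c := by positivity
  set J : ℕ := ⌈4 * c + 1⌉₊ with hJ
  have hJc : 4 * (2 * d + 1) + 1 ≤ (J : ℝ) := Nat.le_ceil _
  set A : ℝ := max A₀ 1 with hA'
  have hA1 : 1 ≤ A := le_max_right _ _
  have hA : 0 < A := by linarith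
  refine ⟨(1 - α) * ε / 2, min σ (1 / (8 * d)), 3 * d * J + 1, A + (1 + d) * J, by positivity,
    lt_min hσ (by positivity), ?_⟩
  intro m hm b₀ hb₀ η hη
  obtain ⟨E, hE0, hE⟩ := crit d hd (min σ (1 / (8 * d))) ((1 - α) * β) ((1 - α) * ε) ((1 - α) * ε / 2)
    (by positivity) (by positivity) (by
      have : 0 < (1 - α) * ε := by positivity
      linarith) (lt_min hσ (by positivity)) ((min_le_left _ _).trans hσ1) m hm
  set n : ℝ := ((VJ d J).card : ℝ) with hn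
  have hn0 : 0 < n := by
    have := (VJ_ne d J).card_pos
    rw [hn]
    exact_mod_cast this
  have hnq : 0 < n ^ q := Real.rpow_pos_of_pos hn0 _
  -- parameters
  set B : ℝ := ‖b₀‖ with hB
  have hB0 : 0 ≤ B := norm_nonneg _
  set δ : ℝ := min (1 / 2) (η / (4 * (B + 1))) with hδ
  have hδ0 : 0 < δ := lt_min (by norm_num) (by positivity)
  have hδ2 : δ ≤ 1 / 2 := min_le_left _ _
  have hδB : δ * B ≤ η / 4 := by
    have h2 : δ ≤ η / (4 * (B + 1)) := min_le_right _ _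
    calc δ * B ≤ η / (4 * (B + 1)) * (B + 1) := by
          apply mul_le_mul h2 (by linarith) hB0 (by positivity)
      _ = η / 4 := by field_simp
  set R : ℝ := 1 + 4 / δ with hR
  have hR2 : 2 ≤ R := by
    have : 1 ≤ 4 / δ := by
      rw [le_div_iff₀ hδ0]
      linarith
    linarith
  have hRδ : 2 / (R - 1) = δ / 2 := by
    rw [hR]
    field_simp
    norm_num
  have hR0 : 0 < R := by linarith
  have huc : UniformContinuous b₀ := CompactSpace.uniformContinuous_of_continuous b₀.continuous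
  obtain ⟨ρ₁, hρ₁, hcont⟩ := Metric.uniformContinuous_iff.1 huc (η / 4) (by positivity)
  set ρm : ℝ := min 1 (min (1 / (24 * R * A * d)) (min (ρ₁ / (2 * A)) (min (η / (8 * A))
    ((δ * σ / (8 * A)) ^ (1 / (1 - α)))))) with hρm
  have hρm0 : 0 < ρm := lt_min one_pos (lt_min (by positivity) (lt_min (by positivity)
    (lt_min (by positivity) (by positivity))))
  have hm1 : ρm ≤ 1 := min_le_left _ _
  have hm2 : ρm ≤ 1 / (24 * R * A * d) := (min_le_right _ _).trans (min_le_left _ _)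
  have hm3 : ρm ≤ ρ₁ / (2 * A) := (min_le_right _ _).trans ((min_le_right _ _).trans (min_le_left _ _))
  have hm4 : ρm ≤ η / (8 * A) :=
    (min_le_right _ _).trans ((min_le_right _ _).trans ((min_le_right _ _).trans (min_le_left _ _)))
  have hm5 : ρm ≤ (δ * σ / (8 * A)) ^ (1 / (1 - α)) :=
    (min_le_right _ _).trans ((min_le_right _ _).trans ((min_le_right _ _).trans (min_le_right _ _)))
  set e₁ : ℝ := (1 - α) * (β + ε) * q with he₁
  have hρe : 0 < ρm ^ e₁ := Real.rpow_pos_of_pos hρm0 _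
  set m₁ : ℝ := (n ^ q * E + 1) * (48 * d * R * A) ^ d / ρm ^ e₁ with hm₁
  obtain ⟨N, hN, U, hUsep, hU₀, hint⟩ := hbad₀ m₁ 1 (by positivity) one_pos le_rfl 0
  have hN0 : 0 < N := by linarith
  have hU : ∀ p ∈ U, ‖p.1‖ ≤ A ∧ ‖p.2.fst + (2 * p.2.snd) • p.1‖ ≤ A * N ^ 2 ∧ |p.2.snd| ≤ A * N ^ 2 := by
    intro p hp
    obtain ⟨g1, g2, g3⟩ := hU₀ p hp
    have hAA : A₀ ≤ A := le_max_left _ _
    rw [smul_zero, sub_zero, mul_one] at g2
    rw [mul_one] at g1
    exact ⟨g1.trans hAA, g2.trans (by gcongr), g3.trans (by gcongr)⟩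
  -- the scale
  set ρ : ℝ := ρm * N ^ (-(α / (1 - α))) with hρ
  have hNα : 0 < N ^ (-(α / (1 - α))) := Real.rpow_pos_of_pos hN0 _
  have hρ0 : 0 < ρ := by positivity
  have hρle : ρ ≤ ρm := by
    have h2 : N ^ (-(α / (1 - α))) ≤ 1 := Real.rpow_le_one_of_one_le_of_nonpos hN (by
      have : 0 ≤ α / (1 - α) := by positivity
      linarith)
    calc ρ ≤ ρm * 1 := by rw [hρ]; gcongr
      _ = ρm := mul_one _
  set M : ℝ := N / ρ with hM
  have hMN : N = ρ * M := by rw [hM]; field_simp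
  have hM1 : 1 ≤ M := by
    rw [hM, le_div_iff₀ hρ0]
    linarith
  have hM0 : 0 < M := by linarith
  have hρN : ρ ^ (1 - α) * N ^ α = ρm ^ (1 - α) := by
    rw [hρ, Real.mul_rpow hρm0.le hNα.le, ← Real.rpow_mul hN0.le, mul_assoc, ← Real.rpow_add hN0]
    have : -(α / (1 - α)) * (1 - α) + α = 0 := by field_simp; ring
    rw [this, Real.rpow_zero, mul_one]
  have hNM : N ^ (1 / (1 - α)) = ρm * M := by
    have h2 : ρm * M = ρm * N / ρ := by rw [hM]; ring
    rw [h2, hρ, mul_div_mul_left _ _ hρm0.ne', Real.rpow_neg hN0.le, div_inv_eq_mul]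
    have h3 : (1 : ℝ) / (1 - α) = 1 + α / (1 - α) := by field_simp; ring
    rw [h3, Real.rpow_add hN0, Real.rpow_one]
  set a : ℝ := A * ρ with ha
  have ha0 : 0 < a := by positivity
  set s : ℝ := 3 * (R * a) with hs
  have hs0 : 0 < s := by positivity
  have hsd : s ≤ 1 / (8 * d) := by
    calc s = 3 * R * A * ρ := by rw [hs, ha]; ring
      _ ≤ 3 * R * A * (1 / (24 * R * A * d)) := by
          gcongr
          exact hρle.trans hm2
      _ = 1 / (8 * d) := by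
          field_simp
          norm_num
  set L : ℕ := ⌊1 / (8 * d * s)⌋₊ with hL
  have hx1 : 1 ≤ 1 / (8 * d * s) := by
    rw [le_div_iff₀ (by positivity), one_mul]
    calc 8 * d * s ≤ 8 * d * (1 / (8 * d)) := by gcongr
      _ = 1 := by field_simp
  have hL1 : (L : ℝ) ≤ 1 / (8 * d * s) := Nat.floor_le (by positivity)
  have hL2 : 1 / (16 * d * s) ≤ (L : ℝ) := by
    have h2 : 1 / (8 * d * s) < L + 1 := Nat.lt_floor_add_one _
    have h3 : (1 : ℝ) ≤ L := by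
      have : 1 ≤ L := Nat.le_floor (by exact_mod_cast hx1)
      exact_mod_cast this
    have h4 : 1 / (16 * d * s) = 1 / (8 * d * s) / 2 := by
      field_simp
      norm_num
    rw [h4]
    linarith
  have hL48 : 1 ≤ L * (48 * d * R * A * ρ) := by
    calc 1 = 1 / (16 * d * s) * (48 * d * R * A * ρ) := by
          rw [hs, ha]
          field_simp
          norm_num
      _ ≤ L * (48 * d * R * A * ρ) := by gcongr
  have hgp : ∀ k : Fin d → Fin L, ‖gp s k‖ ≤ 1 / 8 := by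
    intro k
    refine (gp_norm hs0.le k).trans ?_
    calc s * (d * L) ≤ s * (d * (1 / (8 * d * s))) := by gcongr
      _ = 1 / 8 := by field_simp
  have hRa : R * a ≤ 1 / 8 := by
    have h2 : 1 / (8 * (d : ℝ)) ≤ 1 / 8 := by
      apply div_le_div_of_nonneg_left (by norm_num) (by norm_num)
      linarith
    have h3 : 0 < R * a := by positivity
    linarith
  have haa : a ≤ 1 / 8 := by nlinarith
  set C : Finset (Vec d) := Finset.univ.image (gp (d := d) (L := L) s) with hC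
  have hCsep : ∀ c ∈ C, ∀ c' ∈ C, c ≠ c' → 3 * (R * a) ≤ ‖c - c'‖ := by
    intro c hc c' hc' hne
    rw [hC, Finset.mem_image] at hc hc'
    obtain ⟨k, _, rfl⟩ := hc
    obtain ⟨k', _, rfl⟩ := hc'
    exact gp_sep hs0.le (fun h => hne (by rw [h]))
  have hC1 : ∀ c ∈ C, ‖c‖ + R * a ≤ 1 := by
    intro c hc
    rw [hC, Finset.mem_image] at hc
    obtain ⟨k, _, rfl⟩ := hc
    have := hgp k
    linarith
  have hkC : ∀ k : Fin d → Fin L, gp s k ∈ C := fun k => by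
    rw [hC]
    exact Finset.mem_image_of_mem _ (Finset.mem_univ k)
  have hkm : ∀ k : Fin d → Fin L, gp s k ∈ closedBall (0 : Vec d) 1 := fun k => by
    rw [mem_closedBall, dist_zero_right]
    have := hgp k
    linarith
  set T : Vec d → Vec d := Tm a (slo R) C with hT
  have hTlip : ∀ x y, ‖T x - T y‖ ≤ (1 + δ / 2) * ‖x - y‖ := by
    intro x y
    have := Tm_lip ha0 hR2 hCsep x y
    rwa [hRδ] at this
  have hTc : Continuous T := by
    have : LipschitzWith ⟨1 + δ / 2, by positivity⟩ T := LipschitzWith.of_dist_le_mul fun x y => by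
      rw [dist_eq_norm, dist_eq_norm]
      exact hTlip x y
    exact this.continuous
  have hTm : ∀ x ∈ closedBall (0 : Vec d) 1, T x ∈ closedBall (0 : Vec d) 1 := by
    intro x hx
    rw [mem_closedBall, dist_zero_right] at hx ⊢
    exact Tm_mem ha0 hR2 hCsep hC1 hx
  set v : (Fin d → Fin L) → Vec d := fun k => M ^ 2 • ((1 - δ) • b₀ ⟨gp s k, hkm k⟩) with hv
  set P : Finset (Vec d × Space d) := many s ρ v U with hP
  -- the directions and the axes of the family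
  have hdir : ∀ (k : Fin d → Fin L), ∀ r ∈ U, T (ρ • r.1 + gp s k) = gp s k := by
    intro k r hr
    apply Tm_center ha0 hR2 hCsep (hkC k)
    rw [add_sub_cancel_right, norm_smul, Real.norm_of_nonneg hρ0.le, ha, mul_comm A ρ]
    gcongr
    exact (hU r hr).1
  have haxis : ∀ (k : Fin d → Fin L) (r : Vec d × Space d),
      (G (gp s k) (Z ρ (v k) r.2)).fst + (2 * (G (gp s k) (Z ρ (v k) r.2)).snd) • (ρ • r.1 + gp s k) =
        v k + ρ⁻¹ • (r.2.fst + (2 * r.2.snd) • r.1) := by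
    intro k r
    simp only [G_fst, G_snd, Z_fst, Z_snd]
    have e2 : (2 * ((ρ ^ 2)⁻¹ * r.2.snd)) • (ρ • r.1 + gp s k) =
        (ρ⁻¹ * (2 * r.2.snd)) • r.1 + (2 * ((ρ ^ 2)⁻¹ * r.2.snd)) • gp s k := by
      rw [smul_add, smul_smul, show 2 * ((ρ ^ 2)⁻¹ * r.2.snd) * ρ = ρ⁻¹ * (2 * r.2.snd) by field_simp]
    rw [e2]
    module
  have hPmem : ∀ p ∈ P, ‖p.1‖ ≤ 1 / 4 ∧ |p.2.snd| ≤ A * M ^ 2 := by
    intro p hp
    obtain ⟨k, r, hr, rfl⟩ := mem_many.1 hp
    obtain ⟨g1, g2, g3⟩ := hU r hr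
    refine ⟨?_, ?_⟩
    · refine (norm_add_le _ _).trans ?_
      rw [norm_smul, Real.norm_of_nonneg hρ0.le]
      have h2 := hgp k
      have h3 : ρ * ‖r.1‖ ≤ a := by
        rw [ha, mul_comm A ρ]
        gcongr
      linarith
    · simp only [G_snd, Z_snd]
      rw [abs_mul, abs_of_pos (by positivity : 0 < (ρ ^ 2)⁻¹)]
      calc (ρ ^ 2)⁻¹ * |r.2.snd| ≤ (ρ ^ 2)⁻¹ * (A * N ^ 2) := by gcongr
        _ = A * M ^ 2 := by
            rw [hMN]
            field_simp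
  have hσM : σ / M ≤ ρ := by
    rw [div_le_iff₀ hM0, ← hMN]
    linarith
  have hPsep : Sep (σ / M) P := by
    intro p hp p' hp' hne
    obtain ⟨k, r, hr, rfl⟩ := mem_many.1 hp
    obtain ⟨k', r', hr', rfl⟩ := mem_many.1 hp'
    simp only
    by_cases hkk : k = k'
    · subst hkk
      have hrr : r ≠ r' := fun h => hne (by rw [h])
      rw [add_sub_add_right_eq_sub, ← smul_sub, norm_smul, Real.norm_of_nonneg hρ0.le]
      calc σ / M = ρ * (σ / N) := by rw [hM]; field_simp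
        _ ≤ _ := by
            gcongr
            exact hUsep r hr r' hr' hrr
    · have h2 := gp_sep hs0.le hkk
      have h3 : ‖gp s k - gp s k'‖ ≤ ‖(ρ • r.1 + gp s k) - (ρ • r'.1 + gp s k')‖ + ‖ρ • r'.1 - ρ • r.1‖ := by
        have e2 : gp s k - gp s k' = ((ρ • r.1 + gp s k) - (ρ • r'.1 + gp s k')) + (ρ • r'.1 - ρ • r.1) := by
          abel
        conv_lhs => rw [e2]
        exact norm_add_le _ _
      have h4 : ‖ρ • r'.1 - ρ • r.1‖ ≤ a + a := by
        have h5 : ∀ r ∈ U, ‖ρ • r.1‖ ≤ a := by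
          intro r hr
          rw [norm_smul, Real.norm_of_nonneg hρ0.le, ha, mul_comm A ρ]
          gcongr
          exact (hU r hr).1
        exact (norm_sub_le _ _).trans (add_le_add (h5 r' hr') (h5 r hr))
      have h5 : 6 * a ≤ s := by rw [hs]; nlinarith
      have h6 : ρ ≤ a := by rw [ha]; nlinarith
      linarith
  -- the perturbation
  set w : Vec d × Space d → Vec d := fun p =>
    if h : p.1 ∈ closedBall (0 : Vec d) 1 then
      (M ^ 2)⁻¹ • (p.2.fst + (2 * p.2.snd) • p.1) - (1 - δ) • b₀ ⟨T p.1, hTm _ h⟩ else 0 with hw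
  have hP1 : ∀ p ∈ P, p.1 ∈ closedBall (0 : Vec d) 1 := by
    intro p hp
    rw [mem_closedBall, dist_zero_right]
    exact (hPmem p hp).1.trans (by norm_num)
  have hwle : ∀ p ∈ P, ‖w p‖ ≤ a := by
    intro p hp
    have hp1 := hP1 p hp
    obtain ⟨k, r, hr, rfl⟩ := mem_many.1 hp
    rw [hw]
    simp only
    rw [dif_pos hp1, haxis]
    have e2 : b₀ ⟨T (ρ • r.1 + gp s k), hTm _ hp1⟩ = b₀ ⟨gp s k, hkm k⟩ := by
      congr 1
      exact Subtype.ext (hdir k r hr)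
    rw [e2, hv]
    simp only
    rw [smul_add, smul_smul, inv_mul_cancel₀ (by positivity), one_smul, add_sub_cancel_left, norm_smul,
      norm_smul, norm_inv, norm_inv, Real.norm_of_nonneg hρ0.le, Real.norm_of_nonneg (by positivity)]
    calc (M ^ 2)⁻¹ * (ρ⁻¹ * ‖r.2.fst + (2 * r.2.snd) • r.1‖) ≤ (M ^ 2)⁻¹ * (ρ⁻¹ * (A * N ^ 2)) := by
          gcongr
          exact (hU r hr).2.1
      _ = a := by
          rw [ha, hMN]
          field_simp
  obtain ⟨g, hg1, hg2, hg3, hg4⟩ := pert_lip (s := σ / M / 2) (by positivity) ha0.le P (by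
    have e2 : 2 * (σ / M / 2) = σ / M := by ring
    rw [e2]
    exact hPsep) w hwle
  have hghol : ∀ x y, ‖g x - g y‖ ≤ δ / 2 * ‖x - y‖ ^ α := by
    intro x y
    have h2 : ‖g x - g y‖ ≤ 2 * a := by
      refine (norm_sub_le _ _).trans ?_
      have := hg2 x
      have := hg2 y
      linarith
    have h3 : ‖g x - g y‖ ≤ 4 * A * N / σ * ‖x - y‖ := by
      refine (hg4 x y).trans (le_of_eq ?_)
      rw [ha, hMN]
      field_simp
      ring
    refine (interp_min (norm_nonneg _) h0 h1.le h2 h3).trans ?_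
    have h4 : (2 * a) ^ (1 - α) = (2 * A) ^ (1 - α) * ρ ^ (1 - α) := by
      rw [ha, ← mul_assoc, Real.mul_rpow (by positivity) hρ0.le]
    have h5 : (4 * A * N / σ * ‖x - y‖) ^ α = (4 * A / σ) ^ α * N ^ α * ‖x - y‖ ^ α := by
      rw [Real.mul_rpow (by positivity) (norm_nonneg _)]
      congr 1
      rw [← Real.mul_rpow (by positivity) hN0.le]
      congr 1
      ring
    have h6 : (2 * A) ^ (1 - α) ≤ (4 * A / σ) ^ (1 - α) := by
      apply Real.rpow_le_rpow (by positivity) _ hα.le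
      rw [le_div_iff₀ hσ]
      nlinarith
    have h7 : (4 * A / σ) ^ (1 - α) * (4 * A / σ) ^ α = 4 * A / σ := by
      rw [← Real.rpow_add (by positivity), sub_add_cancel, Real.rpow_one]
    have h8 : ρm ^ (1 - α) ≤ δ * σ / (8 * A) := by
      calc ρm ^ (1 - α) ≤ ((δ * σ / (8 * A)) ^ (1 / (1 - α))) ^ (1 - α) :=
            Real.rpow_le_rpow hρm0.le hm5 hα.le
        _ = δ * σ / (8 * A) := by
            rw [← Real.rpow_mul (by positivity), one_div_mul_cancel hα.ne', Real.rpow_one]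
    rw [h4, h5]
    have hxy : 0 ≤ ‖x - y‖ ^ α := Real.rpow_nonneg (norm_nonneg _) _
    calc (2 * A) ^ (1 - α) * ρ ^ (1 - α) * ((4 * A / σ) ^ α * N ^ α * ‖x - y‖ ^ α)
        = (2 * A) ^ (1 - α) * (4 * A / σ) ^ α * (ρ ^ (1 - α) * N ^ α) * ‖x - y‖ ^ α := by ring
      _ ≤ (4 * A / σ) ^ (1 - α) * (4 * A / σ) ^ α * (ρ ^ (1 - α) * N ^ α) * ‖x - y‖ ^ α := by gcongr
      _ = 4 * A / σ * ρm ^ (1 - α) * ‖x - y‖ ^ α := by rw [h7, hρN]
      _ ≤ 4 * A / σ * (δ * σ / (8 * A)) * ‖x - y‖ ^ α := by gcongr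
      _ = δ / 2 * ‖x - y‖ ^ α := by
          congr 1
          field_simp
          norm_num
  have hc1 : Continuous fun x : closedBall (0 : Vec d) 1 => b₀ ⟨T x.1, hTm _ x.2⟩ :=
    b₀.continuous.comp ((hTc.comp continuous_subtype_val).subtype_mk _)
  have hc2 : Continuous fun x : closedBall (0 : Vec d) 1 => (1 - δ) • b₀ ⟨T x.1, hTm _ x.2⟩ := hc1.const_smul (1 - δ)
  have hc3 : Continuous fun x : closedBall (0 : Vec d) 1 => (1 - δ) • b₀ ⟨T x.1, hTm _ x.2⟩ + g x.1 :=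
    hc2.add (hg1.comp continuous_subtype_val)
  set b₁ : Maps d := ⟨fun x => (1 - δ) • b₀ ⟨T x.1, hTm _ x.2⟩ + g x.1, hc3⟩ with hb₁
  have hb₁v : ∀ x, b₁ x = (1 - δ) • b₀ ⟨T x.1, hTm _ x.2⟩ + g x.1 := fun x => rfl
  refine ⟨b₁, ?_, ?_, 1 / M, by positivity, ?_⟩
  · intro x y
    rw [hb₁v, hb₁v]
    have e2 : (1 - δ) • b₀ ⟨T x.1, hTm _ x.2⟩ + g x.1 - ((1 - δ) • b₀ ⟨T y.1, hTm _ y.2⟩ + g y.1) =
        (1 - δ) • (b₀ ⟨T x.1, hTm _ x.2⟩ - b₀ ⟨T y.1, hTm _ y.2⟩) + (g x.1 - g y.1) := by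
      rw [smul_sub]
      abel
    rw [e2]
    refine (norm_add_le _ _).trans ?_
    rw [norm_smul, Real.norm_of_nonneg (by linarith)]
    have h2 := hb₀ ⟨T x.1, hTm _ x.2⟩ ⟨T y.1, hTm _ y.2⟩
    simp only at h2
    have h3 : ‖T x.1 - T y.1‖ ^ α ≤ (1 + δ / 2) * ‖x.1 - y.1‖ ^ α := by
      calc ‖T x.1 - T y.1‖ ^ α ≤ ((1 + δ / 2) * ‖x.1 - y.1‖) ^ α :=
            Real.rpow_le_rpow (norm_nonneg _) (hTlip _ _) h0
        _ = (1 + δ / 2) ^ α * ‖x.1 - y.1‖ ^ α := Real.mul_rpow (by positivity) (norm_nonneg _)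
        _ ≤ (1 + δ / 2) * ‖x.1 - y.1‖ ^ α := by
            apply mul_le_mul_of_nonneg_right _ (Real.rpow_nonneg (norm_nonneg _) _)
            calc (1 + δ / 2) ^ α ≤ (1 + δ / 2) ^ (1 : ℝ) :=
                  Real.rpow_le_rpow_of_exponent_le (by linarith) h1.le
              _ = 1 + δ / 2 := Real.rpow_one _
    have h4 := hghol x.1 y.1
    have h5 : 0 ≤ ‖x.1 - y.1‖ ^ α := Real.rpow_nonneg (norm_nonneg _) _
    calc (1 - δ) * ‖b₀ ⟨T x.1, hTm _ x.2⟩ - b₀ ⟨T y.1, hTm _ y.2⟩‖ + ‖g x.1 - g y.1‖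
        ≤ (1 - δ) * ((1 + δ / 2) * ‖x.1 - y.1‖ ^ α) + δ / 2 * ‖x.1 - y.1‖ ^ α := by
          apply add_le_add _ h4
          exact mul_le_mul_of_nonneg_left (h2.trans h3) (by linarith)
      _ = (1 - δ ^ 2 / 2) * ‖x.1 - y.1‖ ^ α := by ring
      _ ≤ 1 * ‖x.1 - y.1‖ ^ α := by
          gcongr
          have : 0 ≤ δ ^ 2 / 2 := by positivity
          linarith
      _ = _ := one_mul _
  · refine lt_of_le_of_lt ((ContinuousMap.dist_le (by positivity : 0 ≤ 5 * η / 8)).2 fun x => ?_) (by linarith)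
    rw [hb₁v, dist_eq_norm]
    have e2 : (1 - δ) • b₀ ⟨T x.1, hTm _ x.2⟩ + g x.1 - b₀ x =
        (b₀ ⟨T x.1, hTm _ x.2⟩ - b₀ x) - δ • b₀ ⟨T x.1, hTm _ x.2⟩ + g x.1 := by
      rw [sub_smul, one_smul]
      abel
    rw [e2]
    have h2 : ‖b₀ ⟨T x.1, hTm _ x.2⟩ - b₀ x‖ ≤ η / 4 := by
      rw [← dist_eq_norm]
      apply le_of_lt
      apply hcont
      rw [Subtype.dist_eq, dist_eq_norm]
      have h3 := Tm_close ha0 hR2 hCsep x.1
      have h4 : a < ρ₁ := by
        calc a = A * ρ := ha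
          _ ≤ A * (ρ₁ / (2 * A)) := by
              gcongr
              exact hρle.trans hm3
          _ = ρ₁ / 2 := by field_simp
          _ < ρ₁ := by linarith
      exact lt_of_le_of_lt h3 h4
    have h3 : ‖δ • b₀ ⟨T x.1, hTm _ x.2⟩‖ ≤ η / 4 := by
      rw [norm_smul, Real.norm_of_nonneg hδ0.le]
      calc δ * ‖b₀ ⟨T x.1, hTm _ x.2⟩‖ ≤ δ * B := by
            gcongr
            exact b₀.norm_coe_le_norm _
        _ ≤ η / 4 := hδB
    have h4 : ‖g x.1‖ ≤ η / 8 := by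
      refine (hg2 _).trans ?_
      calc a = A * ρ := ha
        _ ≤ A * (η / (8 * A)) := by
            gcongr
            exact hρle.trans hm4
        _ = η / 8 := by field_simp
    calc ‖(b₀ ⟨T x.1, hTm _ x.2⟩ - b₀ x) - δ • b₀ ⟨T x.1, hTm _ x.2⟩ + g x.1‖
        ≤ ‖b₀ ⟨T x.1, hTm _ x.2⟩ - b₀ x‖ + ‖δ • b₀ ⟨T x.1, hTm _ x.2⟩‖ + ‖g x.1‖ :=
          (norm_add_le _ _).trans (add_le_add (norm_sub_le _ _) le_rfl)
      _ ≤ 5 * η / 8 := by linarith
  · intro b hb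
    refine viol_of hd (β := (1 - α) * β) (ε := (1 - α) * ε) (σ := σ) (A := A) (E := E) (m := m) (M := M) (J := J)
      hσ hσ1 hA hJc hM1 hE0 hE P hPsep hPmem b₁ ?_ ?_ b hb
    · intro p hp h
      rw [hb₁v]
      show M ^ 2 • ((1 - δ) • b₀ ⟨T p.1, hTm _ h⟩ + g p.1) = _
      rw [hg3 p hp, hw]
      simp only
      rw [dif_pos h, add_sub_cancel, smul_smul, mul_inv_cancel₀ (by positivity), one_smul]
    · have h2 := int_many (c := c) (N := N) (q := q) (B := A) (s := s) (ρ := ρ) hq1 hρ0 hs0 (by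
        rw [hs, ha]
        nlinarith [mul_pos hρ0 hA]) v U (fun p hp => (hU p hp).1)
      rw [← hM, ← hP] at h2
      have h3 : ENNReal.ofReal ((((L : ℕ) : ℝ) ^ d) * (m₁ * N ^ ((β + ε) * q) * N ^ (2 * d + 2))) ≤
          ENNReal.ofReal (ρ ^ (d + 2)) * ∫⁻ y, SF c M P y ^ q := by
        refine le_trans ?_ h2
        rw [ENNReal.ofReal_mul (by positivity)]
        apply mul_le_mul' _ hint
        rw [← Nat.cast_pow, ENNReal.ofReal_natCast]
      have h4 : (n ^ q * E + 1) * (M ^ (((1 - α) * β + (1 - α) * ε) * q) * M ^ (2 * d + 2)) * ρ ^ (d + 2) ≤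
          (L : ℝ) ^ d * (m₁ * N ^ ((β + ε) * q) * N ^ (2 * d + 2)) := by
        have e2 : N ^ ((β + ε) * q) = ρm ^ e₁ * M ^ e₁ := by
          rw [← Real.mul_rpow hρm0.le hM0.le, ← hNM, ← Real.rpow_mul hN0.le]
          congr 1
          rw [he₁]
          field_simp
        have e3 : ((1 - α) * β + (1 - α) * ε) * q = e₁ := by rw [he₁]; ring
        have e4 : N ^ (2 * d + 2) = ρ ^ d * ρ ^ (d + 2) * M ^ (2 * d + 2) := by
          rw [hMN, mul_pow, ← pow_add]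
          congr 2
          ring
        have e5 : 1 ≤ (L : ℝ) ^ d * (48 * d * R * A) ^ d * ρ ^ d := by
          rw [← mul_pow, ← mul_pow]
          apply one_le_pow₀
          calc 1 ≤ L * (48 * d * R * A * ρ) := hL48
            _ = _ := by ring
        have hMe : 0 < M ^ e₁ := Real.rpow_pos_of_pos hM0 _
        have hre : 0 < ρm ^ e₁ := Real.rpow_pos_of_pos hρm0 _
        have hMd : 0 < M ^ (2 * d + 2) := pow_pos hM0 _
        have hρd2 : 0 < ρ ^ (d + 2) := pow_pos hρ0 _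
        have hK : 0 < n ^ q * E + 1 := add_pos_of_nonneg_of_pos (mul_nonneg hnq.le hE0.le) one_pos
        rw [e2, e3, e4, hm₁]
        exact arith_aux hMe hre hMd hρd2 hK e5
      have h5 := (ENNReal.ofReal_le_ofReal h4).trans h3
      have hρd : 0 < ρ ^ (d + 2) := pow_pos hρ0 _
      have hX : 0 ≤ (n ^ q * E + 1) * (M ^ (((1 - α) * β + (1 - α) * ε) * q) * M ^ (2 * d + 2)) :=
        mul_nonneg (add_nonneg (mul_nonneg hnq.le hE0.le) zero_le_one)
          (mul_nonneg (Real.rpow_nonneg hM0.le _) (pow_nonneg hM0.le _))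
      exact cancel_aux hρd hX h5

end Pool.Agent.K4H66.KG
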