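import Pool.Agent.K4H66.KG.Cover
import Pool.Agent.K4H66.KG.Defs

set_option autoImplicit false

/-! A family for which the inequality fails has a large critical moment. -/

open MeasureTheory Set Filter Topology ENNReal NNReal Metric
open scoped Classical

namespace Pool.Agent.K4H66.KG

open Pool.Agent.H810R3.Tub

/-- The critical moment of a bad family. -/
theorem large_of_not (d : ℕ) (hd : 1 ≤ d) : ∃ c₀ : ℝ, 0 < c₀ ∧ ∀ (N D : ℝ), 1 ≤ N → 1 ≤ D →
    ∀ (ι : Type) [Fintype ι] [Nonempty ι] (ω : ι → Vec d) (f : ι → Fin d → Space d) (a : ι → Space d),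
      (∀ i, Orthonormal ℝ (Fin.cons (nor (ω i)) (f i) : Fin (d + 1) → Space d)) →
      ¬ Ineq N D ω f a →
      ENNReal.ofReal (c₀ * D ^ (1 + 1 / (d : ℝ)) * (Fintype.card ι : ℝ) ^ (1 + 1 / (d : ℝ)) * N ^ (d + 1)) <
        ∫⁻ y, Fb N ω f a y ^ (1 + 1 / (d : ℝ)) := by
  have hd0 : (0 : ℝ) < d := by exact_mod_cast hd
  have hw0 : 0 < wv d := wv_pos d
  set b₀ : ℝ := (1 + (d : ℝ)) ^ (d + 1) * wv d with hb₀
  have hb0 : 0 < b₀ := by positivity
  have hbr : 0 < b₀ ^ (1 / (d : ℝ)) := Real.rpow_pos_of_pos hb0 _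
  set c₀ : ℝ := min ((b₀ ^ (1 / (d : ℝ)))⁻¹) (wv d / 2 ^ (d + 1)) with hc₀
  have hc0 : 0 < c₀ := lt_min (inv_pos.2 hbr) (by positivity)
  refine ⟨c₀, hc0, ?_⟩
  intro N D hN hD ι _ _ ω f a hf hneg
  have hN0 : 0 < N := by linarith
  have hD0 : 0 < D := by linarith
  set q : ℝ := 1 + 1 / (d : ℝ) with hq
  have hq1 : 1 < q := by
    have : 0 < 1 / (d : ℝ) := by positivity
    linarith
  set c : ℝ := (Fintype.card ι : ℝ) with hc
  have hcp : 0 < c := by
    have h1 : (0 : ℝ) < (Fintype.card ι : ℝ) := by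
      have := Fintype.card_pos (α := ι)
      exact_mod_cast this
    exact h1
  have hDq : 0 < D ^ q := Real.rpow_pos_of_pos hD0 _
  have hcq : 0 < c ^ q := Real.rpow_pos_of_pos hcp _
  by_contra hcon
  rw [not_lt] at hcon
  apply hneg
  intro p hp
  refine compare d hN hq1 (Q := c₀ * D ^ q * c ^ q * N ^ (d + 1)) (by positivity) hD ω f hf a hcon ?_ ?_ p hp
  · have e1 : ((1 + (d : ℝ)) ^ (d + 1) * wv d * N ^ (2 * (d + 1))) ^ (q - 1) =
        b₀ ^ (1 / (d : ℝ)) * (N ^ (2 * (d + 1))) ^ (1 / (d : ℝ)) := by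
      rw [← hb₀, Real.mul_rpow hb0.le (by positivity)]
      congr 2 <;> (rw [hq]; ring)
    have e2 : (N ^ (2 * (d + 1))) ^ (1 / (d : ℝ)) * N ^ (d + 1) = (N ^ (d + 2)) ^ q := by
      rw [← Real.rpow_natCast N (2 * (d + 1)), ← Real.rpow_natCast N (d + 1), ← Real.rpow_natCast N (d + 2),
        ← Real.rpow_mul hN0.le, ← Real.rpow_mul hN0.le, ← Real.rpow_add hN0]
      congr 1
      rw [hq]
      push_cast
      field_simp
      ring
    rw [e1, Real.mul_rpow hcp.le (by positivity)]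
    calc c₀ * D ^ q * c ^ q * N ^ (d + 1) * (b₀ ^ (1 / (d : ℝ)) * (N ^ (2 * (d + 1))) ^ (1 / (d : ℝ)))
        = (c₀ * b₀ ^ (1 / (d : ℝ))) * (D ^ q * (c ^ q * ((N ^ (2 * (d + 1))) ^ (1 / (d : ℝ)) * N ^ (d + 1)))) := by
          ring
      _ ≤ 1 * (D ^ q * (c ^ q * ((N ^ (2 * (d + 1))) ^ (1 / (d : ℝ)) * N ^ (d + 1)))) := by
          apply mul_le_mul_of_nonneg_right _ (by positivity)
          calc c₀ * b₀ ^ (1 / (d : ℝ)) ≤ (b₀ ^ (1 / (d : ℝ)))⁻¹ * b₀ ^ (1 / (d : ℝ)) :=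
                mul_le_mul_of_nonneg_right (min_le_left _ _) hbr.le
            _ = 1 := inv_mul_cancel₀ hbr.ne'
      _ = _ := by rw [e2, one_mul]
  · calc c₀ * D ^ q * c ^ q * N ^ (d + 1) ≤ (wv d / 2 ^ (d + 1)) * D ^ q * c ^ q * N ^ (d + 1) := by
          gcongr
          exact min_le_right _ _
      _ = D ^ q * (c ^ q * ((N / 2) ^ (d + 1) * wv d)) := by
          rw [div_pow]
          ring

/-- The family of the tubes of a family of boxes. -/
noncomputable def fam {d : ℕ} {ι : Type} [Fintype ι] (ω : ι → Vec d) (a : ι → Space d) :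
    Finset (Vec d × Space d) := Finset.univ.image (fun i => (ω i, a i))

theorem Fb_le_SF {d : ℕ} (hd : 1 ≤ d) {ι : Type} [Fintype ι] {N σ : ℝ} (hN : 1 ≤ N) (hσ : 0 < σ) (ω : ι → Vec d)
    (f : ι → Fin d → Space d) (a : ι → Space d) (hω : ∀ i, ‖ω i‖ ≤ 1)
    (hsep : ∀ i j, i ≠ j → σ / N ≤ ‖ω i - ω j‖)
    (hf : ∀ i, Orthonormal ℝ (Fin.cons (nor (ω i)) (f i) : Fin (d + 1) → Space d)) :
    (∀ y, Fb N ω f a y ≤ SF (2 * d + 1) N (fam ω a) y) ∧ (fam ω a).card = Fintype.card ι ∧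
      Sep (σ / N) (fam ω a) ∧ ∀ p ∈ fam ω a, ‖p.1‖ ≤ 1 := by
  have hN0 : 0 < N := by linarith
  have hd0 : (1 : ℝ) ≤ d := by exact_mod_cast hd
  have hinj : Function.Injective (fun i => (ω i, a i)) := by
    intro i j h
    by_contra hne
    have h1 := hsep i j hne
    simp only [Prod.mk.injEq] at h
    rw [h.1, sub_self, norm_zero] at h1
    have : 0 < σ / N := by positivity
    linarith
  refine ⟨?_, ?_, ?_, ?_⟩
  · intro y
    unfold Fb SF fam
    rw [Finset.sum_image hinj.injOn]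
    refine Finset.sum_le_sum fun i _ => ?_
    by_cases hy : y ∈ box N (nor (ω i)) (f i) (a i)
    · rw [indicator_of_mem hy, indicator_of_mem]
      obtain ⟨h1, h2⟩ := box_coord hN (hω i) (hf i) hy
      rw [WithLp.sub_fst, WithLp.sub_snd] at h1
      rw [WithLp.sub_snd] at h2
      refine ⟨h2.trans ?_, h1.trans ?_⟩
      · nlinarith [sq_nonneg N]
      · nlinarith
    · rw [indicator_of_notMem hy]
      exact zero_le
  · unfold fam
    rw [Finset.card_image_of_injective _ hinj, Finset.card_univ]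
  · intro p hp p' hp' hne
    unfold fam at hp hp'
    rw [Finset.mem_image] at hp hp'
    obtain ⟨i, _, rfl⟩ := hp
    obtain ⟨j, _, rfl⟩ := hp'
    exact hsep i j (fun h => hne (by rw [h]))
  · intro p hp
    unfold fam at hp
    rw [Finset.mem_image] at hp
    obtain ⟨i, _, rfl⟩ := hp
    exact hω i

end Pool.Agent.K4H66.KG
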