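import Pool.Agent.H810R3.Tub.Compare
import Pool.Agent.H810R3.Tub.Per2

set_option autoImplicit false

/-! Slanted tubes, shears and parabolic scalings. -/

open MeasureTheory Set Filter Topology ENNReal NNReal Metric

namespace Pool.Agent.K4H66.KG

open Pool.Agent.H810R3.Tub

variable {d : ℕ}

/-- The slanted tube of the direction `ω` with the centre `a`. -/
def sl (c N : ℝ) (ω : Vec d) (a : Space d) : Set (Space d) :=
  {y | |y.snd - a.snd| ≤ c * N ^ 2 ∧ ‖(y.fst - a.fst) + (2 * (y.snd - a.snd)) • ω‖ ≤ c * N}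

theorem cont_fst : Continuous (fun y : Space d => y.fst) := by fun_prop
theorem cont_snd : Continuous (fun y : Space d => y.snd) := by fun_prop

theorem sl_closed (c N : ℝ) (ω : Vec d) (a : Space d) : IsClosed (sl c N ω a) := by
  have h1 : IsClosed {y : Space d | |y.snd - a.snd| ≤ c * N ^ 2} :=
    isClosed_le (continuous_abs.comp (cont_snd.sub continuous_const)) continuous_const
  have h2 : IsClosed {y : Space d | ‖(y.fst - a.fst) + (2 * (y.snd - a.snd)) • ω‖ ≤ c * N} := by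
    refine isClosed_le (Continuous.norm ?_) continuous_const
    exact (cont_fst.sub continuous_const).add
      ((continuous_const.mul (cont_snd.sub continuous_const)).smul continuous_const)
  exact h1.inter h2

/-- the shear -/
noncomputable def G (τ : Vec d) (y : Space d) : Space d := WithLp.toLp 2 (y.fst - (2 * y.snd) • τ, y.snd)

/-- the parabolic scaling followed by a translation -/
noncomputable def Z (ρ : ℝ) (v : Vec d) (y : Space d) : Space d :=
  WithLp.toLp 2 (ρ⁻¹ • y.fst + v, (ρ ^ 2)⁻¹ * y.snd)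

@[simp] theorem G_fst (τ : Vec d) (y : Space d) : (G τ y).fst = y.fst - (2 * y.snd) • τ := rfl
@[simp] theorem G_snd (τ : Vec d) (y : Space d) : (G τ y).snd = y.snd := rfl
@[simp] theorem Z_fst (ρ : ℝ) (v : Vec d) (y : Space d) : (Z ρ v y).fst = ρ⁻¹ • y.fst + v := rfl
@[simp] theorem Z_snd (ρ : ℝ) (v : Vec d) (y : Space d) : (Z ρ v y).snd = (ρ ^ 2)⁻¹ * y.snd := rfl

theorem mem_G {c N : ℝ} {ω τ : Vec d} {a y : Space d} :
    G τ y ∈ sl c N (ω + τ) (G τ a) ↔ y ∈ sl c N ω a := by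
  unfold sl
  simp only [mem_ofPred_eq, G_fst, G_snd]
  have e : y.fst - (2 * y.snd) • τ - (a.fst - (2 * a.snd) • τ) + (2 * (y.snd - a.snd)) • (ω + τ) =
      y.fst - a.fst + (2 * (y.snd - a.snd)) • ω := by module
  rw [e]

theorem mem_Z {c N ρ : ℝ} (hρ : 0 < ρ) {ω v : Vec d} {a y : Space d} :
    Z ρ v y ∈ sl c (N / ρ) (ρ • ω) (Z ρ v a) ↔ y ∈ sl c N ω a := by
  unfold sl
  simp only [mem_ofPred_eq, Z_fst, Z_snd]
  have e1 : (ρ ^ 2)⁻¹ * y.snd - (ρ ^ 2)⁻¹ * a.snd = (ρ ^ 2)⁻¹ * (y.snd - a.snd) := by ring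
  have e2 : ρ⁻¹ • y.fst + v - (ρ⁻¹ • a.fst + v) + (2 * ((ρ ^ 2)⁻¹ * (y.snd - a.snd))) • ρ • ω =
      ρ⁻¹ • (y.fst - a.fst + (2 * (y.snd - a.snd)) • ω) := by
    rw [smul_smul, show 2 * ((ρ ^ 2)⁻¹ * (y.snd - a.snd)) * ρ = ρ⁻¹ * (2 * (y.snd - a.snd)) by
      field_simp]
    module
  rw [e1, e2, abs_mul, abs_of_pos (by positivity : 0 < (ρ ^ 2)⁻¹), norm_smul, norm_inv,
    Real.norm_of_nonneg hρ.le]
  have e3 : c * (N / ρ) ^ 2 = (ρ ^ 2)⁻¹ * (c * N ^ 2) := by field_simp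
  have e4 : c * (N / ρ) = ρ⁻¹ * (c * N) := by field_simp
  rw [e3, e4, mul_le_mul_iff_right₀ (by positivity), mul_le_mul_iff_right₀ (by positivity)]

theorem G_neg (τ : Vec d) (y : Space d) : G τ (G (-τ) y) = y := by
  unfold G
  apply WithLp.ofLp_injective
  refine Prod.ext ?_ rfl
  show y.fst - (2 * y.snd) • (-τ) - (2 * y.snd) • τ = y.fst
  module

theorem G_cont (τ : Vec d) : Continuous (G τ) := by
  unfold G
  fun_prop

theorem Z_cont (ρ : ℝ) (v : Vec d) : Continuous (Z ρ v) := by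
  unfold Z
  fun_prop

/-- The integral over the whole space as an iterated integral. -/
theorem lint_iter {g : Space d → ℝ≥0∞} (hg : Measurable g) :
    ∫⁻ y, g y = ∫⁻ t : ℝ, ∫⁻ x : Vec d, g (WithLp.toLp 2 (x, t)) := by
  have hmp := WithLp.volume_preserving_toLp (Vec d) ℝ
  rw [← hmp.lintegral_comp hg]
  have hg2 : Measurable (fun p : Vec d × ℝ => g (WithLp.toLp 2 p)) := hg.comp hmp.measurable
  rw [Measure.volume_eq_prod, lintegral_prod_symm _ hg2.aemeasurable]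

theorem lint_G (τ : Vec d) {g : Space d → ℝ≥0∞} (hg : Measurable g) :
    ∫⁻ y, g (G τ y) = ∫⁻ y, g y := by
  rw [lint_iter (g := fun y => g (G τ y)) (hg.comp (G_cont τ).measurable), lint_iter hg]
  refine lintegral_congr fun t => ?_
  show ∫⁻ x : Vec d, g (WithLp.toLp 2 (x - (2 * t) • τ, t)) = _
  exact lintegral_sub_right_eq_self (fun x : Vec d => g (WithLp.toLp 2 (x, t))) ((2 * t) • τ)

theorem lint_Z {ρ : ℝ} (hρ : 0 < ρ) (v : Vec d) {g : Space d → ℝ≥0∞} (hg : Measurable g) :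
    ∫⁻ y, g (Z ρ v y) = ENNReal.ofReal (ρ ^ (d + 2)) * ∫⁻ y, g y := by
  rw [lint_iter (g := fun y => g (Z ρ v y)) (hg.comp (Z_cont ρ v).measurable), lint_iter hg]
  have h1 : ∀ t : ℝ, ∫⁻ x : Vec d, g (Z ρ v (WithLp.toLp 2 (x, t))) =
      ENNReal.ofReal (ρ ^ d) * ∫⁻ x : Vec d, g (WithLp.toLp 2 (x, (ρ ^ 2)⁻¹ * t)) := by
    intro t
    show ∫⁻ x : Vec d, g (WithLp.toLp 2 (ρ⁻¹ • x + v, (ρ ^ 2)⁻¹ * t)) = _
    have h2 := lint_smul (volume : Measure (Vec d)) (r := ρ⁻¹) (inv_pos.2 hρ).ne'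
      (fun x => g (WithLp.toLp 2 (x + v, (ρ ^ 2)⁻¹ * t)))
    rw [h2, finrank_euclideanSpace_fin]
    congr 1
    · congr 1
      rw [inv_pow, inv_inv, abs_of_pos (by positivity)]
    · exact lintegral_add_right_eq_self (fun x : Vec d => g (WithLp.toLp 2 (x, (ρ ^ 2)⁻¹ * t))) v
  rw [lintegral_congr h1]
  rw [lintegral_const_mul' _ _ ENNReal.ofReal_ne_top]
  have h3 := lint_smul (volume : Measure ℝ) (r := (ρ ^ 2)⁻¹) (by positivity)
    (fun t => ∫⁻ x : Vec d, g (WithLp.toLp 2 (x, t)))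
  simp only [smul_eq_mul, Module.finrank_self, pow_one, inv_inv] at h3
  rw [h3, abs_of_pos (by positivity), ← mul_assoc, ← ENNReal.ofReal_mul (by positivity), ← pow_add]

/-- The number of the slanted tubes through a point. -/
noncomputable def SF (c N : ℝ) (P : Finset (Vec d × Space d)) (y : Space d) : ℝ≥0∞ :=
  ∑ p ∈ P, (sl c N p.1 p.2).indicator (fun _ => (1 : ℝ≥0∞)) y

theorem SF_meas (c N : ℝ) (P : Finset (Vec d × Space d)) : Measurable (SF c N P) := by
  unfold SF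
  apply Finset.measurable_fun_sum
  intro p _
  exact measurable_const.indicator (sl_closed _ _ _ _).measurableSet

end Pool.Agent.K4H66.KG
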